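import Pool.Agent.Chordal.Rank

/-!
# Attaching the vertices of a graph to a clique and to previous vertices
-/

namespace Pool.Agent.Chordal

open Finset
open scoped Classical

noncomputable section

variable {V : Type*} [Fintype V]

/-- a fixed numbering of the vertices -/
def idx (u : V) : ℕ := (Fintype.equivFin V u : ℕ)

theorem idx_lt (u : V) : idx u < Fintype.card V := (Fintype.equivFin V u).2

theorem idx_inj {u v : V} (h : idx u = idx v) : u = v :=
  (Fintype.equivFin V).injective (Fin.ext h)

/-- the neighbours of `u` in the clique `K` -/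
def T (G : SimpleGraph V) (K : Finset V) (u : V) : Finset V := K.filter (G.Adj u)

theorem mem_T {G : SimpleGraph V} {K : Finset V} {u s : V} : s ∈ T G K u ↔ s ∈ K ∧ G.Adj u s := by
  unfold T
  rw [Finset.mem_filter]

theorem T_subset (G : SimpleGraph V) (K : Finset V) (u : V) : T G K u ⊆ K := filter_subset _ _

/-- the attachment sets -/
def att (G : SimpleGraph V) (K : Finset V) (X : V → Finset V) (u : V) : Finset V :=
  if u ∈ K then K.filter (fun w => idx w < idx u)
  else (T G K u).filter (fun s => ∀ y ∈ X u, s ∈ T G K y) ∪ X u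

theorem sum_card_idx (K : Finset V) :
    ∑ u ∈ K, (K.filter (fun w => idx w < idx u)).card = K.card.choose 2 := by
  have h1 : ∑ u ∈ K, (K.filter (fun w => idx w < idx u)).card =
      ∑ u ∈ K, (K.filter (fun w => idx u < idx w)).card := by
    simp_rw [Finset.card_filter]
    rw [Finset.sum_comm]
  have h2 : ∀ u ∈ K, (K.filter (fun w => idx w < idx u)).card +
      (K.filter (fun w => idx u < idx w)).card = K.card - 1 := by
    intro u hu
    rw [← Finset.card_union_of_disjoint, ← Finset.filter_or]
    · rw [← Finset.card_erase_of_mem hu]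
      congr 1
      ext w
      simp only [Finset.mem_filter, Finset.mem_erase]
      constructor
      · rintro ⟨hw, h⟩
        refine ⟨?_, hw⟩
        rintro rfl
        omega
      · rintro ⟨h, hw⟩
        refine ⟨hw, ?_⟩
        by_contra h'
        exact h (idx_inj (by omega))
    · rw [Finset.disjoint_filter]
      intro w _ h
      omega
  have h3 := Finset.sum_congr rfl h2
  rw [Finset.sum_add_distrib, ← h1, Finset.sum_const, smul_eq_mul] at h3
  rw [Nat.choose_two_right]
  omega

/-- General attachment lemma. -/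
theorem exists_chordal_att (G : SimpleGraph V) (K : Finset V) (hK : G.IsClique K)
    (X : V → Finset V) (r' : V → ℕ)
    (hX1 : ∀ u ∉ K, ∀ y ∈ X u, y ∉ K ∧ G.Adj u y)
    (hX2 : ∀ u ∉ K, ∀ y ∈ X u, r' y < r' u)
    (hX3 : ∀ u ∉ K, ∀ y ∈ X u, ∀ s ∈ T G K u, (∀ y' ∈ X u, s ∈ T G K y') →
      ∀ y'' ∈ X y, s ∈ T G K y'')
    (hX4 : ∀ u ∉ K, ∀ y ∈ X u, ∀ y' ∈ X u, y ≠ y' → y ∈ X y' ∨ y' ∈ X y) :
    ∃ H ≤ G, IsChordal H ∧ H.edgeSet.ncard = K.card.choose 2 +
      ∑ u ∈ univ \ K, (((T G K u).filter (fun s => ∀ y ∈ X u, s ∈ T G K y)).card +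
        (X u).card) := by
  have hmem : ∀ u ∉ K, ∀ p, p ∈ att G K X u ↔
      (p ∈ T G K u ∧ ∀ y ∈ X u, p ∈ T G K y) ∨ p ∈ X u := by
    intro u hu p
    unfold att
    rw [if_neg hu, Finset.mem_union, Finset.mem_filter]
  have hmemK : ∀ u ∈ K, ∀ p, p ∈ att G K X u ↔ p ∈ K ∧ idx p < idx u := by
    intro u hu p
    unfold att
    rw [if_pos hu, Finset.mem_filter]
  obtain ⟨H, hHG, hH, hcard⟩ := exists_chordal G (att G K X)
    (fun u => if u ∈ K then idx u else Fintype.card V + r' u) (by
      intro u v hv
      by_cases hu : u ∈ K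
      · rw [hmemK u hu] at hv
        refine hK hu hv.1 ?_
        rintro rfl
        omega
      · rw [hmem u hu] at hv
        rcases hv with hv | hv
        · exact (mem_T.1 hv.1).2
        · exact (hX1 u hu v hv).2) (by
      intro u v hv
      by_cases hu : u ∈ K
      · rw [hmemK u hu] at hv
        simp only [if_pos hu, if_pos hv.1]
        exact hv.2
      · rw [hmem u hu] at hv
        rcases hv with hv | hv
        · simp only [if_neg hu, if_pos (mem_T.1 hv.1).1]
          have := idx_lt v
          omega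
        · simp only [if_neg hu, if_neg (hX1 u hu v hv).1]
          have := hX2 u hu v hv
          omega) (by
      intro u p hp q hq hpq
      have hKK : ∀ p ∈ K, ∀ q ∈ K, p ≠ q → p ∈ att G K X q ∨ q ∈ att G K X p := by
        intro p hp q hq hpq
        rw [hmemK q hq, hmemK p hp]
        rcases lt_trichotomy (idx p) (idx q) with h | h | h
        · exact Or.inl ⟨hp, h⟩
        · exact absurd (idx_inj h) hpq
        · exact Or.inr ⟨hq, h⟩
      have hKX : ∀ u ∉ K, ∀ s, s ∈ T G K u → (∀ y ∈ X u, s ∈ T G K y) → ∀ y ∈ X u,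
          s ∈ att G K X y := by
        intro u hu s hs hs' y hy
        rw [hmem y (hX1 u hu y hy).1]
        exact Or.inl ⟨hs' y hy, hX3 u hu y hy s hs hs'⟩
      by_cases hu : u ∈ K
      · rw [hmemK u hu] at hp hq
        exact hKK p hp.1 q hq.1 hpq
      · rw [hmem u hu] at hp hq
        rcases hp with hp | hp <;> rcases hq with hq | hq
        · exact hKK p (mem_T.1 hp.1).1 q (mem_T.1 hq.1).1 hpq
        · exact Or.inl (hKX u hu p hp.1 hp.2 q hq)
        · exact Or.inr (hKX u hu q hq.1 hq.2 p hp)
        · rw [hmem q (hX1 u hu q hq).1, hmem p (hX1 u hu p hp).1]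
          rcases hX4 u hu p hp q hq hpq with h | h
          · exact Or.inl (Or.inr h)
          · exact Or.inr (Or.inr h))
  refine ⟨H, hHG, hH, ?_⟩
  rw [hcard, ← Finset.sum_sdiff (Finset.subset_univ K), add_comm]
  congr 1
  · rw [← sum_card_idx K]
    refine Finset.sum_congr rfl fun u hu => ?_
    unfold att
    rw [if_pos hu]
  · refine Finset.sum_congr rfl fun u hu => ?_
    have hu' : u ∉ K := (Finset.mem_sdiff.1 hu).2
    unfold att
    rw [if_neg hu', Finset.card_union_of_disjoint]
    rw [Finset.disjoint_left]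
    intro s hs hs'
    exact (hX1 u hu' s hs').1 (mem_T.1 (Finset.mem_filter.1 hs).1).1

/-! ### Types -/

/-- adjacency inside a type class -/
def tg (G : SimpleGraph V) (K : Finset V) : SimpleGraph V where
  Adj u v := G.Adj u v ∧ u ∉ K ∧ v ∉ K ∧ T G K u = T G K v
  symm := ⟨fun _ _ h => ⟨h.1.symm, h.2.2.1, h.2.1, h.2.2.2.symm⟩⟩
  loopless := ⟨fun u h => G.loopless.irrefl u h.1⟩

/-- `u` has a neighbour of strictly larger type -/
def Entry (G : SimpleGraph V) (K : Finset V) (u : V) : Prop :=
  ∃ p, p ∉ K ∧ G.Adj u p ∧ T G K u ⊂ T G K p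

/-- the component of `u` in its type class contains an entry vertex -/
def Mixed (G : SimpleGraph V) (K : Finset V) (u : V) : Prop :=
  ∃ u', (tg G K).Reachable u u' ∧ Entry G K u'

/-- candidates -/
def Cand (G : SimpleGraph V) (K : Finset V) (k : ℕ) (u : V) : Finset V :=
  univ.filter (fun z => z ∉ K ∧ G.Adj u z ∧ (T G K z).card = k ∧ T G K u ⊆ T G K z)

/-- the component of `u` in its type class -/
def comp (G : SimpleGraph V) (K : Finset V) (u : V) : Finset V :=
  univ.filter (fun v => (tg G K).Reachable u v)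

theorem T_eq_of_reachable {G : SimpleGraph V} {K : Finset V} {u v : V}
    (h : (tg G K).Reachable u v) : T G K u = T G K v := by
  obtain ⟨p⟩ := h
  induction p with
  | nil => rfl
  | cons h _ ih => exact h.2.2.2.trans ih

theorem notMem_of_reachable {G : SimpleGraph V} {K : Finset V} {u v : V}
    (h : (tg G K).Reachable u v) (hu : u ∉ K) : v ∉ K := by
  obtain ⟨p⟩ := h
  induction p with
  | nil => exact hu
  | cons h _ ih => exact ih h.2.2.1

theorem exists_parent {V : Type*} (H : SimpleGraph V) {r u : V} (h : H.Reachable r u) (hne : u ≠ r) :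
    ∃ y, H.Adj u y ∧ H.dist r y < H.dist r u := by
  obtain ⟨p, hp⟩ := h.symm.exists_walk_length_eq_dist
  cases p with
  | nil => exact absurd rfl hne
  | @cons _ y _ ha q =>
    refine ⟨y, ha, ?_⟩
    have h1 : H.dist y r ≤ q.length := SimpleGraph.dist_le q
    rw [SimpleGraph.Walk.length_cons] at hp
    rw [SimpleGraph.dist_comm (u := r) (v := y), SimpleGraph.dist_comm (u := r) (v := u)]
    omega

end

end Pool.Agent.Chordal
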