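import Mathlib

/-!
# Choice of pairwise disjoint cliques in the candidate sets
-/

open Finset

namespace Pool.Agent.Chordal

variable {V : Type*} [Fintype V] [DecidableEq V] (G : SimpleGraph V) [DecidableRel G.Adj]

/-- The non-neighbours of `z`, including `z` itself. -/
def nn (z : V) : Finset V := univ.filter fun y => ¬ G.Adj z y

omit [DecidableEq V] in
theorem mem_nn {z y : V} : y ∈ nn G z ↔ ¬ G.Adj z y := by simp [nn]

theorem pick_clique (D : ℕ) (A F : Finset V) (hD : ∀ z ∈ A, z ∉ F → (nn G z).card ≤ D) (m : ℕ)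
    (hm : m = 0 ∨ (m - 1) * D + F.card < A.card) :
    ∃ L ⊆ A \ F, L.card = m ∧ ∀ y ∈ L, ∀ z ∈ L, y ≠ z → G.Adj y z := by
  induction m with
  | zero => exact ⟨∅, by simp, rfl, by simp⟩
  | succ m ih =>
    have h1 : m * D + F.card < A.card := by
      rcases hm with h | h
      · omega
      · simpa using h
    have h2 : m = 0 ∨ (m - 1) * D + F.card < A.card := by
      right
      have : (m - 1) * D ≤ m * D := Nat.mul_le_mul_right _ (Nat.sub_le _ _)
      omega
    obtain ⟨L, hL, hLc, hLa⟩ := ih h2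
    have h3 : (F ∪ L.biUnion (nn G)).card < A.card := by
      refine lt_of_le_of_lt (card_union_le _ _) ?_
      have h4 : (L.biUnion (nn G)).card ≤ m * D := by
        rw [← hLc]
        refine card_biUnion_le_card_mul _ _ _ fun z hz => ?_
        have := hL hz
        rw [mem_sdiff] at this
        exact hD z this.1 this.2
      omega
    obtain ⟨z, hzA, hz⟩ : ∃ z ∈ A, z ∉ F ∪ L.biUnion (nn G) := by
      by_contra hcon
      push Not at hcon
      exact absurd (card_le_card hcon) (by omega)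
    rw [mem_union, not_or] at hz
    have hz2 : ∀ y ∈ L, G.Adj y z := by
      intro y hy
      by_contra hc
      exact hz.2 (mem_biUnion.2 ⟨y, hy, (mem_nn G).2 hc⟩)
    have hzL : z ∉ L := fun h => (G.loopless.irrefl z) (hz2 z h)
    refine ⟨insert z L, ?_, ?_, ?_⟩
    · rw [insert_subset_iff]
      exact ⟨mem_sdiff.2 ⟨hzA, hz.1⟩, hL⟩
    · rw [card_insert_of_notMem hzL, hLc]
    · intro y hy t ht hyt
      rw [mem_insert] at hy ht
      rcases hy with rfl | hy
      · rcases ht with rfl | ht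
        · exact absurd rfl hyt
        · exact (hz2 t ht).symm
      · rcases ht with rfl | ht
        · exact hz2 y hy
        · exact hLa y hy t ht hyt

theorem pick_step (D : ℕ) (A F L₀ : Finset V) (hD : ∀ z ∈ A, z ∉ F → (nn G z).card ≤ D) (m : ℕ)
    (h1 : (m - 1) * D + F.card < A.card) (h2 : m * D + L₀.card < A.card) :
    ∃ (c : V) (L : Finset V), L ⊆ A ∧ Disjoint L F ∧ L.card = m ∧
      (∀ y ∈ L, ∀ z ∈ L, y ≠ z → G.Adj y z) ∧ c ∈ A ∧ c ∉ L₀ ∧ ∀ y ∈ L, G.Adj c y := by
  obtain ⟨L, hL, hLc, hLa⟩ := pick_clique G D A F hD m (Or.inr h1)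
  have h3 : (L₀ ∪ L.biUnion (nn G)).card < A.card := by
    refine lt_of_le_of_lt (card_union_le _ _) ?_
    have h4 : (L.biUnion (nn G)).card ≤ m * D := by
      rw [← hLc]
      refine card_biUnion_le_card_mul _ _ _ fun z hz => ?_
      have := hL hz
      rw [mem_sdiff] at this
      exact hD z this.1 this.2
    omega
  obtain ⟨c, hcA, hc⟩ : ∃ z ∈ A, z ∉ L₀ ∪ L.biUnion (nn G) := by
    by_contra hcon
    push Not at hcon
    exact absurd (card_le_card hcon) (by omega)
  rw [mem_union, not_or] at hc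
  refine ⟨c, L, hL.trans sdiff_subset, ?_, hLc, hLa, hcA, hc.1, ?_⟩
  · exact disjoint_of_subset_left hL sdiff_disjoint
  · intro y hy
    by_contra hcon
    exact hc.2 (mem_biUnion.2 ⟨y, hy, (mem_nn G).2 fun h => hcon h.symm⟩)

/-- A system of cliques `L u ∪ {c u}` in the candidate sets `A u`. -/
structure Sel (A : V → Finset V) (m : V → ℕ) (Par B : Finset V) (c : V → V) (L : V → Finset V) :
    Prop where
  sub : ∀ u ∈ B, L u ⊆ A u
  cmem : ∀ u ∈ B, c u ∈ A u
  card : ∀ u ∈ B, (L u).card = m u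
  clique : ∀ u ∈ B, ∀ y ∈ L u, ∀ z ∈ L u, y ≠ z → G.Adj y z
  cadj : ∀ u ∈ B, ∀ y ∈ L u, G.Adj (c u) y
  par : ∀ u ∈ B, Disjoint (L u) Par
  disj : ∀ u ∈ B, ∀ u' ∈ B, u ≠ u' → Disjoint (L u) (L u')
  cnot : ∀ u ∈ B, ∀ u' ∈ B, c u ∉ L u'

theorem exists_sel (D : ℕ) (A : V → Finset V) (m : V → ℕ) (x : V → ℤ) (F B : Finset V)
    (hD : ∀ u ∈ B, ∀ z ∈ A u, z ∉ F → (nn G z).card ≤ D)
    (h1 : ∀ u ∈ B, ∀ s ⊆ B.erase u, (∀ v ∈ s, x v ≤ x u) →
      (m u - 1) * D + (F.card + ∑ v ∈ s, (m v + 1)) < (A u).card)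
    (h2 : ∀ u ∈ B, ∀ s ⊆ B.erase u, (∀ v ∈ s, x v ≤ x u) →
      m u * D + ∑ v ∈ s, m v < (A u).card) :
    ∃ (c : V → V) (L : V → Finset V), Sel G A m F B c L := by
  classical
  suffices H : ∀ T : Finset V, T ⊆ B → ∃ (c : V → V) (L : V → Finset V), Sel G A m F T c L from
    H B Subset.rfl
  intro T
  induction T using Finset.induction_on_max_value x with
  | empty =>
    intro _
    exact ⟨id, fun _ => ∅, by constructor <;> simp⟩
  | insert u T huT hmax ih =>
    intro hsub
    rw [insert_subset_iff] at hsub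
    obtain ⟨c, L, hS⟩ := ih hsub.2
    have hTe : T ⊆ B.erase u := fun v hv => mem_erase.2 ⟨fun h => huT (h ▸ hv), hsub.2 hv⟩
    set UL := T.biUnion L with hUL
    have hULc : UL.card ≤ ∑ v ∈ T, m v :=
      card_biUnion_le.trans (sum_le_sum fun v hv => (hS.card v hv).le)
    set F' := F ∪ (UL ∪ T.image c) with hF'
    have hF'c : F'.card ≤ F.card + ∑ v ∈ T, (m v + 1) := by
      refine (card_union_le _ _).trans ?_
      refine Nat.add_le_add_left ((card_union_le _ _).trans ?_) _
      rw [sum_add_distrib]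
      refine Nat.add_le_add hULc ?_
      rw [sum_const, smul_eq_mul, mul_one]
      exact card_image_le
    have e1 := h1 u hsub.1 T hTe hmax
    have e2 := h2 u hsub.1 T hTe hmax
    obtain ⟨c0, L0, a1, a2, a3, a4, a5, a6, a7⟩ := pick_step G D (A u) F' UL
      (fun z hz hzF => hD u hsub.1 z hz fun h => hzF (mem_union_left _ h)) (m u)
      (by omega) (by omega)
    have hne : ∀ v ∈ T, v ≠ u := fun v hv h => huT (h ▸ hv)
    have hdisj : ∀ v ∈ T, Disjoint L0 (L v) := fun v hv =>
      disjoint_of_subset_right (subset_union_right.trans' (subset_union_left.trans'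
        (subset_biUnion_of_mem L hv))) a2
    have hc0 : ∀ v ∈ T, c0 ∉ L v := fun v hv h => a6 (mem_biUnion.2 ⟨v, hv, h⟩)
    have hcv : ∀ v ∈ T, c v ∉ L0 := fun v hv h => by
      refine disjoint_left.1 a2 h ?_
      exact mem_union_right _ (mem_union_right _ (mem_image_of_mem c hv))
    have hcc : c0 ∉ L0 := fun h => G.loopless.irrefl c0 (a7 c0 h)
    refine ⟨Function.update c u c0, Function.update L u L0, ?_⟩
    have ucu : Function.update c u c0 u = c0 := Function.update_self ..
    have uLu : Function.update L u L0 u = L0 := Function.update_self ..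
    have ucv : ∀ v ∈ T, Function.update c u c0 v = c v := fun v hv =>
      Function.update_of_ne (hne v hv) ..
    have uLv : ∀ v ∈ T, Function.update L u L0 v = L v := fun v hv =>
      Function.update_of_ne (hne v hv) ..
    constructor
    · intro v hv
      rcases mem_insert.1 hv with rfl | hvT
      · rw [uLu]; exact a1
      · rw [uLv v hvT]; exact hS.sub v hvT
    · intro v hv
      rcases mem_insert.1 hv with rfl | hvT
      · rw [ucu]; exact a5
      · rw [ucv v hvT]; exact hS.cmem v hvT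
    · intro v hv
      rcases mem_insert.1 hv with rfl | hvT
      · rw [uLu]; exact a3
      · rw [uLv v hvT]; exact hS.card v hvT
    · intro v hv
      rcases mem_insert.1 hv with rfl | hvT
      · rw [uLu]; exact a4
      · rw [uLv v hvT]; exact hS.clique v hvT
    · intro v hv
      rcases mem_insert.1 hv with rfl | hvT
      · rw [uLu, ucu]; exact a7
      · rw [uLv v hvT, ucv v hvT]; exact hS.cadj v hvT
    · intro v hv
      rcases mem_insert.1 hv with rfl | hvT
      · rw [uLu]; exact disjoint_of_subset_right subset_union_left a2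
      · rw [uLv v hvT]; exact hS.par v hvT
    · intro v hv v' hv' hvv
      rcases mem_insert.1 hv with rfl | hvT
      · rcases mem_insert.1 hv' with rfl | hvT'
        · exact absurd rfl hvv
        · rw [uLu, uLv v' hvT']; exact hdisj v' hvT'
      · rcases mem_insert.1 hv' with rfl | hvT'
        · rw [uLu, uLv v hvT]; exact (hdisj v hvT).symm
        · rw [uLv v hvT, uLv v' hvT']; exact hS.disj v hvT v' hvT' hvv
    · intro v hv v' hv'
      rcases mem_insert.1 hv with rfl | hvT
      · rcases mem_insert.1 hv' with rfl | hvT'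
        · rw [ucu, uLu]; exact hcc
        · rw [ucu, uLv v' hvT']; exact hc0 v' hvT'
      · rcases mem_insert.1 hv' with rfl | hvT'
        · rw [uLu, ucv v hvT]; exact hcv v hvT
        · rw [ucv v hvT, uLv v' hvT']; exact hS.cnot v hvT v' hvT'

/-- The counting: under the numerical hypotheses of the bad case the system exists. `A u` are
the candidates of `u`, `Par` and `P` are forbidden for leaves. -/
theorem exists_selection (w s q N : ℤ) (x d : V → ℤ) (e : V → ℕ) (B P Par : Finset V)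
    (A : V → Finset V) (hs : 1 ≤ s) (hw : 0 ≤ w)
    (hx : ∀ u ∈ B, 3 ≤ x u) (he : ∀ u ∈ B, 2 ≤ e u) (hex : ∀ u ∈ B, 2 * (e u : ℤ) ≤ x u + 1)
    (hd : ∀ u ∈ B, (x u - 1) * w + 2 * ((e u : ℤ) - 1) * s < d u)
    (hA : ∀ u ∈ B, d u ≤ (A u).card + (N - 1) + q)
    (hN : N + ∑ u ∈ B, (x u - 1) ≤ w + q) (hPar : (Par.card : ℤ) + B.card ≤ N)
    (hP : (P.card : ℤ) + 2 * q < ∑ u ∈ B, (x u - 2)) (hwB : ∑ u ∈ B, x u ≤ w + q)
    (hnn : ∀ u ∈ B, ∀ z ∈ A u, z ∉ P → ((nn G z).card : ℤ) ≤ w + 2 * s) :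
    ∃ (c : V → V) (L : V → Finset V), Sel G A (fun u => e u - 1) Par B c L := by
  classical
  obtain ⟨w', rfl⟩ := Int.eq_ofNat_of_zero_le hw
  obtain ⟨s', rfl⟩ := Int.eq_ofNat_of_zero_le (by omega : (0 : ℤ) ≤ s)
  have hsx1 : ∑ u ∈ B, (x u - 1) = ∑ u ∈ B, x u - B.card := by
    rw [sum_sub_distrib]; simp
  have hsx2 : ∑ u ∈ B, (x u - 2) = ∑ u ∈ B, x u - 2 * B.card := by
    rw [sum_sub_distrib]; simp [mul_comm]
  rw [hsx1] at hN
  rw [hsx2] at hP
  have hFc : ((Par ∪ P).card : ℤ) ≤ Par.card + P.card := by exact_mod_cast card_union_le _ _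
  -- sums over subsets
  have hsub : ∀ s : Finset V, s ⊆ B → ∑ v ∈ s, (x v + 1) ≤ ∑ v ∈ B, (x v + 1) := fun s hs =>
    sum_le_sum_of_subset_of_nonneg hs fun v hv _ => by linarith [hx v hv]
  have hB1 : ∑ v ∈ B, (x v + 1) = ∑ v ∈ B, x v + B.card := by
    rw [sum_add_distrib]; simp
  suffices hsuff : ∃ (c : V → V) (L : V → Finset V), Sel G A (fun u => e u - 1) (Par ∪ P) B c L by
    obtain ⟨c, L, hS⟩ := hsuff
    exact ⟨c, L, { hS with
      par := fun u hu => disjoint_of_subset_right subset_union_left (hS.par u hu) }⟩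
  refine exists_sel G (w' + 2 * s') A (fun u => e u - 1) x (Par ∪ P) B ?_ ?_ ?_
  · intro u hu z hz hzF
    have := hnn u hu z hz fun h => hzF (mem_union_right _ h)
    exact_mod_cast this
  · intro u hu s hsB hmax
    have hsB' : s ⊆ B := hsB.trans (erase_subset _ _)
    have h2 : ((∑ v ∈ s, (e v - 1 + 1) : ℕ) : ℤ) = ∑ v ∈ s, (e v : ℤ) := by
      push_cast
      refine sum_congr rfl fun v hv => ?_
      have := he v (hsB' hv)
      push_cast [Nat.cast_sub (by omega : 1 ≤ e v)]
      ring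
    have h3 : 2 * ∑ v ∈ s, (e v : ℤ) ≤ ∑ v ∈ s, (x v + 1) := by
      rw [mul_sum]
      exact sum_le_sum fun v hv => hex v (hsB' hv)
    have h4 := hsub s hsB'
    have heu := he u hu
    have hxu := hx u hu
    have hexu := hex u hu
    have hdu := hd u hu
    have hAu := hA u hu
    have h5 : (0 : ℤ) ≤ (x u - e u - 1) * w' := mul_nonneg (by omega) (by omega)
    have goal : (((e u : ℤ) - 2) * (w' + 2 * s') + ((Par ∪ P).card + ∑ v ∈ s, (e v : ℤ)))
        < (A u).card := by
      nlinarith [h5]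
    have h6 : (((e u - 1 - 1) * (w' + 2 * s') + ((Par ∪ P).card + ∑ v ∈ s, (e v - 1 + 1)) : ℕ) : ℤ)
        < ((A u).card : ℤ) := by
      rw [Nat.cast_add, Nat.cast_add, h2, Nat.cast_mul]
      have h7 : ((e u - 1 - 1 : ℕ) : ℤ) = (e u : ℤ) - 2 := by
        rw [Nat.sub_sub]; push_cast [Nat.cast_sub heu]; ring
      rw [h7]
      push_cast
      exact goal
    exact_mod_cast h6
  · intro u hu s hsB hmax
    have hsB' : s ⊆ B := hsB.trans (erase_subset _ _)
    have h2 : ((∑ v ∈ s, (e v - 1) : ℕ) : ℤ) = ∑ v ∈ s, ((e v : ℤ) - 1) := by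
      push_cast
      refine sum_congr rfl fun v hv => ?_
      have := he v (hsB' hv)
      push_cast [Nat.cast_sub (by omega : 1 ≤ e v)]
      ring
    have heu := he u hu
    have hxu := hx u hu
    have hexu := hex u hu
    have hdu := hd u hu
    have hAu := hA u hu
    have hPc : (0 : ℤ) ≤ P.card := by positivity
    have hcardlt : s.card < B.card := by
      have := card_le_card hsB
      rw [card_erase_of_mem hu] at this
      have hpos : 0 < B.card := card_pos.2 ⟨u, hu⟩
      omega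
    have key : ∑ v ∈ s, ((e v : ℤ) - 1) < (x u - e u - 1) * w' + 3 + B.card := by
      by_cases h3 : x u = 3
      · have h4 : ∑ v ∈ s, ((e v : ℤ) - 1) ≤ ∑ v ∈ s, (1 : ℤ) := by
          refine sum_le_sum fun v hv => ?_
          have a1 := hmax v hv
          have a2 := hex v (hsB' hv)
          omega
        have h5 : (0 : ℤ) ≤ (x u - e u - 1) * w' := mul_nonneg (by omega) (by omega)
        simp only [sum_const, nsmul_eq_mul, mul_one] at h4
        omega
      · have h4 : (1 : ℤ) ≤ x u - e u - 1 := by omega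
        have h5 : (w' : ℤ) ≤ (x u - e u - 1) * w' := by nlinarith
        have h6 : 2 * ∑ v ∈ s, ((e v : ℤ) - 1) ≤ ∑ v ∈ s, (x v + 1) := by
          rw [mul_sum]
          refine sum_le_sum fun v hv => ?_
          have a2 := hex v (hsB' hv)
          omega
        have h7 := hsub s hsB'
        omega
    have goal : ((e u : ℤ) - 1) * (w' + 2 * s') + ∑ v ∈ s, ((e v : ℤ) - 1) < (A u).card := by
      nlinarith [key]
    have h6 : (((e u - 1) * (w' + 2 * s') + ∑ v ∈ s, (e v - 1) : ℕ) : ℤ) < ((A u).card : ℤ) := by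
      rw [Nat.cast_add, h2, Nat.cast_mul]
      have h7 : ((e u - 1 : ℕ) : ℤ) = (e u : ℤ) - 1 := by
        push_cast [Nat.cast_sub (by omega : 1 ≤ e u)]; ring
      rw [h7]
      push_cast
      exact goal
    exact_mod_cast h6

end Pool.Agent.Chordal
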