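import Pool.Agent.Chordal.Rank
import Pool.Agent.Chordal.Select

/-!
# Chordal subgraphs grown from a clique
-/

namespace Pool.Agent.Chordal

open Finset

section
variable {V : Type*}

open Classical in
/-- The neighbours of `u` in the clique `K`. -/
noncomputable def trc (G : SimpleGraph V) (K : Finset V) (u : V) : Finset V := K.filter (G.Adj u)

theorem mem_trc {G : SimpleGraph V} {K : Finset V} {u v : V} : v ∈ trc G K u ↔ v ∈ K ∧ G.Adj u v := by
  classical
  simp [trc]

theorem trc_subset (G : SimpleGraph V) (K : Finset V) (u : V) : trc G K u ⊆ K := by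
  classical
  exact filter_subset _ _

open Classical in
theorem sum_card_lt (idx : V → ℕ) (hidx : Function.Injective idx) (K : Finset V) :
    ∑ u ∈ K, (K.filter fun v => idx v < idx u).card = K.card.choose 2 := by
  induction K using Finset.induction_on_max_value idx with
  | empty => simp
  | insert a s ha hmax ih =>
    have hmax' : ∀ x ∈ s, idx x < idx a := fun x hx =>
      lt_of_le_of_ne (hmax x hx) fun h => ha (hidx h ▸ hx)
    rw [sum_insert ha, card_insert_of_notMem ha, Nat.choose_succ_succ' _ 1, Nat.choose_one_right]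
    congr 1
    · congr 1
      ext x
      simp only [mem_filter, mem_insert]
      constructor
      · rintro ⟨rfl | h, h2⟩
        · exact absurd h2 (lt_irrefl _)
        · exact h
      · exact fun h => ⟨Or.inr h, hmax' x h⟩
    · rw [← ih]
      refine sum_congr rfl fun u hu => ?_
      congr 1
      ext x
      simp only [mem_filter, mem_insert]
      constructor
      · rintro ⟨rfl | h, h2⟩
        · exact absurd h2 (not_lt.2 (hmax' u hu).le)
        · exact ⟨h, h2⟩
      · exact fun h => ⟨Or.inr h.1, h.2⟩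

end

variable {V : Type*} [Fintype V]

/-- Attaching the vertices outside a clique `K` one after the other. -/
theorem exists_chordal_clique [DecidableEq V] (G : SimpleGraph V) (K : Finset V)
    (hK : ∀ u ∈ K, ∀ v ∈ K, u ≠ v → G.Adj u v) (D : V → Finset V) (r : V → ℕ)
    (hadj : ∀ u ∉ K, ∀ v ∈ D u, G.Adj u v)
    (hr : ∀ u ∉ K, ∀ v ∈ D u, v ∈ K ∨ r v < r u)
    (hnest : ∀ u ∉ K, ∀ p ∈ D u, ∀ q ∈ D u, p ≠ q →
      (p ∈ K ∧ q ∈ K) ∨ (q ∉ K ∧ p ∈ D q) ∨ (p ∉ K ∧ q ∈ D p)) :
    ∃ H ≤ G, IsChordal H ∧ H.edgeSet.ncard = K.card.choose 2 + ∑ u ∈ univ \ K, (D u).card := by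
  classical
  let idx : V → ℕ := fun v => (Fintype.equivFin V v : ℕ)
  have hidx : Function.Injective idx := fun a b h =>
    (Fintype.equivFin V).injective (Fin.ext h)
  have hlt : ∀ v, idx v < Fintype.card V := fun v => (Fintype.equivFin V v).isLt
  let C : V → Finset V := fun u => if u ∈ K then K.filter fun v => idx v < idx u else D u
  let R : V → ℕ := fun u => if u ∈ K then idx u else Fintype.card V + r u
  have hCK : ∀ u ∈ K, C u = K.filter fun v => idx v < idx u := fun u hu => if_pos hu
  have hCn : ∀ u ∉ K, C u = D u := fun u hu => if_neg hu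
  have hRK : ∀ u ∈ K, R u = idx u := fun u hu => if_pos hu
  have hRn : ∀ u ∉ K, R u = Fintype.card V + r u := fun u hu => if_neg hu
  suffices hsuff : ∃ H ≤ G, IsChordal H ∧ H.edgeSet.ncard = ∑ u, (C u).card by
    obtain ⟨H, h1, h2, h3⟩ := hsuff
    refine ⟨H, h1, h2, ?_⟩
    rw [h3, ← sum_card_lt idx hidx K, ← sum_sdiff (subset_univ K), add_comm]
    congr 1
    · exact sum_congr rfl fun u hu => by rw [hCK u hu]
    · exact sum_congr rfl fun u hu => by rw [hCn u (mem_sdiff.1 hu).2]
  refine exists_chordal G C R ?_ ?_ ?_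
  · intro u v hv
    by_cases hu : u ∈ K
    · rw [hCK u hu, mem_filter] at hv
      exact hK u hu v hv.1 fun h => by rw [h] at hv; exact lt_irrefl _ hv.2
    · rw [hCn u hu] at hv
      exact hadj u hu v hv
  · intro u v hv
    by_cases hu : u ∈ K
    · rw [hCK u hu, mem_filter] at hv
      rw [hRK u hu, hRK v hv.1]
      exact hv.2
    · rw [hCn u hu] at hv
      rw [hRn u hu]
      by_cases hvK : v ∈ K
      · rw [hRK v hvK]
        exact lt_of_lt_of_le (hlt v) (Nat.le_add_right _ _)
      · rw [hRn v hvK]
        rcases hr u hu v hv with h | h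
        · exact absurd h hvK
        · omega
  · intro u p hp q hq hpq
    have hKK : ∀ p ∈ K, ∀ q ∈ K, p ≠ q → p ∈ C q ∨ q ∈ C p := by
      intro p hp q hq hpq
      rw [hCK q hq, hCK p hp, mem_filter, mem_filter]
      rcases lt_trichotomy (idx p) (idx q) with h | h | h
      · exact Or.inl ⟨hp, h⟩
      · exact absurd (hidx h) hpq
      · exact Or.inr ⟨hq, h⟩
    by_cases hu : u ∈ K
    · rw [hCK u hu, mem_filter] at hp hq
      exact hKK p hp.1 q hq.1 hpq
    · rw [hCn u hu] at hp hq
      rcases hnest u hu p hp q hq hpq with ⟨h1, h2⟩ | ⟨h1, h2⟩ | ⟨h1, h2⟩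
      · exact hKK p h1 q h2 hpq
      · left; rw [hCn q h1]; exact h2
      · right; rw [hCn p h1]; exact h2

/-- The chordal subgraph in which every vertex is attached to its neighbours in `K`. -/
theorem base_chordal (G : SimpleGraph V) (K : Finset V)
    (hK : ∀ u ∈ K, ∀ v ∈ K, u ≠ v → G.Adj u v) [DecidableEq V] :
    ∃ H ≤ G, IsChordal H ∧
      H.edgeSet.ncard = K.card.choose 2 + ∑ u ∈ univ \ K, (trc G K u).card := by
  refine exists_chordal_clique G K hK (trc G K) (fun _ => 0) (fun u _ v hv => (mem_trc.1 hv).2)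
    (fun u _ v hv => Or.inl (mem_trc.1 hv).1) (fun u _ p hp q hq _ => Or.inl ⟨(mem_trc.1 hp).1,
      (mem_trc.1 hq).1⟩)

/-- The chordal subgraph in which additionally every neighbour of a common neighbour `z` of `K`
is attached to `z`. -/
theorem hub_chordal (G : SimpleGraph V) [DecidableEq V] [DecidableRel G.Adj] (K : Finset V)
    (hK : ∀ u ∈ K, ∀ v ∈ K, u ≠ v → G.Adj u v) (z : V) (hz : z ∉ K) (hzK : trc G K z = K) :
    ∃ H ≤ G, IsChordal H ∧ H.edgeSet.ncard = K.card.choose 2 + (∑ u ∈ univ \ K, (trc G K u).card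
      + ((univ \ K).filter (G.Adj z)).card) := by
  classical
  let D : V → Finset V := fun u => if G.Adj z u then insert z (trc G K u) else trc G K u
  suffices hsuff : ∃ H ≤ G, IsChordal H ∧
      H.edgeSet.ncard = K.card.choose 2 + ∑ u ∈ univ \ K, (D u).card by
    obtain ⟨H, h1, h2, h3⟩ := hsuff
    refine ⟨H, h1, h2, ?_⟩
    rw [h3]
    congr 1
    rw [card_filter, ← sum_add_distrib]
    refine sum_congr rfl fun u hu => ?_
    simp only [D]
    split_ifs with h
    · rw [card_insert_of_notMem]
      exact fun h => hz (mem_trc.1 h).1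
    · rw [add_zero]
  refine exists_chordal_clique G K hK D (fun u => if u = z then 0 else 1) ?_ ?_ ?_
  · intro u hu v hv
    simp only [D] at hv
    split_ifs at hv with h
    · rcases mem_insert.1 hv with rfl | hv
      · exact h.symm
      · exact (mem_trc.1 hv).2
    · exact (mem_trc.1 hv).2
  · intro u hu v hv
    simp only [D] at hv
    split_ifs at hv with h
    · rcases mem_insert.1 hv with rfl | hv
      · right
        have : u ≠ v := fun h' => by rw [h'] at h; exact G.loopless.irrefl v h
        simp [this]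
      · exact Or.inl (mem_trc.1 hv).1
    · exact Or.inl (mem_trc.1 hv).1
  · intro u hu p hp q hq hpq
    have hDz : D z = K := by
      simp only [D]
      rw [if_neg (G.loopless.irrefl z), hzK]
    have hmem : ∀ p ∈ D u, p = z ∨ p ∈ K := by
      intro p hp
      simp only [D] at hp
      split_ifs at hp with h
      · rcases mem_insert.1 hp with rfl | hp
        · exact Or.inl rfl
        · exact Or.inr (mem_trc.1 hp).1
      · exact Or.inr (mem_trc.1 hp).1
    rcases hmem p hp with rfl | hpK
    · rcases hmem q hq with rfl | hqK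
      · exact absurd rfl hpq
      · right; right
        rw [hDz]; exact ⟨hz, hqK⟩
    · rcases hmem q hq with rfl | hqK
      · right; left
        rw [hDz]; exact ⟨hz, hpK⟩
      · exact Or.inl ⟨hpK, hqK⟩

end Pool.Agent.Chordal
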