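import Pool.Agent.Chordal.Setup

open Finset

namespace Pool.Agent.Chordal

variable {V : Type} [Fintype V] [DecidableEq V] {G : SimpleGraph V} [DecidableRel G.Adj] {k : ℕ}

omit [DecidableEq V] in
theorem fn_eq (u : V) : fn G u = ((univ.filter (fun z => ¬ G.Adj u z)).card : ℤ) := by
  have h1 := Finset.card_filter_add_card_filter_not (s := (univ : Finset V)) (fun z => G.Adj u z)
  have h2 : G.degree u = (univ.filter (fun z => G.Adj u z)).card := by
    rw [← SimpleGraph.card_neighborFinset_eq_degree]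
    congr 1
    ext z
    simp
  unfold fn
  rw [h2]
  rw [card_univ] at h1
  omega

omit [DecidableEq V] in
theorem one_le_fn (u : V) : 1 ≤ fn G u := by
  rw [fn_eq]
  have : 0 < (univ.filter (fun z => ¬ G.Adj u z)).card :=
    card_pos.2 ⟨u, by simp⟩
  exact_mod_cast this

namespace Setup

variable (S : Setup G k)

omit [DecidableEq V] in
theorem mem_M {u : V} {i : Fin (k + 1)} : i ∈ S.M u ↔ ¬ G.Adj u (S.v i) := by
  simp [M]

omit [DecidableEq V] in
theorem v_inj : Function.Injective S.v := by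
  intro i j h
  by_contra hne
  have := S.adj i j hne
  rw [h] at this
  exact G.loopless.irrefl _ this

omit [DecidableEq V] in
theorem M_v (i : Fin (k + 1)) : S.M (S.v i) = {i} := by
  ext j
  rw [mem_M, mem_singleton]
  constructor
  · intro h
    by_contra hne
    exact h (S.adj i j (Ne.symm hne))
  · rintro rfl
    exact G.loopless.irrefl _

omit [DecidableEq V] in
theorem one_le_s : 1 ≤ S.s := by
  have := S.pos
  unfold s a
  omega

omit [DecidableEq V] in
/-- greedy choice -/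
theorem a_le_fn {u : V} {i : Fin (k + 1)} (h : ∀ j, j < i → j ∉ S.M u) : S.a i ≤ fn G u := by
  have := S.greedy i u (fun j hj => by
    have := h j hj
    rw [mem_M, not_not] at this
    exact this)
  unfold a fn
  omega

omit [DecidableEq V] in
theorem a_mono {i j : Fin (k + 1)} (h : i ≤ j) : S.a i ≤ S.a j := by
  refine S.a_le_fn (u := S.v j) ?_
  intro l hl
  rw [M_v, mem_singleton]
  rintro rfl
  exact absurd (lt_of_lt_of_le hl h) (lt_irrefl _)

omit [DecidableEq V] in
theorem a_le_A (i : Fin (k + 1)) : S.a i ≤ S.A := S.a_mono (Fin.le_last i)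

omit [DecidableEq V] in
theorem A_eq : S.A = S.w + S.s := by
  simp [w]

omit [DecidableEq V] in
theorem one_le_a (i : Fin (k + 1)) : 1 ≤ S.a i := one_le_fn _

omit [DecidableEq V] in
/-- number of vertices not adjacent to `v i` -/
theorem card_mem_M (i : Fin (k + 1)) : ((univ.filter (fun u => i ∈ S.M u)).card : ℤ) = S.a i := by
  unfold a
  rw [fn_eq]
  congr 2
  ext u
  simp only [mem_filter, mem_univ, true_and, mem_M]
  rw [G.adj_comm]

omit [DecidableEq V] in
theorem sum_a : ∑ i, S.a i = S.w + Fintype.card V := by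
  rw [Fin.sum_univ_castSucc]
  unfold w s A
  ring

omit [DecidableEq V] in
/-- double counting -/
theorem sum_sum_M (g : Fin (k + 1) → ℤ) :
    ∑ u, ∑ i ∈ S.M u, g i = ∑ i, g i * S.a i := by
  have : ∀ u, ∑ i ∈ S.M u, g i = ∑ i, if i ∈ S.M u then g i else 0 := by
    intro u
    rw [← sum_filter]
    congr 1
    ext i
    simp
  simp_rw [this]
  rw [sum_comm]
  refine sum_congr rfl fun i _ => ?_
  rw [← S.card_mem_M i, ← sum_filter, sum_const, nsmul_eq_mul, mul_comm]

omit [DecidableEq V] in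
theorem sum_card_M : ∑ u, ((S.M u).card : ℤ) = ∑ i, S.a i := by
  have := S.sum_sum_M (fun _ => 1)
  simpa using this

omit [DecidableEq V] in
theorem sum_x : ∑ u, S.x u = S.w := by
  unfold x
  rw [sum_sub_distrib, sum_card_M, sum_a]
  simp

omit [DecidableEq V] in
theorem mem_W {u : V} : u ∈ S.W ↔ 2 ≤ (S.M u).card := by simp [W]

omit [DecidableEq V] in
theorem mem_Q {u : V} : u ∈ S.Q ↔ S.M u = ∅ := by simp [Q]

omit [DecidableEq V] in
theorem mem_P {u : V} : u ∈ S.P ↔ (S.M u).card = 1 ∧ S.A + S.s < fn G u := by simp [P]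

omit [DecidableEq V] in
theorem mem_N {u z : V} : z ∈ S.N u ↔ G.Adj u z ∧ S.M z ⊆ S.M u := by simp [N]

/-- split of the vertices: `W`, `Q` and the vertices with `x = 0` -/
theorem sum_split (g : V → ℤ) : ∑ u, g u = ∑ u ∈ S.W, g u + ∑ u ∈ S.Q, g u +
    ∑ u ∈ univ.filter (fun u => (S.M u).card = 1), g u := by
  have h1 : (univ : Finset V) = S.W ∪ S.Q ∪ univ.filter (fun u => (S.M u).card = 1) := by
    ext u
    simp only [mem_univ, mem_union, mem_W, mem_Q, mem_filter, true_and, true_iff]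
    rcases Nat.lt_or_ge (S.M u).card 2 with h | h
    · rcases Nat.eq_zero_or_pos (S.M u).card with h2 | h2
      · left; right; exact card_eq_zero.1 h2
      · right; omega
    · left; left; exact h
  have h2 : Disjoint S.W S.Q := by
    rw [disjoint_left]
    intro u hu hu2
    rw [mem_W] at hu
    rw [mem_Q] at hu2
    rw [hu2] at hu
    simp at hu
  have h3 : Disjoint (S.W ∪ S.Q) (univ.filter (fun u => (S.M u).card = 1)) := by
    rw [disjoint_left]
    intro u hu hu2
    rw [mem_union, mem_W, mem_Q] at hu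
    simp only [mem_filter, mem_univ, true_and] at hu2
    rcases hu with hu | hu
    · omega
    · rw [hu] at hu2
      simp at hu2
  conv_lhs => rw [h1]
  rw [sum_union h3, sum_union h2]

theorem sum_W_x : ∑ u ∈ S.W, S.x u = S.w + S.Q.card := by
  have h := S.sum_split S.x
  rw [sum_x] at h
  have h2 : ∑ u ∈ S.Q, S.x u = - S.Q.card := by
    have : ∀ u ∈ S.Q, S.x u = -1 := by
      intro u hu
      rw [mem_Q] at hu
      simp [x, hu]
    rw [sum_congr rfl this]
    simp
  have h3 : ∑ u ∈ univ.filter (fun u => (S.M u).card = 1), S.x u = 0 := by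
    refine sum_eq_zero fun u hu => ?_
    simp only [mem_filter, mem_univ, true_and] at hu
    simp [x, hu]
  omega

/-- `N_1` -/
theorem card_W : (S.W.card : ℤ) = S.w + S.Q.card - ∑ u ∈ S.W, (S.x u - 1) := by
  rw [sum_sub_distrib, sum_W_x]
  simp

omit [DecidableEq V] in
theorem sum_fn : ∑ u, fn G u = (Fintype.card V : ℤ) ^ 2 - 2 * G.edgeFinset.card := by
  unfold fn
  rw [sum_sub_distrib]
  have h := G.sum_degrees_eq_twice_card_edges
  have h2 : ∑ u, (G.degree u : ℤ) = 2 * G.edgeFinset.card := by exact_mod_cast h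
  rw [h2]
  simp
  ring

omit [DecidableEq V] in
/-- accounting identity -/
theorem sum_R : ∑ u, S.R u = ∑ i, S.a i ^ 2 - (Fintype.card V : ℤ) ^ 2 + 2 * G.edgeFinset.card
    - S.w ^ 2 := by
  unfold R
  rw [sum_sub_distrib, sum_sub_distrib, ← sum_mul, sum_x, sum_fn, sum_sum_M]
  have : ∑ i, S.a i * S.a i = ∑ i, S.a i ^ 2 := sum_congr rfl fun i _ => by ring
  rw [this]
  ring

omit [DecidableEq V] in
theorem R_le_x {u : V} (hu : u ∈ S.W) : S.R u ≤ S.x u * S.s := by
  rw [mem_W] at hu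
  have hne : (S.M u).Nonempty := card_pos.1 (by omega)
  obtain ⟨i, hi, hmin⟩ := exists_min_image (S.M u) id hne
  have h1 : S.a i ≤ fn G u := S.a_le_fn fun j hj hjM => absurd (hmin j hjM) (not_le.2 hj)
  have h2 : ∑ j ∈ (S.M u).erase i, S.a j ≤ ((S.M u).erase i).card * S.A := by
    calc ∑ j ∈ (S.M u).erase i, S.a j ≤ ∑ j ∈ (S.M u).erase i, S.A :=
          sum_le_sum fun j _ => S.a_le_A j
      _ = ((S.M u).erase i).card * S.A := by rw [sum_const, nsmul_eq_mul]
  have h3 : ((S.M u).erase i).card = S.x u := by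
    rw [card_erase_of_mem hi]
    unfold x
    omega
  rw [h3] at h2
  have h4 := add_sum_erase (S.M u) S.a hi
  unfold R
  rw [← h4]
  have h5 := S.A_eq
  rw [h5] at h2
  nlinarith

omit [DecidableEq V] in
theorem R_one {u : V} (hu : (S.M u).card = 1) : ∃ i, S.M u = {i} ∧ S.R u = S.a i - fn G u := by
  obtain ⟨i, hi⟩ := card_eq_one.1 hu
  refine ⟨i, hi, ?_⟩
  unfold R x
  rw [hi]
  simp

omit [DecidableEq V] in
theorem R_le_zero {u : V} (hu : (S.M u).card = 1) : S.R u ≤ 0 := by
  obtain ⟨i, hi, h⟩ := S.R_one hu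
  have : S.a i ≤ fn G u := S.a_le_fn fun j hj hjM => by
    rw [hi, mem_singleton] at hjM
    exact absurd hjM (ne_of_lt hj)
  omega

omit [DecidableEq V] in
theorem R_Q {u : V} (hu : u ∈ S.Q) : S.R u = S.w - fn G u := by
  rw [mem_Q] at hu
  unfold R x
  rw [hu]
  simp
  ring

omit [DecidableEq V] in
theorem R_Q_le {u : V} (hu : u ∈ S.Q) : S.R u ≤ - S.s := by
  have h := S.R_Q hu
  rw [mem_Q] at hu
  have : S.A ≤ fn G u := S.a_le_fn fun j _ hjM => by
    rw [hu] at hjM
    simp at hjM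
  have := S.A_eq
  omega

omit [DecidableEq V] in
theorem R_P {u : V} (hu : u ∈ S.P) : S.R u < - S.s := by
  rw [mem_P] at hu
  obtain ⟨i, hi, h⟩ := S.R_one hu.1
  have := S.a_le_A i
  omega

theorem R_le_N {u : V} (_hu : u ∈ S.W) : S.R u ≤ (S.N u).card - (S.x u - 1) * S.w := by
  -- non-neighbours of `u` in the common neighbourhood
  have h1 : (Fintype.card V : ℤ) ≤ ∑ i ∈ (S.M u)ᶜ, S.a i + fn G u + (S.N u).card := by
    have hcov : (univ : Finset V) ⊆ ((S.M u)ᶜ).biUnion (fun i => univ.filter (fun z => i ∈ S.M z)) ∪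
        univ.filter (fun z => ¬ G.Adj u z) ∪ S.N u := by
      intro z _
      by_cases hz : S.M z ⊆ S.M u
      · by_cases hz2 : G.Adj u z
        · exact mem_union_right _ (S.mem_N.2 ⟨hz2, hz⟩)
        · exact mem_union_left _ (mem_union_right _ (by simp [hz2]))
      · rw [not_subset] at hz
        obtain ⟨i, hi, hi2⟩ := hz
        refine mem_union_left _ (mem_union_left _ (mem_biUnion.2 ⟨i, ?_, ?_⟩))
        · rw [mem_compl]; exact hi2
        · simp [hi]
    have h2 := card_le_card hcov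
    rw [card_univ] at h2
    have h3 := card_union_le (((S.M u)ᶜ).biUnion (fun i => univ.filter (fun z => i ∈ S.M z)) ∪
        univ.filter (fun z => ¬ G.Adj u z)) (S.N u)
    have h4 := card_union_le (((S.M u)ᶜ).biUnion (fun i => univ.filter (fun z => i ∈ S.M z)))
        (univ.filter (fun z => ¬ G.Adj u z))
    have h5 := card_biUnion_le (s := (S.M u)ᶜ) (t := fun i => univ.filter (fun z => i ∈ S.M z))
    have h6 : ((∑ i ∈ (S.M u)ᶜ, (univ.filter (fun z => i ∈ S.M z)).card : ℕ) : ℤ)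
        = ∑ i ∈ (S.M u)ᶜ, S.a i := by
      rw [Nat.cast_sum]
      exact sum_congr rfl fun i _ => S.card_mem_M i
    rw [← h6, fn_eq]
    exact_mod_cast h2.trans (h3.trans (Nat.add_le_add_right (h4.trans
      (Nat.add_le_add_right h5 _)) _))
  have h7 := sum_add_sum_compl (S.M u) S.a
  have h8 := S.sum_a
  unfold R
  have : (S.x u - 1) * S.w = S.x u * S.w - S.w := by ring
  rw [this]
  linarith

/-- `Σ ρ ≤ w'/2` -/
theorem sum_R_le : ∑ u, S.R u ≤ S.s * S.w := by
  rw [S.sum_split S.R]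
  have h1 : ∑ u ∈ S.W, S.R u ≤ (S.w + S.Q.card) * S.s := by
    rw [← sum_W_x, sum_mul]
    exact sum_le_sum fun u hu => S.R_le_x hu
  have h2 : ∑ u ∈ S.Q, S.R u ≤ S.Q.card * (- S.s) := by
    calc ∑ u ∈ S.Q, S.R u ≤ ∑ u ∈ S.Q, (- S.s) := sum_le_sum fun u hu => S.R_Q_le hu
      _ = S.Q.card * (- S.s) := by rw [sum_const, nsmul_eq_mul]
  have h3 : ∑ u ∈ univ.filter (fun u => (S.M u).card = 1), S.R u ≤ 0 := by
    refine sum_nonpos fun u hu => ?_
    simp only [mem_filter, mem_univ, true_and] at hu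
    exact S.R_le_zero hu
  nlinarith

theorem mem_K {u : V} : u ∈ S.K ↔ ∃ i, S.v i = u := by simp [K]

theorem not_mem_K_of_mem_N {u z : V} (hz : z ∈ S.N u) : z ∉ S.K := by
  rw [mem_N] at hz
  rw [mem_K]
  rintro ⟨i, rfl⟩
  rw [M_v] at hz
  have := hz.2 (mem_singleton_self i)
  rw [mem_M] at this
  exact this hz.1

theorem not_mem_K_of_mem_W {u : V} (hu : u ∈ S.W) : u ∉ S.K := by
  rw [mem_W] at hu
  rw [mem_K]
  rintro ⟨i, rfl⟩
  rw [M_v] at hu
  simp at hu

theorem not_mem_K_of_mem_Q {u : V} (hu : u ∈ S.Q) : u ∉ S.K := by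
  rw [mem_Q] at hu
  rw [mem_K]
  rintro ⟨i, rfl⟩
  rw [M_v] at hu
  simp at hu

theorem B_subset_W : S.B ⊆ S.W := by
  intro u hu
  simp only [B, mem_filter, mem_univ, true_and] at hu
  rw [mem_W]
  omega

theorem card_K : S.K.card = k + 1 := by
  unfold K
  rw [card_image_of_injective _ S.v_inj]
  simp

theorem K_clique : ∀ y ∈ S.K, ∀ z ∈ S.K, y ≠ z → G.Adj y z := by
  intro y hy z hz hne
  rw [mem_K] at hy hz
  obtain ⟨i, rfl⟩ := hy
  obtain ⟨j, rfl⟩ := hz
  exact S.adj i j fun h => hne (by rw [h])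

theorem Kn_eq (u : V) : S.Kn u = ((S.M u)ᶜ).image S.v := by
  ext z
  simp only [Kn, mem_filter, mem_K, mem_image, mem_compl, mem_M, not_not]
  constructor
  · rintro ⟨⟨i, rfl⟩, h⟩
    exact ⟨i, h, rfl⟩
  · rintro ⟨i, h, rfl⟩
    exact ⟨⟨i, rfl⟩, h⟩

theorem card_Kn' (u : V) : (S.Kn u).card + (S.M u).card = k + 1 := by
  rw [Kn_eq, card_image_of_injective _ S.v_inj]
  have := card_compl_add_card (S.M u)
  rw [this]
  simp

theorem card_Kn (u : V) : ((S.Kn u).card : ℤ) = k - S.x u := by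
  have := S.card_Kn' u
  unfold x
  omega

theorem Kn_subset_iff (u z : V) : S.Kn u ⊆ S.Kn z ↔ S.M z ⊆ S.M u := by
  rw [Kn_eq, Kn_eq, image_subset_image_iff S.v_inj, compl_subset_compl]

theorem Kn_eq_iff (u z : V) : S.Kn u = S.Kn z ↔ S.M u = S.M z := by
  rw [Subset.antisymm_iff, Kn_subset_iff, Kn_subset_iff, Subset.antisymm_iff]
  exact And.comm

theorem Kn_ssubset_iff (u z : V) : S.Kn u ⊂ S.Kn z ↔ S.M z ⊂ S.M u := by
  rw [ssubset_iff_subset_ne, ssubset_iff_subset_ne, Kn_subset_iff, ne_eq, Kn_eq_iff, ne_comm]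

omit [DecidableEq V] in
/-- `{v : i ∈ M v}` has at most `a` elements -/
theorem card_le_A (i : Fin (k + 1)) (U : Finset V) (hU : ∀ u ∈ U, i ∈ S.M u) :
    (U.card : ℤ) ≤ S.A := by
  refine le_trans ?_ (S.a_le_A i)
  rw [← S.card_mem_M i]
  exact_mod_cast card_le_card fun u hu => by simp [hU u hu]

/-- at least `d_u + k + 2` vertices -/
theorem card_N_le {u : V} (hu : u ∈ S.W) : (S.N u).card + k + 2 ≤ Fintype.card V := by
  have h1 : Disjoint (S.N u) S.K := by
    rw [disjoint_left]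
    exact fun z hz => S.not_mem_K_of_mem_N hz
  have h2 : u ∉ S.N u ∪ S.K := by
    rw [mem_union, not_or]
    refine ⟨?_, S.not_mem_K_of_mem_W hu⟩
    rw [mem_N]
    exact fun h => G.loopless.irrefl _ h.1
  have h3 := card_le_univ (insert u (S.N u ∪ S.K))
  rw [card_insert_of_notMem h2, card_union_of_disjoint h1, card_K] at h3
  omega

end Setup

end Pool.Agent.Chordal
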