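import Pool.Agent.Chordal.Attach

/-!
# The chordal subgraph attached to a clique
-/

namespace Pool.Agent.Chordal

open Finset
open scoped Classical

noncomputable section

variable {V : Type*} [Fintype V]

section Root

variable (G : SimpleGraph V) (K : Finset V) (B : Finset V)

/-- the root of a component: a vertex of `B` if possible, otherwise an entry vertex if possible -/
def rootC (c : (tg G K).ConnectedComponent) : V :=
  if h : ∃ b, b ∈ B ∧ (tg G K).connectedComponentMk b = c then h.choose
  else if h : ∃ b, Entry G K b ∧ (tg G K).connectedComponentMk b = c then h.choose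
  else c.out

/-- the root of the component of `u` -/
def root (u : V) : V := rootC G K B ((tg G K).connectedComponentMk u)

theorem mk_rootC (c : (tg G K).ConnectedComponent) :
    (tg G K).connectedComponentMk (rootC G K B c) = c := by
  unfold rootC
  split_ifs with h h'
  · exact h.choose_spec.2
  · exact h'.choose_spec.2
  · exact c.out_eq

theorem reachable_root (u : V) : (tg G K).Reachable (root G K B u) u :=
  SimpleGraph.ConnectedComponent.exact (mk_rootC G K B _)

theorem root_eq {u v : V} (h : (tg G K).Reachable u v) : root G K B u = root G K B v := by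
  unfold root
  rw [SimpleGraph.ConnectedComponent.eq.2 h]

theorem root_mem {u b : V} (hb : b ∈ B) (h : (tg G K).Reachable b u) : root G K B u ∈ B := by
  unfold root rootC
  have h1 : ∃ b, b ∈ B ∧ (tg G K).connectedComponentMk b = (tg G K).connectedComponentMk u :=
    ⟨b, hb, SimpleGraph.ConnectedComponent.eq.2 h⟩
  rw [dif_pos h1]
  exact h1.choose_spec.1

theorem root_entry {u : V} (hu : Mixed G K u) (h : root G K B u ∉ B) :
    Entry G K (root G K B u) := by
  have h1 : ¬ ∃ b, b ∈ B ∧ (tg G K).connectedComponentMk b = (tg G K).connectedComponentMk u := by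
    rintro ⟨b, hb, hb'⟩
    exact h (root_mem G K B hb (SimpleGraph.ConnectedComponent.exact hb'))
  obtain ⟨u', hu', he⟩ := hu
  have h2 : ∃ b, Entry G K b ∧ (tg G K).connectedComponentMk b =
      (tg G K).connectedComponentMk u :=
    ⟨u', he, SimpleGraph.ConnectedComponent.eq.2 hu'.symm⟩
  unfold root rootC
  rw [dif_neg h1, dif_pos h2]
  exact h2.choose_spec.1

/-- the parent of `u` in the forest (or, for an entry vertex that is a root, a neighbour of strictly
larger type) -/
def par (u : V) : V :=
  if h : ∃ y, (tg G K).Adj u y ∧ (tg G K).dist (root G K B u) y < (tg G K).dist (root G K B u) u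
  then h.choose
  else if h : Entry G K u then h.choose
  else u

theorem par_spec {u : V} (hu : u ≠ root G K B u) : (tg G K).Adj u (par G K B u) ∧
    (tg G K).dist (root G K B u) (par G K B u) < (tg G K).dist (root G K B u) u := by
  have h := exists_parent (tg G K) (reachable_root G K B u) hu
  unfold par
  rw [dif_pos h]
  exact h.choose_spec

theorem par_root {u : V} (hu : u = root G K B u) (h : Entry G K u) : par G K B u ∉ K ∧
    G.Adj u (par G K B u) ∧ T G K u ⊂ T G K (par G K B u) := by
  have h1 : ¬ ∃ y, (tg G K).Adj u y ∧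
      (tg G K).dist (root G K B u) y < (tg G K).dist (root G K B u) u := by
    rintro ⟨y, -, hy⟩
    rw [← hu, SimpleGraph.dist_self] at hy
    exact absurd hy (Nat.not_lt_zero _)
  unfold par
  rw [dif_neg h1, dif_pos h]
  exact h.choose_spec

end Root

/-- the vertices outside `K` with at most `k - 1` neighbours in `K` -/
def low (G : SimpleGraph V) (K : Finset V) (k : ℕ) : Finset V :=
  univ.filter (fun u => u ∉ K ∧ (T G K u).card < k)

theorem mem_low {G : SimpleGraph V} {K : Finset V} {k : ℕ} {u : V} :
    u ∈ low G K k ↔ u ∉ K ∧ (T G K u).card < k := by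
  unfold low
  simp

theorem mem_comp {G : SimpleGraph V} {K : Finset V} {u v : V} :
    v ∈ comp G K u ↔ (tg G K).Reachable u v := by
  unfold comp
  simp

theorem mem_Cand {G : SimpleGraph V} {K : Finset V} {k : ℕ} {u z : V} : z ∈ Cand G K k u ↔
    z ∉ K ∧ G.Adj u z ∧ (T G K z).card = k ∧ T G K u ⊆ T G K z := by
  unfold Cand
  simp

/-- The chordal subgraph. -/
theorem attach (G : SimpleGraph V) (K : Finset V) (hK : G.IsClique K) {k : ℕ}
    (hKk : K.card = k + 1) (B : Finset V) (hB : ∀ u ∈ B, u ∈ low G K k ∧ Mixed G K u) :
    ∃ Par : Finset V, Par.card ≤ (low G K k \ B).card ∧ ∀ (c : V → V) (L : V → Finset V),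
      (∀ u ∈ B, c u ∈ Cand G K k u) → (∀ u ∈ B, L u ⊆ Cand G K k u) →
      (∀ u ∈ B, ∀ y ∈ L u, ∀ z ∈ L u, y ≠ z → G.Adj y z) →
      (∀ u ∈ B, ∀ y ∈ L u, G.Adj (c u) y) →
      (∀ u ∈ B, Disjoint (L u) Par) →
      (∀ u ∈ B, ∀ u' ∈ B, u ≠ u' → Disjoint (L u) (L u')) →
      (∀ u ∈ B, ∀ u' ∈ B, c u ∉ L u') →
      ∃ H ≤ G, IsChordal H ∧ ∀ ρ : V → ℚ,
        (∀ u ∈ low G K k, ¬ Mixed G K u → ∑ v ∈ comp G K u, ρ v ≤ (comp G K u).card - 1) →
        ((k + 1).choose 2 : ℚ) + ∑ u ∈ univ \ K, ((T G K u).card : ℚ) +
          ∑ u ∈ B, (((L u).card : ℚ) + 1) +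
          (((low G K k).filter (fun u => Mixed G K u ∧ u ∉ B)).card : ℚ) +
          ∑ u ∈ (low G K k).filter (fun u => ¬ Mixed G K u), ρ u ≤ (H.edgeSet.ncard : ℚ) := by
  -- entry parents
  set R : Finset V := (low G K k).filter
    (fun u => u ∉ B ∧ u = root G K B u ∧ Mixed G K u) with hR
  refine ⟨R.image (par G K B), (Finset.card_image_le).trans (Finset.card_le_card ?_), ?_⟩
  · intro u hu
    rw [hR, Finset.mem_filter] at hu
    exact Finset.mem_sdiff.2 ⟨hu.1, hu.2.1⟩
  intro c L hc hL hL2 hcL hLP hLL hcL'
  -- leaves
  set Leaf : V → Prop := fun u => ∃ b, b ∈ B ∧ u ∈ L b with hLeaf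
  have hleafT : ∀ u, Leaf u → (T G K u).card = k := by
    rintro u ⟨b, hb, hu⟩
    exact (mem_Cand.1 (hL b hb hu)).2.2.1
  have hBT : ∀ u ∈ B, (T G K u).card < k := fun u hu => (mem_low.1 (hB u hu).1).2
  have hBK : ∀ u ∈ B, u ∉ K := fun u hu => (mem_low.1 (hB u hu).1).1
  have hleafB : ∀ u, Leaf u → u ∉ B := fun u hu hu' => by
    have := hleafT u hu
    have := hBT u hu'
    omega
  have hcleaf : ∀ u ∈ B, ¬ Leaf (c u) := by
    rintro u hu ⟨b, hb, h⟩
    exact hcL' u hu b hb h
  set X : V → Finset V := fun u =>
    if u ∈ B then insert (c u) (L u)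
    else if h : Leaf u then insert (c h.choose) ((L h.choose).filter (fun y => idx y < idx u))
    else if u ∈ low G K k ∧ (u = root G K B u → Mixed G K u) then {par G K B u}
    else ∅ with hX
  have hXB : ∀ u ∈ B, X u = insert (c u) (L u) := fun u hu => by
    simp only [hX, if_pos hu]
  have hXL : ∀ b ∈ B, ∀ u ∈ L b, X u = insert (c b) ((L b).filter (fun y => idx y < idx u)) := by
    intro b hb u hu
    have h1 : Leaf u := ⟨b, hb, hu⟩
    have h2 : h1.choose = b := by
      by_contra hne
      exact Finset.disjoint_left.1 (hLL _ h1.choose_spec.1 b hb hne) h1.choose_spec.2 hu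
    simp only [hX, if_neg (hleafB u h1), dif_pos h1, h2]
  have hXP : ∀ u, u ∉ B → u ∈ low G K k → (u = root G K B u → Mixed G K u) →
      X u = {par G K B u} := by
    intro u hu hu' hu''
    have h1 : ¬ Leaf u := fun h => by
      have := hleafT u h
      have := (mem_low.1 hu').2
      omega
    simp only [hX, if_neg hu, dif_neg h1, if_pos (And.intro hu' hu'')]
  have hX0 : ∀ u, u ∉ B → ¬ Leaf u → ¬ (u ∈ low G K k ∧ (u = root G K B u → Mixed G K u)) →
      X u = ∅ := by
    intro u hu hu' hu''
    simp only [hX, if_neg hu, dif_neg hu', if_neg hu'']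
  have hX0' : ∀ u, ¬ Leaf u → (T G K u).card = k → X u = ∅ := by
    intro u hu hu'
    refine hX0 u (fun h => ?_) hu fun h => ?_
    · have := hBT u h
      omega
    · have := (mem_low.1 h.1).2
      omega
  -- properties of the parents
  have hpar : ∀ u, u ∉ B → u ∈ low G K k → (u = root G K B u → Mixed G K u) →
      par G K B u ∉ K ∧ G.Adj u (par G K B u) ∧ ¬ Leaf (par G K B u) ∧
      T G K u ⊆ T G K (par G K B u) ∧
      (T G K u ⊂ T G K (par G K B u) ∨ (T G K u = T G K (par G K B u) ∧
        root G K B (par G K B u) = root G K B u ∧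
        (tg G K).dist (root G K B u) (par G K B u) < (tg G K).dist (root G K B u) u)) := by
    intro u hu hu' hu''
    by_cases hr : u = root G K B u
    · have hm := hu'' hr
      have he : Entry G K u := by
        have h1 := root_entry G K B hm (by rw [← hr]; exact hu)
        rwa [← hr] at h1
      have h2 := par_root G K B hr he
      refine ⟨h2.1, h2.2.1, ?_, h2.2.2.1, Or.inl h2.2.2⟩
      rintro ⟨b, hb, h⟩
      refine Finset.disjoint_left.1 (hLP b hb) h (Finset.mem_image.2 ⟨u, ?_, rfl⟩)
      rw [hR, Finset.mem_filter]
      exact ⟨hu', hu, hr, hm⟩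
    · obtain ⟨h1, h2⟩ := par_spec G K B hr
      refine ⟨h1.2.2.1, h1.1, fun h => ?_, h1.2.2.2.le, Or.inr ⟨h1.2.2.2, ?_, h2⟩⟩
      · have h3 := hleafT _ h
        rw [← h1.2.2.2] at h3
        have := (mem_low.1 hu').2
        omega
      · exact (root_eq G K B h1.reachable).symm
  -- non-leaves contain their types
  have hNL : ∀ y, y ∉ K → ¬ Leaf y → ∀ z ∈ X y, T G K y ⊆ T G K z := by
    intro y hy hyl z hz
    by_cases hyB : y ∈ B
    · rw [hXB y hyB, Finset.mem_insert] at hz
      rcases hz with rfl | hz
      · exact (mem_Cand.1 (hc y hyB)).2.2.2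
      · exact (mem_Cand.1 (hL y hyB hz)).2.2.2
    · by_cases h : y ∈ low G K k ∧ (y = root G K B y → Mixed G K y)
      · rw [hXP y hyB h.1 h.2, Finset.mem_singleton] at hz
        rw [hz]
        exact (hpar y hyB h.1 h.2).2.2.2.1
      · rw [hX0 y hyB hyl h] at hz
        exact absurd hz (Finset.notMem_empty _)
  -- the secondary rank
  set sec : V → ℕ := fun u => if Leaf u then idx u + 1
    else if u ∈ low G K k then (tg G K).dist (root G K B u) u else 0 with hsec
  set N : ℕ := univ.sup sec + 1 with hN
  have hsecN : ∀ u, sec u < N := fun u => Nat.lt_succ_of_le (Finset.le_sup (Finset.mem_univ u))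
  have hTk : ∀ u, (T G K u).card ≤ k + 1 := fun u => by
    rw [← hKk]
    exact Finset.card_le_card (T_subset G K u)
  set r' : V → ℕ := fun u => (k + 1 - (T G K u).card) * N + sec u with hr'
  have hrank : ∀ u y, (T G K u).card < (T G K y).card → r' y < r' u := by
    intro u y h
    have h1 := hTk y
    have h2 : (k + 1 - (T G K y).card) + 1 ≤ k + 1 - (T G K u).card := by omega
    have h3 := Nat.mul_le_mul_right N h2
    have h4 := hsecN y
    simp only [hr']
    nlinarith
  obtain ⟨H, hHG, hH, hcard⟩ := exists_chordal_att G K hK X r' (by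
      intro u hu y hy
      by_cases huB : u ∈ B
      · rw [hXB u huB, Finset.mem_insert] at hy
        rcases hy with rfl | hy
        · have := mem_Cand.1 (hc u huB)
          exact ⟨this.1, this.2.1⟩
        · have := mem_Cand.1 (hL u huB hy)
          exact ⟨this.1, this.2.1⟩
      · by_cases hul : Leaf u
        · obtain ⟨b, hb, hub⟩ := hul
          rw [hXL b hb u hub, Finset.mem_insert, Finset.mem_filter] at hy
          rcases hy with rfl | hy
          · exact ⟨(mem_Cand.1 (hc b hb)).1, (hcL b hb u hub).symm⟩
          · refine ⟨(mem_Cand.1 (hL b hb hy.1)).1, hL2 b hb u hub y hy.1 ?_⟩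
            rintro rfl
            omega
        · by_cases h : u ∈ low G K k ∧ (u = root G K B u → Mixed G K u)
          · rw [hXP u huB h.1 h.2, Finset.mem_singleton] at hy
            rw [hy]
            have := hpar u huB h.1 h.2
            exact ⟨this.1, this.2.1⟩
          · rw [hX0 u huB hul h] at hy
            exact absurd hy (Finset.notMem_empty _)) (by
      intro u hu y hy
      by_cases huB : u ∈ B
      · apply hrank
        rw [hXB u huB, Finset.mem_insert] at hy
        have h1 := hBT u huB
        rcases hy with rfl | hy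
        · have := (mem_Cand.1 (hc u huB)).2.2.1
          omega
        · have := (mem_Cand.1 (hL u huB hy)).2.2.1
          omega
      · by_cases hul : Leaf u
        · have hul' := hul
          obtain ⟨b, hb, hub⟩ := hul
          have h1 := hleafT u hul'
          rw [hXL b hb u hub, Finset.mem_insert, Finset.mem_filter] at hy
          rcases hy with rfl | hy
          · have h2 := (mem_Cand.1 (hc b hb)).2.2.1
            have h3 : c b ∉ low G K k := fun h => by
              have := (mem_low.1 h).2
              omega
            simp only [hr', h1, h2, hsec, if_pos hul', if_neg (hcleaf b hb), if_neg h3]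
            omega
          · have h2 := (mem_Cand.1 (hL b hb hy.1)).2.2.1
            have h3 : Leaf y := ⟨b, hb, hy.1⟩
            simp only [hr', h1, h2, hsec, if_pos hul', if_pos h3]
            omega
        · by_cases h : u ∈ low G K k ∧ (u = root G K B u → Mixed G K u)
          · rw [hXP u huB h.1 h.2, Finset.mem_singleton] at hy
            rw [hy]
            have h1 := hpar u huB h.1 h.2
            rcases h1.2.2.2.2 with h2 | ⟨h2, h3, h4⟩
            · exact hrank _ _ (Finset.card_lt_card h2)
            · have h5 : par G K B u ∈ low G K k := by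
                rw [mem_low, ← h2]
                exact ⟨h1.1, (mem_low.1 h.1).2⟩
              simp only [hr', ← h2, hsec, if_neg hul, if_neg h1.2.2.1, if_pos h.1, if_pos h5, h3]
              omega
          · rw [hX0 u huB hul h] at hy
            exact absurd hy (Finset.notMem_empty _)) (by
      intro u hu y hy s hs hs' z hz
      by_cases huB : u ∈ B
      · rw [hXB u huB, Finset.mem_insert] at hy
        rcases hy with rfl | hy
        · rw [hX0' (c u) (hcleaf u huB) (mem_Cand.1 (hc u huB)).2.2.1] at hz
          exact absurd hz (Finset.notMem_empty _)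
        · rw [hXL u huB y hy, Finset.mem_insert, Finset.mem_filter] at hz
          rcases hz with rfl | hz
          · exact (mem_Cand.1 (hc u huB)).2.2.2 hs
          · exact (mem_Cand.1 (hL u huB hz.1)).2.2.2 hs
      · by_cases hul : Leaf u
        · obtain ⟨b, hb, hub⟩ := hul
          rw [hXL b hb u hub] at hy hs'
          rw [Finset.mem_insert, Finset.mem_filter] at hy
          rcases hy with rfl | hy
          · rw [hX0' (c b) (hcleaf b hb) (mem_Cand.1 (hc b hb)).2.2.1] at hz
            exact absurd hz (Finset.notMem_empty _)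
          · rw [hXL b hb y hy.1, Finset.mem_insert, Finset.mem_filter] at hz
            rcases hz with rfl | hz
            · exact hs' _ (Finset.mem_insert_self _ _)
            · refine hs' z (Finset.mem_insert_of_mem (Finset.mem_filter.2 ⟨hz.1, ?_⟩))
              omega
        · by_cases h : u ∈ low G K k ∧ (u = root G K B u → Mixed G K u)
          · rw [hXP u huB h.1 h.2, Finset.mem_singleton] at hy
            rw [hy] at hz
            have h1 := hpar u huB h.1 h.2
            exact hNL _ h1.1 h1.2.2.1 z hz (h1.2.2.2.1 hs)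
          · rw [hX0 u huB hul h] at hy
            exact absurd hy (Finset.notMem_empty _)) (by
      intro u hu y hy z hz hyz
      have hcase : ∀ b ∈ B, ∀ y ∈ insert (c b) (L b), ∀ z ∈ insert (c b) (L b), y ≠ z →
          y ∈ X z ∨ z ∈ X y := by
        intro b hb y hy z hz hyz
        rw [Finset.mem_insert] at hy hz
        rcases hy with rfl | hy
        · rcases hz with rfl | hz
          · exact absurd rfl hyz
          · left
            rw [hXL b hb z hz]
            exact Finset.mem_insert_self _ _
        · rcases hz with rfl | hz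
          · right
            rw [hXL b hb y hy]
            exact Finset.mem_insert_self _ _
          · rw [hXL b hb y hy, hXL b hb z hz]
            rcases lt_trichotomy (idx y) (idx z) with h | h | h
            · exact Or.inl (Finset.mem_insert_of_mem (Finset.mem_filter.2 ⟨hy, h⟩))
            · exact absurd (idx_inj h) hyz
            · exact Or.inr (Finset.mem_insert_of_mem (Finset.mem_filter.2 ⟨hz, h⟩))
      by_cases huB : u ∈ B
      · rw [hXB u huB] at hy hz
        exact hcase u huB y hy z hz hyz
      · by_cases hul : Leaf u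
        · obtain ⟨b, hb, hub⟩ := hul
          rw [hXL b hb u hub] at hy hz
          exact hcase b hb y (Finset.insert_subset_insert _ (Finset.filter_subset _ _) hy) z
            (Finset.insert_subset_insert _ (Finset.filter_subset _ _) hz) hyz
        · by_cases h : u ∈ low G K k ∧ (u = root G K B u → Mixed G K u)
          · rw [hXP u huB h.1 h.2, Finset.mem_singleton] at hy hz
            exact absurd (hy.trans hz.symm) hyz
          · rw [hX0 u huB hul h] at hy
            exact absurd hy (Finset.notMem_empty _))
  refine ⟨H, hHG, hH, fun ρ hρ => ?_⟩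
  rw [hcard, hKk]
  -- the gains
  set ext : V → ℕ := fun u => if u ∈ B then (L u).card + 1
    else if u ∈ low G K k ∧ (u = root G K B u → Mixed G K u) then 1 else 0 with hext
  have hfilt : ∀ u, u ∉ K → ¬ Leaf u →
      (T G K u).filter (fun s => ∀ y ∈ X u, s ∈ T G K y) = T G K u := by
    intro u hu hul
    refine Finset.filter_true_of_mem fun s hs y hy => hNL u hu hul y hy hs
  have hgain : ∀ u ∈ univ \ K, (T G K u).card + ext u ≤
      ((T G K u).filter (fun s => ∀ y ∈ X u, s ∈ T G K y)).card + (X u).card := by
    intro u hu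
    have huK : u ∉ K := (Finset.mem_sdiff.1 hu).2
    by_cases hul : Leaf u
    · have h1 : ext u = 0 := by
        have h2 : u ∉ low G K k := fun h => by
          have := (mem_low.1 h).2
          have := hleafT u hul
          omega
        simp only [hext, if_neg (hleafB u hul)]
        rw [if_neg (fun h => h2 h.1)]
      rw [h1, add_zero, hleafT u hul]
      have h3 : ∀ y ∈ X u, (K \ T G K y).card = 1 := by
        intro y hy
        obtain ⟨b, hb, hub⟩ := hul
        rw [Finset.card_sdiff_of_subset (T_subset G K y), hKk]
        rw [hXL b hb u hub, Finset.mem_insert, Finset.mem_filter] at hy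
        rcases hy with rfl | hy
        · rw [(mem_Cand.1 (hc b hb)).2.2.1]
          omega
        · rw [(mem_Cand.1 (hL b hb hy.1)).2.2.1]
          omega
      have h4 : K \ (T G K u).filter (fun s => ∀ y ∈ X u, s ∈ T G K y) ⊆
          (K \ T G K u) ∪ (X u).biUnion (fun y => K \ T G K y) := by
        intro s hs
        rw [Finset.mem_sdiff, Finset.mem_filter] at hs
        rw [Finset.mem_union, Finset.mem_sdiff, Finset.mem_biUnion]
        by_cases hsT : s ∈ T G K u
        · right
          have h5 : ¬ ∀ y ∈ X u, s ∈ T G K y := fun h => hs.2 ⟨hsT, h⟩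
          push Not at h5
          obtain ⟨y, hy, hsy⟩ := h5
          exact ⟨y, hy, Finset.mem_sdiff.2 ⟨hs.1, hsy⟩⟩
        · exact Or.inl ⟨hs.1, hsT⟩
      have h5 := (Finset.card_le_card h4).trans (Finset.card_union_le _ _)
      have h6 : ((X u).biUnion (fun y => K \ T G K y)).card ≤ (X u).card := by
        refine Finset.card_biUnion_le.trans ?_
        rw [Finset.sum_congr rfl h3]
        simp
      rw [Finset.card_sdiff_of_subset ((Finset.filter_subset _ _).trans (T_subset G K u)),
        Finset.card_sdiff_of_subset (T_subset G K u), hKk, hleafT u hul] at h5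
      omega
    · rw [hfilt u huK hul]
      by_cases huB : u ∈ B
      · have h1 : ext u = (L u).card + 1 := by simp only [hext, if_pos huB]
        rw [h1, hXB u huB, Finset.card_insert_of_notMem (hcL' u huB u huB)]
      · by_cases h : u ∈ low G K k ∧ (u = root G K B u → Mixed G K u)
        · have h1 : ext u = 1 := by simp only [hext, if_neg huB, if_pos h]
          rw [h1, hXP u huB h.1 h.2, Finset.card_singleton]
        · have h1 : ext u = 0 := by simp only [hext, if_neg huB, if_neg h]
          rw [h1]
          omega
  have hsum1 := Finset.sum_le_sum hgain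
  rw [Finset.sum_add_distrib] at hsum1
  -- the sum of the gains
  set E := (low G K k).filter (fun u => ¬ Mixed G K u) with hE
  have hsum2 : ∑ u ∈ B, ((L u).card + 1) +
      ((low G K k).filter (fun u => Mixed G K u ∧ u ∉ B)).card +
      (E.filter (fun u => u ≠ root G K B u)).card ≤ ∑ u ∈ univ \ K, ext u := by
    have h1 : ∑ u ∈ B, ((L u).card + 1) = ∑ u ∈ B, ext u :=
      Finset.sum_congr rfl fun u hu => by simp only [hext, if_pos hu]
    have h2 : ((low G K k).filter (fun u => Mixed G K u ∧ u ∉ B)).card =
        ∑ u ∈ (low G K k).filter (fun u => Mixed G K u ∧ u ∉ B), ext u := by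
      rw [Finset.card_eq_sum_ones]
      refine Finset.sum_congr rfl fun u hu => ?_
      rw [Finset.mem_filter] at hu
      simp only [hext, if_neg hu.2.2]
      rw [if_pos ⟨hu.1, fun _ => hu.2.1⟩]
    have h3 : (E.filter (fun u => u ≠ root G K B u)).card =
        ∑ u ∈ E.filter (fun u => u ≠ root G K B u), ext u := by
      rw [Finset.card_eq_sum_ones]
      refine Finset.sum_congr rfl fun u hu => ?_
      rw [Finset.mem_filter, hE, Finset.mem_filter] at hu
      have h4 : u ∉ B := fun h => hu.1.2 (hB u h).2
      simp only [hext, if_neg h4]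
      rw [if_pos ⟨hu.1.1, fun h => absurd h hu.2⟩]
    rw [h1, h2, h3, ← Finset.sum_union, ← Finset.sum_union]
    · refine Finset.sum_le_sum_of_subset ?_
      intro u hu
      rw [Finset.mem_union, Finset.mem_union, Finset.mem_filter, Finset.mem_filter, hE,
        Finset.mem_filter] at hu
      rw [Finset.mem_sdiff]
      refine ⟨Finset.mem_univ _, ?_⟩
      rcases hu with (hu | hu) | hu
      · exact hBK u hu
      · exact (mem_low.1 hu.1).1
      · exact (mem_low.1 hu.1.1).1
    · rw [Finset.disjoint_left]
      intro u hu hu'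
      rw [Finset.mem_filter, hE, Finset.mem_filter] at hu'
      rw [Finset.mem_union, Finset.mem_filter] at hu
      rcases hu with hu | hu
      · exact hu'.1.2 (hB u hu).2
      · exact hu'.1.2 hu.2.1
    · rw [Finset.disjoint_left]
      intro u hu hu'
      rw [Finset.mem_filter] at hu'
      exact hu'.2.2 hu
  -- exact components
  have hEroot : ∀ u ∈ E, root G K B u ∈ E.filter (fun u => u = root G K B u) := by
    intro u hu
    rw [hE, Finset.mem_filter, mem_low] at hu
    have h1 := reachable_root G K B u
    rw [Finset.mem_filter, hE, Finset.mem_filter, mem_low]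
    refine ⟨⟨⟨notMem_of_reachable h1.symm hu.1.1, ?_⟩, ?_⟩, ?_⟩
    · rw [T_eq_of_reachable h1]
      exact hu.1.2
    · rintro ⟨u', h2, h3⟩
      exact hu.2 ⟨u', h1.symm.trans h2, h3⟩
    · exact (root_eq G K B h1).symm
  have hfib : ∀ r ∈ E.filter (fun u => u = root G K B u),
      E.filter (fun u => root G K B u = r) = comp G K r := by
    intro r hr
    rw [Finset.mem_filter] at hr
    have hrE := hr.1
    rw [hE, Finset.mem_filter, mem_low] at hrE
    ext u
    rw [mem_comp, Finset.mem_filter (s := E)]
    constructor
    · rintro ⟨hu, hur⟩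
      rw [← hur]
      exact reachable_root G K B u
    · intro hu
      refine ⟨?_, ?_⟩
      · rw [hE, Finset.mem_filter, mem_low]
        refine ⟨⟨notMem_of_reachable hu hrE.1.1, ?_⟩, ?_⟩
        · rw [← T_eq_of_reachable hu]
          exact hrE.1.2
        · rintro ⟨u', h2, h3⟩
          exact hrE.2 ⟨u', hu.trans h2, h3⟩
      · rw [← root_eq G K B hu]
        exact hr.2.symm
  have hρE : ∑ u ∈ E, ρ u ≤ ((E.filter (fun u => u ≠ root G K B u)).card : ℚ) := by
    rw [← Finset.sum_fiberwise_of_maps_to hEroot]
    have h1 : ∀ r ∈ E.filter (fun u => u = root G K B u),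
        ∑ u ∈ E.filter (fun u => root G K B u = r), ρ u ≤
        ((E.filter (fun u => root G K B u = r)).card : ℚ) - 1 := by
      intro r hr
      rw [hfib r hr]
      rw [Finset.mem_filter] at hr
      have hrE := hr.1
      rw [hE, Finset.mem_filter] at hrE
      exact hρ r hrE.1 hrE.2
    refine (Finset.sum_le_sum h1).trans ?_
    rw [Finset.sum_sub_distrib, ← Nat.cast_sum, ← Finset.card_eq_sum_card_fiberwise hEroot]
    have h2 := Finset.card_filter_add_card_filter_not (s := E) (fun u => u = root G K B u)
    rw [Finset.sum_const, nsmul_eq_mul, mul_one, ← h2]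
    push_cast
    simp
  have hQ : ((∑ u ∈ univ \ K, (T G K u).card : ℕ) : ℚ) + ((∑ u ∈ B, ((L u).card + 1) +
      ((low G K k).filter (fun u => Mixed G K u ∧ u ∉ B)).card +
      (E.filter (fun u => u ≠ root G K B u)).card : ℕ) : ℚ) ≤
      ((∑ u ∈ univ \ K, (((T G K u).filter (fun s => ∀ y ∈ X u, s ∈ T G K y)).card +
        (X u).card) : ℕ) : ℚ) := by
    exact_mod_cast (Nat.add_le_add_left hsum2 _).trans hsum1
  push_cast at hQ ⊢
  linarith

end

end Pool.Agent.Chordal
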