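import Pool.Agent.Chordal.Bounds
import Pool.Agent.Chordal.Forest

/-!
# Components without entry vertices
-/

open Finset

namespace Pool.Agent.Chordal

namespace Setup

variable {V : Type} [Fintype V] [DecidableEq V] {G : SimpleGraph V} [DecidableRel G.Adj] {k : ℕ}

variable (S : Setup G k)

theorem T_eq (u : V) : Chordal.T G S.K u = S.Kn u := by
  ext z
  rw [mem_T]
  simp [Kn]

theorem T_subset_iff (u z : V) : Chordal.T G S.K u ⊆ Chordal.T G S.K z ↔ S.M z ⊆ S.M u := by
  rw [T_eq, T_eq, Kn_subset_iff]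

theorem T_eq_iff (u z : V) : Chordal.T G S.K u = Chordal.T G S.K z ↔ S.M u = S.M z := by
  rw [T_eq, T_eq, Kn_eq_iff]

theorem T_ssubset_iff (u z : V) : Chordal.T G S.K u ⊂ Chordal.T G S.K z ↔ S.M z ⊂ S.M u := by
  rw [T_eq, T_eq, Kn_ssubset_iff]

theorem card_T (u : V) : (Chordal.T G S.K u).card + (S.M u).card = k + 1 := by
  rw [T_eq, card_Kn']

theorem mem_low_iff {u : V} : u ∈ low G S.K k ↔ u ∈ S.W := by
  rw [mem_low, mem_W]
  have h1 := S.card_T u
  constructor
  · rintro ⟨_, h⟩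
    omega
  · intro h
    exact ⟨S.not_mem_K_of_mem_W (S.mem_W.2 h), by omega⟩

theorem low_eq : low G S.K k = S.W := by
  ext u
  exact S.mem_low_iff

theorem mem_Cand_iff {u z : V} (hu : u ∈ S.W) : z ∈ Cand G S.K k u ↔
    z ∈ S.N u ∧ (S.M z).card = 1 := by
  rw [mem_Cand, mem_N, T_subset_iff]
  have h1 := S.card_T z
  constructor
  · rintro ⟨_, h2, h3, h4⟩
    exact ⟨⟨h2, h4⟩, by omega⟩
  · rintro ⟨⟨h2, h4⟩, h3⟩
    exact ⟨S.not_mem_K_of_mem_N (S.mem_N.2 ⟨h2, h4⟩), h2, by omega, h4⟩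

theorem tg_adj_iff {u z : V} (hu : u ∈ S.W) : (tg G S.K).Adj u z ↔ S.T.Adj u z := by
  show (G.Adj u z ∧ u ∉ S.K ∧ z ∉ S.K ∧ Chordal.T G S.K u = Chordal.T G S.K z) ↔
    (G.Adj u z ∧ S.M u = S.M z)
  rw [T_eq_iff]
  constructor
  · rintro ⟨h1, _, _, h2⟩
    exact ⟨h1, h2⟩
  · rintro ⟨h1, h2⟩
    refine ⟨h1, S.not_mem_K_of_mem_W hu, S.not_mem_K_of_mem_W ?_, h2⟩
    rw [mem_W, ← h2]
    exact S.mem_W.1 hu

theorem reachable_iff {u z : V} (hu : u ∈ S.W) : (tg G S.K).Reachable u z ↔ S.T.Reachable u z := by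
  constructor
  · rintro ⟨p⟩
    induction p with
    | nil => exact SimpleGraph.Reachable.refl _
    | @cons a b c h _ ih =>
      have h1 := (S.tg_adj_iff hu).1 h
      have hb : b ∈ S.W := by
        rw [mem_W, ← h1.2]
        exact S.mem_W.1 hu
      exact (SimpleGraph.Adj.reachable h1).trans (ih hb)
  · rintro ⟨p⟩
    induction p with
    | nil => exact SimpleGraph.Reachable.refl _
    | @cons a b c h _ ih =>
      have h1 := (S.tg_adj_iff hu).2 h
      have hb : b ∈ S.W := by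
        rw [mem_W, ← h.2]
        exact S.mem_W.1 hu
      exact (SimpleGraph.Adj.reachable h1).trans (ih hb)

theorem entry_iff {u : V} : Entry G S.K u ↔ ∃ z, z ∉ S.K ∧ G.Adj u z ∧ S.M z ⊂ S.M u := by
  unfold Entry
  simp only [T_ssubset_iff]

theorem mixed_iff {u : V} (hu : u ∈ S.W) : Chordal.Mixed G S.K u ↔ S.Mixed u := by
  unfold Chordal.Mixed Mixed
  simp only [S.reachable_iff hu, entry_iff]

theorem mem_comp_M {u z : V} (hz : z ∈ comp G S.K u) : S.M u = S.M z := by
  rw [← T_eq_iff]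
  exact T_eq_of_reachable (mem_comp.1 hz)

/-- in a component without entry vertices all neighbours in `N u` are in the component -/
theorem N_subset_comp {u z : V} (hu : u ∈ S.W) (hm : ¬ Chordal.Mixed G S.K u)
    (hz : z ∈ comp G S.K u) : S.N z ⊆ (comp G S.K u).erase z := by
  intro y hy
  have hyK := S.not_mem_K_of_mem_N hy
  rw [mem_N] at hy
  have hMz := S.mem_comp_M hz
  have hzW : z ∈ S.W := by
    rw [mem_W, ← hMz]
    exact S.mem_W.1 hu
  rw [mem_erase]
  refine ⟨?_, ?_⟩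
  · rintro rfl
    exact G.loopless.irrefl _ hy.1
  · rcases eq_or_ne (S.M y) (S.M z) with h | h
    · rw [mem_comp]
      refine (mem_comp.1 hz).trans (SimpleGraph.Adj.reachable ?_)
      rw [S.tg_adj_iff hzW]
      exact ⟨hy.1, h.symm⟩
    · exfalso
      apply hm
      refine ⟨z, mem_comp.1 hz, ?_⟩
      rw [entry_iff]
      exact ⟨y, hyK, hy.1, hy.2.ssubset_of_ne h⟩

/-- **the exact components** -/
theorem exact_comp (hw : 0 ≤ S.w) {u : V} (hu : u ∈ S.W) (hm : ¬ Chordal.Mixed G S.K u) :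
    ∑ v ∈ comp G S.K u, S.R v ≤ 2 * S.s * (((comp G S.K u).card : ℤ) - 1) := by
  set D := comp G S.K u with hD
  have huD : u ∈ D := mem_comp.2 (SimpleGraph.Reachable.refl _)
  have hDW : ∀ v ∈ D, v ∈ S.W := fun v hv => by
    rw [mem_W, ← S.mem_comp_M hv]
    exact S.mem_W.1 hu
  have hx : ∀ v ∈ D, S.x v = S.x u := fun v hv => by
    unfold x
    rw [S.mem_comp_M hv]
  have hs := S.one_le_s
  have hxu : 1 ≤ S.x u := by
    have := S.mem_W.1 hu
    unfold x
    omega
  -- the bound by the size of the component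
  have hN : ∀ v ∈ D, S.R v ≤ ((D.card : ℤ) - 1) - (S.x u - 1) * S.w := by
    intro v hv
    have h1 := S.R_le_N (hDW v hv)
    rw [hx v hv] at h1
    have h2 := card_le_card (S.N_subset_comp hu hm hv)
    rw [card_erase_of_mem hv] at h2
    have h3 : 0 < D.card := card_pos.2 ⟨u, huD⟩
    have h4 : ((S.N v).card : ℤ) ≤ (D.card : ℤ) - 1 := by
      omega
    linarith
  -- the size
  have hA : (D.card : ℤ) + 1 ≤ S.w + S.s := by
    obtain ⟨i, hi⟩ : (S.M u).Nonempty := card_pos.1 (by have := S.mem_W.1 hu; omega)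
    have h1 : S.v i ∉ D := fun h => by
      have := S.not_mem_K_of_mem_W (hDW _ h)
      exact this (S.mem_K.2 ⟨i, rfl⟩)
    have h2 := S.card_le_A i (insert (S.v i) D) (fun z hz => by
      rw [mem_insert] at hz
      rcases hz with rfl | hz
      · rw [M_v]
        exact mem_singleton_self i
      · rw [← S.mem_comp_M hz]
        exact hi)
    rw [card_insert_of_notMem h1] at h2
    rw [← S.A_eq]
    push_cast at h2
    exact h2
  have hD1 : 1 ≤ (D.card : ℤ) := by
    have h3 : 0 < D.card := card_pos.2 ⟨u, huD⟩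
    omega
  rcases eq_or_lt_of_le hD1 with h1 | h1
  · -- singletons
    have h2 : ∑ v ∈ D, S.R v ≤ ∑ v ∈ D, (((D.card : ℤ) - 1) - (S.x u - 1) * S.w) := sum_le_sum hN
    rw [sum_const, nsmul_eq_mul, ← h1] at h2
    rw [← h1]
    nlinarith [mul_nonneg (by linarith : (0 : ℤ) ≤ S.x u - 1) hw]
  · rcases eq_or_lt_of_le hxu with h2 | h2
    · -- `x = 1`
      have h3 : ∑ v ∈ D, S.R v ≤ ∑ v ∈ D, S.s := sum_le_sum fun v hv => by
        have := S.R_le_x (hDW v hv)
        rw [hx v hv, ← h2] at this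
        linarith
      rw [sum_const, nsmul_eq_mul] at h3
      nlinarith
    · have h3 : ∑ v ∈ D, S.R v ≤ ∑ v ∈ D, (((D.card : ℤ) - 1) - S.w) := sum_le_sum fun v hv => by
        have := hN v hv
        nlinarith [mul_nonneg (by linarith : (0 : ℤ) ≤ S.x u - 2) hw]
      rw [sum_const, nsmul_eq_mul] at h3
      refine h3.trans ?_
      rcases le_or_gt ((D.card : ℤ) - 1 - S.w) 0 with h4 | h4
      · nlinarith
      · nlinarith

end Setup

end Pool.Agent.Chordal
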