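import Pool.Agent.Chordal.CombineCore
import Pool.Agent.Chordal.Exact

/-!
# The main construction
-/

open Finset

namespace Pool.Agent.Chordal

open scoped Classical in
/-- `attach` with an arbitrary decidability instance -/
theorem attach' {V : Type*} [Fintype V] [inst : DecidableEq V] (G : SimpleGraph V) (K : Finset V)
    (hK : G.IsClique K) {k : ℕ}
    (hKk : K.card = k + 1) (B : Finset V) (hB : ∀ u ∈ B, u ∈ low G K k ∧ Mixed G K u) :
    ∃ Par : Finset V, Par.card ≤ (low G K k \ B).card ∧ ∀ (c : V → V) (L : V → Finset V),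
      (∀ u ∈ B, c u ∈ Cand G K k u) → (∀ u ∈ B, L u ⊆ Cand G K k u) →
      (∀ u ∈ B, ∀ y ∈ L u, ∀ z ∈ L u, y ≠ z → G.Adj y z) →
      (∀ u ∈ B, ∀ y ∈ L u, G.Adj (c u) y) →
      (∀ u ∈ B, Disjoint (L u) Par) →
      (∀ u ∈ B, ∀ u' ∈ B, u ≠ u' → Disjoint (L u) (L u')) →
      (∀ u ∈ B, ∀ u' ∈ B, c u ∉ L u') →
      ∃ H ≤ G, IsChordal H ∧ ∀ ρ : V → ℚ,
        (∀ u ∈ low G K k, ¬ Mixed G K u → ∑ v ∈ comp G K u, ρ v ≤ (comp G K u).card - 1) →
        ((k + 1).choose 2 : ℚ) + ∑ u ∈ univ \ K, ((T G K u).card : ℚ) +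
          ∑ u ∈ B, (((L u).card : ℚ) + 1) +
          (((low G K k).filter (fun u => Mixed G K u) \ B).card : ℚ) +
          ∑ u ∈ (low G K k).filter (fun u => ¬ Mixed G K u), ρ u ≤ (H.edgeSet.ncard : ℚ) := by
  obtain rfl : inst = (fun a b => Classical.propDecidable (a = b)) := Subsingleton.elim _ _
  obtain ⟨Par, h1, h2⟩ := attach G K hK hKk B hB
  refine ⟨Par, h1, fun c L a1 a2 a3 a4 a5 a6 a7 => ?_⟩
  obtain ⟨H, h3, h4, h5⟩ := h2 c L a1 a2 a3 a4 a5 a6 a7
  refine ⟨H, h3, h4, fun ρ hρ => ?_⟩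
  have h6 := h5 ρ hρ
  have h7 : (low G K k).filter (fun u => Mixed G K u) \ B =
      (low G K k).filter (fun u => Mixed G K u ∧ u ∉ B) := by
    ext u
    simp only [mem_sdiff, mem_filter, and_assoc]
  rw [h7]
  exact h6

namespace Setup

variable {V : Type} [Fintype V] [DecidableEq V] {G : SimpleGraph V} [DecidableRel G.Adj] {k : ℕ}

variable (S : Setup G k)

open scoped Classical in
theorem attachGoal (hw : 0 ≤ S.w) (B : Finset V) (hB : ∀ u ∈ B, u ∈ S.W ∧ S.Mixed u) :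
    S.AttachGoal B := by
  have hK : G.IsClique (S.K : Set V) := fun y hy z hz hne => S.K_clique y hy z hz hne
  have hB' : ∀ u ∈ B, u ∈ low G S.K k ∧ Chordal.Mixed G S.K u := fun u hu =>
    ⟨S.mem_low_iff.2 (hB u hu).1, (S.mixed_iff (hB u hu).1).2 (hB u hu).2⟩
  have hBW : B ⊆ S.W := fun u hu => (hB u hu).1
  obtain ⟨Par, hPar, hatt⟩ := attach' G S.K hK S.card_K B hB'
  have hs := S.one_le_s
  refine ⟨Par, ?_, fun c L e he hSel => ?_⟩
  · rw [S.low_eq, card_sdiff_of_subset hBW] at hPar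
    have := card_le_card hBW
    omega
  have hCand : ∀ u ∈ B, ∀ z, z ∈ S.Cand u → z ∈ Chordal.Cand G S.K k u := by
    intro u hu z hz
    rw [S.mem_Cand_iff (hBW hu)]
    exact mem_filter.1 hz
  obtain ⟨H, hHG, hH, hρ⟩ := hatt c L (fun u hu => hCand u hu _ (hSel.cmem u hu))
    (fun u hu z hz => hCand u hu _ (hSel.sub u hu hz)) (fun u hu => hSel.clique u hu)
    (fun u hu => hSel.cadj u hu) (fun u hu => hSel.par u hu)
    (fun u hu u' hu' hne => hSel.disj u hu u' hu' hne)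
    (fun u hu u' hu' => hSel.cnot u hu u' hu')
  refine ⟨H, hHG, hH, ?_⟩
  have h2s : (0 : ℚ) < 2 * S.s := by
    have : (1 : ℚ) ≤ S.s := by exact_mod_cast hs
    linarith
  have h1 := hρ (fun u => (S.R u : ℚ) / (2 * S.s)) (by
    intro u hu hm
    have h2 := S.exact_comp hw (S.mem_low_iff.1 hu) hm
    have h3 : ((∑ v ∈ comp G S.K u, S.R v : ℤ) : ℚ) ≤
        ((2 * S.s * (((comp G S.K u).card : ℤ) - 1) : ℤ) : ℚ) := by exact_mod_cast h2
    rw [← sum_div, div_le_iff₀ h2s]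
    push_cast at h3
    linarith)
  have hlow := S.low_eq
  have hsumT : ∑ u ∈ univ \ S.K, ((Chordal.T G S.K u).card : ℚ) =
      k * ((Fintype.card V : ℚ) - k - 1) - S.w := by
    have h2 := S.sum_card_trc
    have h3 : ((∑ u ∈ univ \ S.K, (trc G S.K u).card : ℕ) : ℚ) =
        ((k * ((Fintype.card V : ℤ) - k - 1) - S.w : ℤ) : ℚ) := by exact_mod_cast h2
    push_cast at h3
    rw [← h3]
    refine sum_congr rfl fun u _ => ?_
    rw [T_eq, trc_eq_Kn]
  have hsumL : ∑ u ∈ B, (((L u).card : ℚ) + 1) = ∑ u ∈ B, (e u : ℚ) := by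
    refine sum_congr rfl fun u hu => ?_
    have h3 := hSel.card u hu
    have h4 := he u hu
    rw [h3]
    push_cast [Nat.cast_sub h4]
    ring
  have hmix : (low G S.K k).filter (fun u => Chordal.Mixed G S.K u) = S.W.filter S.Mixed := by
    ext u
    rw [hlow, mem_filter, mem_filter]
    constructor
    · rintro ⟨h3, h4⟩
      exact ⟨h3, (S.mixed_iff h3).1 h4⟩
    · rintro ⟨h3, h4⟩
      exact ⟨h3, (S.mixed_iff h3).2 h4⟩
  have hex : (low G S.K k).filter (fun u => ¬ Chordal.Mixed G S.K u) =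
      S.W.filter (fun u => ¬ S.Mixed u) := by
    ext u
    rw [hlow, mem_filter, mem_filter]
    constructor
    · rintro ⟨h3, h4⟩
      exact ⟨h3, fun h => h4 ((S.mixed_iff h3).2 h)⟩
    · rintro ⟨h3, h4⟩
      exact ⟨h3, fun h => h4 ((S.mixed_iff h3).1 h)⟩
  rw [hsumT, hsumL, hmix, hex, ← sum_div] at h1
  have h6 := two_choose (k := k)
  have h6' : (2 : ℚ) * ((k + 1).choose 2 : ℕ) = k * (k + 1) := by exact_mod_cast h6
  have h7 : ((∑ u ∈ S.W.filter (fun u => ¬ S.Mixed u), S.R u : ℤ) : ℚ)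
      + 2 * S.s * (∑ u ∈ B, (e u : ℚ) + (((S.W.filter S.Mixed) \ B).card : ℚ))
      ≤ 2 * S.s * ((H.edgeSet.ncard : ℚ) + ((k + 1).choose 2 : ℕ) + S.w - k * Fintype.card V) := by
    push_cast
    have h8 : (∑ u ∈ S.W.filter (fun u => ¬ S.Mixed u), (S.R u : ℚ)) =
        2 * S.s * ((∑ u ∈ S.W.filter (fun u => ¬ S.Mixed u), (S.R u : ℚ)) / (2 * S.s)) := by
      field_simp
    rw [h8, ← mul_add]
    refine mul_le_mul_of_nonneg_left ?_ h2s.le
    linarith
  exact_mod_cast h7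

/-- the main construction: `Σ ρ ≤ Σ ext` -/
theorem exists_H : ∃ H : SimpleGraph V, H ≤ G ∧ IsChordal H ∧
    ∑ u, S.R u ≤ 2 * S.s * ((H.edgeSet.ncard : ℤ) + (k + 1).choose 2 + S.w
      - k * Fintype.card V) := by
  classical
  by_cases hw : 0 ≤ S.w
  · exact S.exists_H_core fun B hB => S.attachGoal hw B hB
  · rcases S.Q.eq_empty_or_nonempty with h | ⟨z, hz⟩
    · exfalso
      have h1 := S.sum_W_x
      rw [h, card_empty, Nat.cast_zero, add_zero] at h1
      apply hw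
      rw [← h1]
      refine sum_nonneg fun u hu => ?_
      have := S.mem_W.1 hu
      unfold x
      omega
    · exact S.exists_H_of_hub z hz (by omega)

end Setup

end Pool.Agent.Chordal
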