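import Pool.Agent.Chordal.Bounds
import Pool.Agent.Chordal.Base

/-!
# The sum of the gains is at least the sum of the costs
-/

open Finset

namespace Pool.Agent.Chordal

namespace Setup

variable {V : Type} [Fintype V] [DecidableEq V] {G : SimpleGraph V} [DecidableRel G.Adj] {k : ℕ}

variable (S : Setup G k)

/-- The candidates of `u`: common neighbours of `u` and its trace which miss one vertex of `K`. -/
def Cand (u : V) : Finset V := (S.N u).filter fun z => (S.M z).card = 1

theorem trc_eq_Kn (u : V) : trc G S.K u = S.Kn u := by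
  ext z
  simp [mem_trc, Kn]

theorem x_K {u : V} (hu : u ∈ S.K) : S.x u = 0 := by
  obtain ⟨i, -, rfl⟩ := mem_image.1 hu
  simp [x, M_v]

theorem sum_card_trc : ((∑ u ∈ univ \ S.K, (trc G S.K u).card : ℕ) : ℤ)
    = k * ((Fintype.card V : ℤ) - k - 1) - S.w := by
  have h1 : ∑ u ∈ S.K, S.x u = 0 := sum_eq_zero fun u hu => S.x_K hu
  have h2 : ∑ u ∈ univ \ S.K, S.x u = S.w := by
    have := sum_sdiff (f := S.x) (subset_univ S.K)
    rw [h1, add_zero, S.sum_x] at this
    exact this
  have h3 : ((univ \ S.K).card : ℤ) = (Fintype.card V : ℤ) - k - 1 := by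
    rw [card_sdiff_of_subset (subset_univ _), card_univ, S.card_K, Nat.cast_sub]
    · push_cast; ring
    · rw [← S.card_K, ← card_univ]; exact card_le_card (subset_univ _)
  push_cast
  calc ∑ u ∈ univ \ S.K, ((trc G S.K u).card : ℤ) = ∑ u ∈ univ \ S.K, ((k : ℤ) - S.x u) := by
        refine sum_congr rfl fun u _ => ?_
        rw [trc_eq_Kn, card_Kn]
    _ = k * ((Fintype.card V : ℤ) - k - 1) - S.w := by
        rw [sum_sub_distrib, h2, sum_const, nsmul_eq_mul, h3, mul_comm]

theorem two_choose : (2 : ℤ) * ((k + 1).choose 2 : ℕ) = k * (k + 1) := by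
  have h := Nat.choose_two_right (k + 1)
  have h2 : 2 * ((k + 1).choose 2) = (k + 1) * k := by
    rw [h, Nat.add_sub_cancel]
    exact Nat.mul_div_cancel' (by
      have := Nat.even_mul_succ_self k
      rw [mul_comm]
      exact this.two_dvd)
  have h3 : (2 : ℤ) * ((k + 1).choose 2 : ℕ) = ((2 * ((k + 1).choose 2) : ℕ) : ℤ) := by
    push_cast; rfl
  rw [h3, h2]
  push_cast
  ring

/-- the number of neighbours of `z` outside `K` -/
def Dz (z : V) : ℕ := ((univ \ S.K).filter (G.Adj z)).card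

/-- Case A: a common neighbour of `K` with many neighbours. -/
theorem exists_H_of_hub (z : V) (hz : z ∈ S.Q) (hD : S.w ≤ 2 * S.Dz z) :
    ∃ H : SimpleGraph V, H ≤ G ∧ IsChordal H ∧
    ∑ u, S.R u ≤ 2 * S.s * ((H.edgeSet.ncard : ℤ) + (k + 1).choose 2 + S.w
      - k * Fintype.card V) := by
  have hzK : z ∉ S.K := by
    intro h
    obtain ⟨i, -, rfl⟩ := mem_image.1 h
    have := (mem_filter.1 hz).2
    rw [M_v] at this
    exact absurd this (singleton_ne_empty i)
  have hT : trc G S.K z = S.K := by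
    rw [trc_eq_Kn]
    refine eq_of_subset_of_card_le (filter_subset _ _) ?_
    have h1 := S.card_Kn' z
    have h2 := (mem_filter.1 hz).2
    rw [h2, card_empty, add_zero] at h1
    rw [h1, S.card_K]
  obtain ⟨H, h1, h2, h3⟩ := hub_chordal G S.K S.K_clique z hzK hT
  refine ⟨H, h1, h2, ?_⟩
  have h4 : ((H.edgeSet.ncard : ℤ) + (k + 1).choose 2 + S.w - k * Fintype.card V) = S.Dz z := by
    rw [h3, S.card_K]
    push_cast [Dz]
    have h5 := S.sum_card_trc
    push_cast at h5
    have h6 := two_choose (k := k)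
    linarith
  rw [h4]
  have h7 := S.sum_R_le
  have h8 := S.one_le_s
  nlinarith

/-- The ceiling of `R u / (2 s)`. -/
def ee (u : V) : ℕ := ((S.R u + 2 * S.s - 1) / (2 * S.s)).toNat

theorem ee_spec {u : V} (hu : 0 < S.R u) :
    2 * S.s * ((S.ee u : ℤ) - 1) < S.R u ∧ S.R u ≤ 2 * S.s * S.ee u := by
  have hs := S.one_le_s
  have h1 : 0 ≤ (S.R u + 2 * S.s - 1) / (2 * S.s) := Int.ediv_nonneg (by omega) (by omega)
  have h2 : ((S.ee u : ℕ) : ℤ) = (S.R u + 2 * S.s - 1) / (2 * S.s) := by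
    rw [ee, Int.toNat_of_nonneg h1]
  have h3 := Int.mul_ediv_add_emod (S.R u + 2 * S.s - 1) (2 * S.s)
  have h4 := Int.emod_nonneg (S.R u + 2 * S.s - 1) (by omega : 2 * S.s ≠ 0)
  have h5 := Int.emod_lt_of_pos (S.R u + 2 * S.s - 1) (by omega : 0 < 2 * S.s)
  rw [h2]
  constructor
  · have : 2 * S.s * ((S.R u + 2 * S.s - 1) / (2 * S.s) - 1)
        = 2 * S.s * ((S.R u + 2 * S.s - 1) / (2 * S.s)) - 2 * S.s := by ring
    omega
  · omega

theorem card_N_le' {u : V} (hu : u ∈ S.W) :
    ((S.N u).card : ℤ) ≤ (S.Cand u).card + ((S.W.card : ℤ) - 1) + S.Q.card := by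
  have h : S.N u ⊆ (S.Cand u ∪ S.W.erase u) ∪ S.Q := by
    intro z hz
    have hz' := hz
    rw [N, mem_filter] at hz'
    rw [mem_union, mem_union, mem_erase]
    rcases Nat.lt_or_ge (S.M z).card 2 with h | h
    · rcases Nat.lt_or_ge (S.M z).card 1 with h1 | h1
      · right
        rw [mem_Q]
        exact card_eq_zero.1 (by omega)
      · left; left
        rw [Cand, mem_filter]
        exact ⟨hz, by omega⟩
    · left; right
      exact ⟨fun h2 => G.loopless.irrefl u (h2 ▸ hz'.2.1), S.mem_W.2 h⟩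
  have h1 := card_le_card h
  have h2 := card_union_le (S.Cand u ∪ S.W.erase u) S.Q
  have h3 := card_union_le (S.Cand u) (S.W.erase u)
  have h4 := card_erase_add_one hu
  omega

theorem card_N_add {u : V} (hu : u ∈ S.W) :
    ((S.N u).card : ℤ) + k + 2 ≤ Fintype.card V := by
  have h : insert u (S.N u ∪ S.K) ⊆ univ := subset_univ _
  have h1 := card_le_card h
  have h2 : u ∉ S.N u ∪ S.K := by
    rw [mem_union, not_or]
    refine ⟨fun h => ?_, S.not_mem_K_of_mem_W hu⟩
    exact G.loopless.irrefl u (mem_filter.1 h).2.1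
  have h3 : Disjoint (S.N u) S.K := by
    rw [disjoint_left]
    intro z hz
    exact S.not_mem_K_of_mem_N hz
  rw [card_insert_of_notMem h2, card_union_of_disjoint h3, S.card_K, card_univ] at h1
  omega

theorem fn_Q {z : V} (hz : z ∈ S.Q) : fn G z = (Fintype.card V : ℤ) - k - 1 - S.Dz z := by
  have h1 : G.neighborFinset z = S.K ∪ (univ \ S.K).filter (G.Adj z) := by
    ext y
    simp only [SimpleGraph.mem_neighborFinset, mem_union, mem_filter, mem_sdiff, mem_univ, true_and]
    constructor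
    · intro h
      by_cases hy : y ∈ S.K
      · exact Or.inl hy
      · exact Or.inr ⟨hy, h⟩
    · rintro (h | h)
      · obtain ⟨i, -, rfl⟩ := mem_image.1 h
        have h2 := S.mem_Q.1 hz
        by_contra hc
        have h3 := S.mem_M.2 hc
        rw [h2] at h3
        exact absurd h3 (notMem_empty i)
      · exact h.2
  have h2 : Disjoint S.K ((univ \ S.K).filter (G.Adj z)) := by
    rw [disjoint_left]
    intro y hy hy2
    exact (mem_sdiff.1 (mem_filter.1 hy2).1).2 hy
  have h3 : G.degree z = (k + 1) + S.Dz z := by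
    rw [← SimpleGraph.card_neighborFinset_eq_degree, h1, card_union_of_disjoint h2, S.card_K]
    rfl
  rw [fn, h3]
  push_cast
  ring

theorem mem_B {u : V} : u ∈ S.B ↔ 4 ≤ (S.M u).card ∧ S.Mixed u ∧ 2 * S.s < S.R u := by
  classical
  simp [B]

/-- Splitting of the sum of the costs. -/
theorem sum_R_split (p : V → Prop) [DecidablePred p] : ∑ u, S.R u =
    ∑ u ∈ S.W.filter (fun u => ¬ p u), S.R u + ∑ u ∈ S.W.filter p, S.R u
      + ∑ u ∈ univ.filter (fun u => (S.M u).card = 1), S.R u + ∑ u ∈ S.Q, S.R u := by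
  have h1 : ∑ u, S.R u = ∑ u ∈ S.W, S.R u + ∑ u ∈ univ.filter (fun u => ¬ 2 ≤ (S.M u).card), S.R u := by
    rw [W, sum_filter_add_sum_filter_not]
  have h2 : ∑ u ∈ univ.filter (fun u => ¬ 2 ≤ (S.M u).card), S.R u
      = ∑ u ∈ univ.filter (fun u => (S.M u).card = 1), S.R u + ∑ u ∈ S.Q, S.R u := by
    rw [← sum_filter_add_sum_filter_not (univ.filter (fun u => ¬ 2 ≤ (S.M u).card))
      (fun u => (S.M u).card = 1)]
    congr 1
    · refine sum_congr ?_ fun _ _ => rfl
      ext u
      simp only [mem_filter, mem_univ, true_and]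
      omega
    · refine sum_congr ?_ fun _ _ => rfl
      ext u
      rw [mem_Q, ← card_eq_zero]
      simp only [mem_filter, mem_univ, true_and]
      omega
  rw [h1, h2, ← sum_filter_add_sum_filter_not S.W p]
  ring

theorem sum_one_le : ∑ u ∈ univ.filter (fun u => (S.M u).card = 1), S.R u ≤ - S.s * S.P.card := by
  rw [← sum_filter_add_sum_filter_not (univ.filter (fun u => (S.M u).card = 1))
    (fun u => S.A + S.s < fn G u)]
  have h1 : (univ.filter (fun u => (S.M u).card = 1)).filter (fun u => S.A + S.s < fn G u) = S.P := by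
    rw [filter_filter]; rfl
  rw [h1]
  have h2 : ∑ u ∈ S.P, S.R u ≤ ∑ u ∈ S.P, (- S.s) := sum_le_sum fun u hu => (S.R_P hu).le
  have h3 : ∑ u ∈ (univ.filter (fun u => (S.M u).card = 1)).filter (fun u => ¬ S.A + S.s < fn G u),
      S.R u ≤ 0 := sum_nonpos fun u hu => S.R_le_zero (mem_filter.1 (mem_filter.1 hu).1).2
  rw [sum_const, nsmul_eq_mul] at h2
  linarith

/-- The gain statement provided by the attachment construction. -/
def AttachGoal (B : Finset V) [DecidablePred S.Mixed] : Prop :=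
  ∃ Par : Finset V, Par.card + B.card ≤ S.W.card ∧
    ∀ (c : V → V) (L : V → Finset V) (e : V → ℕ), (∀ u ∈ B, 1 ≤ e u) →
      Sel G S.Cand (fun u => e u - 1) Par B c L →
      ∃ H : SimpleGraph V, H ≤ G ∧ IsChordal H ∧
        ∑ u ∈ S.W.filter (fun u => ¬ S.Mixed u), S.R u
          + 2 * S.s * (∑ u ∈ B, (e u : ℤ) + ((S.W.filter S.Mixed) \ B).card)
          ≤ 2 * S.s * ((H.edgeSet.ncard : ℤ) + (k + 1).choose 2 + S.w - k * Fintype.card V)

theorem exists_H_core [DecidablePred S.Mixed]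
    (hatt : ∀ B : Finset V, (∀ u ∈ B, u ∈ S.W ∧ S.Mixed u) → S.AttachGoal B) :
    ∃ H : SimpleGraph V, H ≤ G ∧ IsChordal H ∧
    ∑ u, S.R u ≤ 2 * S.s * ((H.edgeSet.ncard : ℤ) + (k + 1).choose 2 + S.w
      - k * Fintype.card V) := by
  by_cases hA : ∃ z ∈ S.Q, S.w ≤ 2 * S.Dz z
  · obtain ⟨z, hz, hD⟩ := hA
    exact S.exists_H_of_hub z hz hD
  push Not at hA
  have hs := S.one_le_s
  have hw : 0 ≤ S.w := by
    rcases S.Q.eq_empty_or_nonempty with h | ⟨z, hz⟩
    · have h1 := S.sum_W_x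
      rw [h, card_empty, Nat.cast_zero, add_zero] at h1
      rw [← h1]
      refine sum_nonneg fun u hu => ?_
      have := S.mem_W.1 hu
      unfold x
      omega
    · have := hA z hz
      omega
  -- membership in `B`
  have hBW : ∀ u ∈ S.B, u ∈ S.W ∧ S.Mixed u := fun u hu => by
    have h := S.mem_B.1 hu
    exact ⟨S.mem_W.2 (by omega), h.2.1⟩
  have hB4 : ∀ u ∈ S.B, 4 ≤ (S.M u).card := fun u hu => (S.mem_B.1 hu).1
  have hBR : ∀ u ∈ S.B, 2 * S.s < S.R u := fun u hu => (S.mem_B.1 hu).2.2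
  have hBx : ∀ u ∈ S.B, 3 ≤ S.x u := fun u hu => by
    have := hB4 u hu
    unfold x
    omega
  have hMxB : S.B ⊆ S.W.filter S.Mixed := fun u hu => mem_filter.2 (hBW u hu)
  have hMx : ∀ u ∈ (S.W.filter S.Mixed) \ S.B, S.R u ≤ 2 * S.s := by
    intro u hu
    rw [mem_sdiff, mem_filter] at hu
    rcases Nat.lt_or_ge (S.M u).card 4 with h | h
    · have h1 := S.R_le_x hu.1.1
      have h2 : S.x u ≤ 2 := by unfold x; omega
      nlinarith
    · by_contra hc
      push Not at hc
      refine hu.2 ?_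
      exact S.mem_B.2 ⟨h, hu.1.2, hc⟩
  have hMxsum : ∑ u ∈ (S.W.filter S.Mixed) \ S.B, S.R u
      ≤ 2 * S.s * ((S.W.filter S.Mixed) \ S.B).card := by
    have := sum_le_sum hMx
    rw [sum_const, nsmul_eq_mul] at this
    linarith
  have hsplit := S.sum_R_split S.Mixed
  have hsd : ∑ u ∈ S.W.filter S.Mixed, S.R u
      = ∑ u ∈ (S.W.filter S.Mixed) \ S.B, S.R u + ∑ u ∈ S.B, S.R u :=
    (sum_sdiff hMxB).symm
  have hone := S.sum_one_le
  have hQ0 : ∑ u ∈ S.Q, S.R u ≤ 0 := sum_nonpos fun u hu => by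
    have := S.R_Q_le hu
    omega
  have hcardMx : (((S.W.filter S.Mixed) \ S.B).card : ℤ) + S.B.card
      = ((S.W.filter S.Mixed).card : ℤ) := by
    rw [card_sdiff_of_subset hMxB, Nat.cast_sub (card_le_card hMxB)]
    ring
  -- case B2 or B1
  by_cases hcase : S.B.Nonempty ∧ (S.P.card : ℤ) + 2 * S.Q.card < ∑ u ∈ S.B, (S.x u - 2)
  · obtain ⟨hne, hlt⟩ := hcase
    obtain ⟨Par, hPar, hcl⟩ := hatt S.B hBW
    have hee : ∀ u ∈ S.B, 2 ≤ S.ee u := by
      intro u hu
      have h1 := hBR u hu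
      obtain ⟨h2, h3⟩ := S.ee_spec (u := u) (by omega)
      by_contra hc
      have h4 : (S.ee u : ℤ) ≤ 1 := by omega
      nlinarith
    have hBsubW : S.B ⊆ S.W := fun u hu => (hBW u hu).1
    have hWx : ∀ u ∈ S.W, 1 ≤ S.x u := fun u hu => by
      have := S.mem_W.1 hu
      unfold x
      omega
    obtain ⟨c, L, hSel⟩ := exists_selection G S.w S.s S.Q.card S.W.card S.x
      (fun u => (S.N u).card) S.ee S.B S.P Par S.Cand hs hw hBx hee
      (fun u hu => by
        have h1 := hBR u hu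
        obtain ⟨h2, -⟩ := S.ee_spec (u := u) (by omega)
        have h3 := S.R_le_x (hBsubW hu)
        have h4 : 2 * ((S.ee u : ℤ) - 1) * S.s < S.x u * S.s := by nlinarith
        have h5 : 2 * ((S.ee u : ℤ) - 1) < S.x u := lt_of_mul_lt_mul_right h4 (by omega)
        omega)
      (fun u hu => by
        have h1 := hBR u hu
        obtain ⟨h2, -⟩ := S.ee_spec (u := u) (by omega)
        have h3 := S.R_le_N (hBsubW hu)
        nlinarith)
      (fun u hu => S.card_N_le' (hBsubW hu))
      (by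
        have h1 := S.card_W
        have h2 : ∑ u ∈ S.B, (S.x u - 1) ≤ ∑ u ∈ S.W, (S.x u - 1) :=
          sum_le_sum_of_subset_of_nonneg hBsubW fun u hu _ => by
            have := hWx u hu
            omega
        omega)
      (by exact_mod_cast hPar) hlt
      (by
        have h1 := S.sum_W_x
        have h2 : ∑ u ∈ S.B, S.x u ≤ ∑ u ∈ S.W, S.x u :=
          sum_le_sum_of_subset_of_nonneg hBsubW fun u hu _ => by
            have := hWx u hu
            omega
        omega)
      (by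
        intro u hu z hz hzP
        rw [Cand, mem_filter] at hz
        have h1 : ¬ (S.A + S.s < fn G z) := fun h => hzP (mem_filter.2 ⟨mem_univ _, hz.2, h⟩)
        have h2 := fn_eq (G := G) z
        have h3 := S.A_eq
        have h4 : ((nn G z).card : ℤ) = fn G z := by rw [h2]; rfl
        omega)
    obtain ⟨H, h1, h2, h3⟩ := hcl c L S.ee (fun u hu => by have := hee u hu; omega) hSel
    refine ⟨H, h1, h2, le_trans ?_ h3⟩
    have h4 : ∑ u ∈ S.B, S.R u ≤ 2 * S.s * ∑ u ∈ S.B, (S.ee u : ℤ) := by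
      rw [mul_sum]
      refine sum_le_sum fun u hu => ?_
      have h1 := hBR u hu
      exact (S.ee_spec (u := u) (by omega)).2
    have h5 : 0 ≤ S.s * S.P.card := by positivity
    rw [hsplit, hsd]
    linarith
  · obtain ⟨Par, -, hcl⟩ := hatt ∅ (by simp)
    obtain ⟨H, h1, h2, h3⟩ := hcl id (fun _ => ∅) (fun _ => 0) (by simp) (by constructor <;> simp)
    refine ⟨H, h1, h2, le_trans ?_ h3⟩
    rw [sum_empty, zero_add, sdiff_empty, hsplit, hsd, ← hcardMx]
    have hP0 : 0 ≤ S.s * S.P.card := by positivity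
    rcases S.B.eq_empty_or_nonempty with hBe | hBne
    · rw [hBe] at hMxsum ⊢
      simp only [sum_empty, card_empty, Nat.cast_zero, add_zero]
      linarith
    · have hlt : ∑ u ∈ S.B, (S.x u - 2) ≤ (S.P.card : ℤ) + 2 * S.Q.card := by
        by_contra hc
        push Not at hc
        exact hcase ⟨hBne, hc⟩
      obtain ⟨u₀, hu₀⟩ := hBne
      have hQ2 : ∑ u ∈ S.Q, S.R u ≤ ∑ u ∈ S.Q, (- (2 * S.s)) := by
        refine sum_le_sum fun z hz => ?_
        have h1 := S.R_Q hz
        have h2 := S.fn_Q hz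
        have h3 := hA z hz
        have h4 := S.card_N_add (hBW u₀ hu₀).1
        have h5 := S.R_le_N (hBW u₀ hu₀).1
        have h6 := hBR u₀ hu₀
        have h7 := hBx u₀ hu₀
        have h8 : 2 * S.w ≤ (S.x u₀ - 1) * S.w := by nlinarith
        omega
      rw [sum_const, nsmul_eq_mul] at hQ2
      have hB2 : ∑ u ∈ S.B, S.R u ≤ S.s * (∑ u ∈ S.B, (S.x u - 2)) + 2 * S.s * S.B.card := by
        have h1 : ∑ u ∈ S.B, S.R u ≤ ∑ u ∈ S.B, S.x u * S.s :=
          sum_le_sum fun u hu => S.R_le_x (hBW u hu).1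
        have h2 : ∑ u ∈ S.B, (S.x u - 2) = ∑ u ∈ S.B, S.x u - 2 * S.B.card := by
          rw [sum_sub_distrib]; simp [mul_comm]
        rw [h2]
        rw [← sum_mul] at h1
        linarith
      have h9 : S.s * (∑ u ∈ S.B, (S.x u - 2)) ≤ S.s * ((S.P.card : ℤ) + 2 * S.Q.card) :=
        mul_le_mul_of_nonneg_left hlt (by omega)
      linarith

end Setup

end Pool.Agent.Chordal
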