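import Pool.Agent.Chordal.Rank

open Finset

namespace Pool.Agent.Chordal

/-- `tn k n` is the number of edges of the Turan graph with `n` vertices and `k` parts. -/
def tn (k n : ℕ) : ℕ := (SimpleGraph.turanGraph n k).edgeFinset.card

/-- `Guar n m s`: every graph on `n` vertices with exactly `m` edges has a chordal subgraph with
at least `s` edges. -/
def Guar (n m : ℕ) (s : ℤ) : Prop :=
  ∀ G : SimpleGraph (Fin n), G.edgeSet.ncard = m →
    ∃ H : G.Subgraph, IsChordal H.coe ∧ s ≤ (H.edgeSet.ncard : ℤ)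

/-- The set of the numbers `k n - t + r` over all `t ≤ n`, `r ≥ 0` with
`t_{k-1}(n-t) + t (n-t) + t_2(r) ≥ m`. -/
def gset (k n m : ℕ) : Set ℕ :=
  {x | ∃ t r : ℕ, t ≤ n ∧ m ≤ tn (k - 1) (n - t) + t * (n - t) + tn 2 r ∧ x = k * n - t + r}

/-- `g_k(n,m)`. -/
noncomputable def gk (k n m : ℕ) : ℕ := sInf (gset k n m)

end Pool.Agent.Chordal
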