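import Pool.Agent.Chordal.Defs

/-!
# Dirac's theorem on simplicial vertices of chordal graphs
-/

namespace Pool.Agent.Chordal

open Finset SimpleGraph

variable {V : Type*}

theorem cycle_adj_iff {l : ℕ} {u v : Fin (l + 2)} (h : u.val < v.val) :
    (cycleGraph (l + 2)).Adj u v ↔ u.val + 1 = v.val ∨ (u.val = 0 ∧ v.val = l + 1) := by
  rw [cycleGraph_adj']
  have hu := u.isLt
  have hv := v.isLt
  have h1 : (v - u).val = v.val - u.val := Fin.sub_val_of_le (Fin.le_def.2 h.le)
  have h2 : (u - v).val = l + 2 + u.val - v.val := by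
    rw [Fin.sub_def]
    show (l + 2 - v.val + u.val) % (l + 2) = _
    rw [Nat.mod_eq_of_lt (by omega)]
    omega
  rw [h1, h2]
  omega

/-- an induced path together with a vertex adjacent exactly to its ends -/
theorem not_chordal_of_path {H : SimpleGraph V} {l : ℕ} (hl : 2 ≤ l) (p : ℕ → V) (a : V)
    (hinj : ∀ i j, i < j → j ≤ l → p i ≠ p j)
    (hadj : ∀ i, i < l → H.Adj (p i) (p (i + 1)))
    (hnadj : ∀ i j, i + 2 ≤ j → j ≤ l → ¬ H.Adj (p i) (p j))
    (ha0 : H.Adj a (p 0)) (hal : H.Adj a (p l)) (han : ∀ i, 0 < i → i < l → ¬ H.Adj a (p i))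
    (hane : ∀ i, i ≤ l → a ≠ p i) : ¬ IsChordal H := by
  intro hc
  refine (hc (l + 2) (by omega)).elim ?_
  let f : Fin (l + 2) → V := fun i => if i.val ≤ l then p i.val else a
  have hf1 : ∀ i : Fin (l + 2), i.val ≤ l → f i = p i.val := fun i hi => if_pos hi
  have hf2 : ∀ i : Fin (l + 2), ¬ i.val ≤ l → f i = a := fun i hi => if_neg hi
  have key : ∀ u v : Fin (l + 2), u.val < v.val → f u ≠ f v ∧
      (H.Adj (f u) (f v) ↔ u.val + 1 = v.val ∨ (u.val = 0 ∧ v.val = l + 1)) := by
    intro u v huv
    have hv := v.isLt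
    have hu1 : u.val ≤ l := by omega
    rw [hf1 u hu1]
    by_cases hvl : v.val ≤ l
    · rw [hf1 v hvl]
      refine ⟨hinj _ _ huv hvl, ?_⟩
      constructor
      · intro h
        by_contra h2
        exact hnadj u.val v.val (by omega) hvl h
      · rintro (h | ⟨_, h⟩)
        · rw [← h]
          exact hadj _ (by omega)
        · omega
    · rw [hf2 v hvl]
      have hv1 : v.val = l + 1 := by omega
      refine ⟨(hane _ hu1).symm, ?_⟩
      constructor
      · intro h
        by_contra h2
        exact han u.val (by omega) (by omega) h.symm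
      · rintro (h | ⟨h, _⟩)
        · have : u.val = l := by omega
          rw [this]
          exact hal.symm
        · rw [h]
          exact ha0.symm
  have finj : Function.Injective f := by
    intro u v h
    rcases lt_trichotomy u.val v.val with h1 | h1 | h1
    · exact absurd h (key u v h1).1
    · exact Fin.ext h1
    · exact absurd h.symm (key v u h1).1
  refine ⟨⟨f, finj⟩, ?_⟩
  intro u v
  show H.Adj (f u) (f v) ↔ _
  rcases lt_trichotomy u.val v.val with h1 | h1 | h1
  · rw [(key u v h1).2, cycle_adj_iff h1]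
  · have h2 : u = v := Fin.ext h1
    subst h2
    simp
  · rw [H.adj_comm, (key v u h1).2, SimpleGraph.adj_comm, cycle_adj_iff h1]

/-- sequences from `x` to `y` whose inner points satisfy `C` -/
def Conn (H : SimpleGraph V) (C : V → Prop) (x y : V) (l : ℕ) : Prop :=
  ∃ p : ℕ → V, p 0 = x ∧ p l = y ∧ (∀ i, i < l → H.Adj (p i) (p (i + 1))) ∧
    ∀ i, 0 < i → i < l → C (p i)

/-- a shortest sequence is an induced path -/
theorem exists_induced {H : SimpleGraph V} {C : V → Prop} {x y : V} (hxy : x ≠ y)
    (hn : ¬ H.Adj x y) (h : ∃ l, Conn H C x y l) : ∃ l, 2 ≤ l ∧ ∃ p : ℕ → V, p 0 = x ∧ p l = y ∧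
    (∀ i, i < l → H.Adj (p i) (p (i + 1))) ∧ (∀ i, 0 < i → i < l → C (p i)) ∧
    (∀ i j, i < j → j ≤ l → p i ≠ p j) ∧ ∀ i j, i + 2 ≤ j → j ≤ l → ¬ H.Adj (p i) (p j) := by
  classical
  have hmin := fun m => Nat.find_min (m := m) h
  obtain ⟨p, h0, hl, hadj, hC⟩ := Nat.find_spec h
  set l := Nat.find h with hldef
  refine ⟨l, ?_, p, h0, hl, hadj, hC, ?_, ?_⟩
  · by_contra h2
    have h3 : l = 0 ∨ l = 1 := by omega
    rcases h3 with h3 | h3
    · rw [h3, h0] at hl
      exact hxy hl
    · have := hadj 0 (by omega)
      rw [h0] at this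
      rw [h3] at hl
      rw [zero_add, hl] at this
      exact hn this
  · intro i j hij hjl he
    refine hmin (l - (j - i)) (by omega) ⟨fun t => if t ≤ i then p t else p (t + (j - i)), ?_, ?_,
      ?_, ?_⟩
    · simp [h0]
    · by_cases h4 : l - (j - i) ≤ i
      · have h5 : l - (j - i) = i := by omega
        have h6 : j = l := by omega
        rw [h5]
        simp only [le_refl, if_true]
        rw [he, h6, hl]
      · simp only [h4, if_false]
        rw [show l - (j - i) + (j - i) = l by omega, hl]
    · intro t ht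
      by_cases h4 : t ≤ i
      · by_cases h5 : t + 1 ≤ i
        · simp only [h4, h5, if_true]
          exact hadj t (by omega)
        · have h6 : t = i := by omega
          subst h6
          simp only [le_refl, if_true, h5, if_false]
          rw [he, show t + 1 + (j - t) = j + 1 by omega]
          exact hadj j (by omega)
      · simp only [h4, if_false, show ¬ t + 1 ≤ i by omega]
        rw [show t + 1 + (j - i) = t + (j - i) + 1 by omega]
        exact hadj _ (by omega)
    · intro t ht0 ht
      by_cases h4 : t ≤ i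
      · simp only [h4, if_true]
        exact hC t ht0 (by omega)
      · simp only [h4, if_false]
        exact hC _ (by omega) (by omega)
  · intro i j hij hjl he
    refine hmin (l - (j - i - 1)) (by omega) ⟨fun t => if t ≤ i then p t else p (t + (j - i - 1)),
      ?_, ?_, ?_, ?_⟩
    · simp [h0]
    · simp only [show ¬ l - (j - i - 1) ≤ i by omega, if_false]
      rw [show l - (j - i - 1) + (j - i - 1) = l by omega, hl]
    · intro t ht
      by_cases h4 : t ≤ i
      · by_cases h5 : t + 1 ≤ i
        · simp only [h4, h5, if_true]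
          exact hadj t (by omega)
        · have h6 : t = i := by omega
          subst h6
          simp only [le_refl, if_true, h5, if_false]
          rw [show t + 1 + (j - t - 1) = j by omega]
          exact he
      · simp only [h4, if_false, show ¬ t + 1 ≤ i by omega]
        rw [show t + 1 + (j - i - 1) = t + (j - i - 1) + 1 by omega]
        exact hadj _ (by omega)
    · intro t ht0 ht
      by_cases h4 : t ≤ i
      · simp only [h4, if_true]
        exact hC t ht0 (by omega)
      · simp only [h4, if_false]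
        exact hC _ (by omega) (by omega)

theorem conn_cons {H : SimpleGraph V} {C : V → Prop} {x c d : V} (hxc : H.Adj x c) (hc : C c)
    (h : Relation.ReflTransGen (fun u v => H.Adj u v ∧ C v) c d) :
    ∃ l, 0 < l ∧ ∃ p : ℕ → V, p 0 = x ∧ p l = d ∧ (∀ i, i < l → H.Adj (p i) (p (i + 1))) ∧
      ∀ i, 0 < i → i ≤ l → C (p i) := by
  induction h with
  | refl =>
    refine ⟨1, one_pos, fun t => if t = 0 then x else c, by simp, by simp, ?_, ?_⟩
    · intro i hi
      have : i = 0 := by omega
      subst this
      simpa using hxc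
    · intro i hi _
      simp only [show i ≠ 0 by omega, if_false]
      exact hc
  | tail _ hd ih =>
    rename_i d e _
    obtain ⟨l, hl0, p, h0, hl, hadj, hC⟩ := ih
    refine ⟨l + 1, by omega, fun t => if t ≤ l then p t else e, by simp [h0], by simp, ?_, ?_⟩
    · intro i hi
      by_cases h1 : i + 1 ≤ l
      · simp only [show i ≤ l by omega, h1, if_true]
        exact hadj i (by omega)
      · have h2 : i = l := by omega
        subst h2
        simp only [le_refl, if_true, h1, if_false]
        rw [hl]
        exact hd.1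
    · intro i hi0 hi
      by_cases h1 : i ≤ l
      · simp only [h1, if_true]
        exact hC i hi0 h1
      · simp only [h1, if_false]
        exact hd.2

theorem conn_of {H : SimpleGraph V} {C : V → Prop} {x y c d : V} (hxc : H.Adj x c) (hc : C c)
    (h : Relation.ReflTransGen (fun u v => H.Adj u v ∧ C v) c d) (hdy : H.Adj d y) :
    ∃ l, Conn H C x y l := by
  obtain ⟨l, hl0, p, h0, hl, hadj, hC⟩ := conn_cons hxc hc h
  refine ⟨l + 1, fun t => if t ≤ l then p t else y, by simp [h0], by simp, ?_, ?_⟩
  · intro i hi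
    by_cases h1 : i + 1 ≤ l
    · simp only [show i ≤ l by omega, h1, if_true]
      exact hadj i (by omega)
    · have h2 : i = l := by omega
      subst h2
      simp only [le_refl, if_true, h1, if_false]
      rw [hl]
      exact hdy
  · intro i hi0 hi
    simp only [show i ≤ l by omega, if_true]
    exact hC i hi0 (by omega)

/-- `v` is simplicial in the subgraph induced on `S` -/
def Simplicial (H : SimpleGraph V) (S : Finset V) (v : V) : Prop :=
  ∀ x ∈ S, ∀ y ∈ S, H.Adj v x → H.Adj v y → x ≠ y → H.Adj x y

theorem exists_simplicial_aux {H : SimpleGraph V} (hH : IsChordal H) :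
    ∀ (s : ℕ) (S : Finset V), S.card ≤ s → ∀ a ∈ S, (∃ b ∈ S, b ≠ a ∧ ¬ H.Adj a b) →
      ∃ v ∈ S, v ≠ a ∧ ¬ H.Adj a v ∧ Simplicial H S v := by
  classical
  intro s
  induction s with
  | zero =>
    intro S hS a ha
    have : S = ∅ := Finset.card_eq_zero.1 (by omega)
    subst this
    simp at ha
  | succ s ih =>
    rintro S hS a ha ⟨b, hb, hba, hnab⟩
    -- the component of `b` in the non-neighbours of `a`
    let N : V → Prop := fun v => v ∈ S ∧ v ≠ a ∧ ¬ H.Adj a v
    let R : V → V → Prop := fun u v => H.Adj u v ∧ N v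
    let C : V → Prop := fun v => Relation.ReflTransGen R b v
    have hbN : N b := ⟨hb, hba, hnab⟩
    have hCN : ∀ v, C v → N v := by
      intro v hv
      rcases Relation.ReflTransGen.cases_tail hv with h | ⟨w, _, hw⟩
      · rw [h]
        exact hbN
      · exact hw.2
    have hCb : C b := Relation.ReflTransGen.refl
    have hCstep : ∀ u v, C u → H.Adj u v → N v → C v := fun u v hu huv hv =>
      Relation.ReflTransGen.tail hu ⟨huv, hv⟩
    have hCC : ∀ v, C v → Relation.ReflTransGen (fun u v => H.Adj u v ∧ C v) b v := by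
      intro v hv
      induction hv with
      | refl => exact Relation.ReflTransGen.refl
      | tail h1 h2 ih2 =>
        exact Relation.ReflTransGen.tail ih2 ⟨h2.1, hCstep _ _ h1 h2.1 h2.2⟩
    have hCC' : ∀ v, C v → Relation.ReflTransGen (fun u v => H.Adj u v ∧ C v) v b := by
      intro v hv
      induction hv with
      | refl => exact Relation.ReflTransGen.refl
      | tail h1 h2 ih2 =>
        exact Relation.ReflTransGen.head ⟨h2.1.symm, h1⟩ ih2
    let X : V → Prop := fun x => x ∈ S ∧ ¬ C x ∧ ∃ c, C c ∧ H.Adj x c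
    have hXa : ∀ x, X x → H.Adj a x := by
      rintro x ⟨hxS, hxC, c, hc, hxc⟩
      by_contra hax
      by_cases hxa : x = a
      · subst hxa
        exact (hCN c hc).2.2 hxc
      · exact hxC (hCstep c x hc hxc.symm ⟨hxS, hxa, hax⟩)
    have hXclique : ∀ x y, X x → X y → x ≠ y → H.Adj x y := by
      intro x y hx hy hxy
      by_contra hn
      obtain ⟨_, _, c, hc, hxc⟩ := id hx
      obtain ⟨_, _, d, hd, hyd⟩ := id hy
      obtain ⟨l, hl2, p, h0, hl, hadj, hC', hinj, hnadj⟩ := exists_induced hxy hn
        (conn_of hxc hc ((hCC' c hc).trans (hCC d hd)) hyd.symm)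
      refine not_chordal_of_path hl2 p a hinj hadj hnadj ?_ ?_ ?_ ?_ hH
      · rw [h0]
        exact hXa x hx
      · rw [hl]
        exact hXa y hy
      · intro i hi hil
        exact (hCN _ (hC' i hi hil)).2.2
      · intro i hi
        rcases Nat.eq_zero_or_pos i with h1 | h1
        · rw [h1, h0]
          exact (hXa x hx).ne
        · rcases lt_or_eq_of_le hi with h2 | h2
          · exact ((hCN _ (hC' i h1 h2)).2.1).symm
          · rw [h2, hl]
            exact (hXa y hy).ne
    -- the subgraph on `C ∪ X`
    let S' : Finset V := S.filter fun v => C v ∨ X v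
    have hS' : ∀ v, v ∈ S' ↔ C v ∨ X v := by
      intro v
      rw [Finset.mem_filter]
      constructor
      · exact fun h => h.2
      · intro h
        refine ⟨?_, h⟩
        rcases h with h | h
        · exact (hCN v h).1
        · exact h.1
    have hcard : S'.card ≤ s := by
      have h1 : S' ⊂ S := by
        refine Finset.ssubset_iff_subset_ne.2 ⟨Finset.filter_subset _ _, ?_⟩
        intro h
        have h2 : a ∈ S' := h ▸ ha
        rw [hS'] at h2
        rcases h2 with h2 | h2
        · exact (hCN a h2).2.1 rfl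
        · exact (hXa a h2).ne rfl
      have := Finset.card_lt_card h1
      omega
    -- neighbours of vertices of `C` are in `S'`
    have hnb : ∀ v, C v → ∀ x ∈ S, H.Adj v x → x ∈ S' := by
      intro v hv x hx hvx
      rw [hS']
      by_cases hxC : C x
      · exact Or.inl hxC
      · exact Or.inr ⟨hx, hxC, v, hv, hvx.symm⟩
    have hup : ∀ v, C v → Simplicial H S' v → Simplicial H S v := by
      intro v hv h x hx y hy hvx hvy hxy
      exact h x (hnb v hv x hx hvx) y (hnb v hv y hy hvy) hvx hvy hxy
    suffices h : ∃ v, C v ∧ Simplicial H S' v by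
      obtain ⟨v, hv, hs⟩ := h
      exact ⟨v, (hCN v hv).1, (hCN v hv).2.1, (hCN v hv).2.2, hup v hv hs⟩
    by_cases hclq : ∀ x ∈ S', ∀ y ∈ S', x ≠ y → H.Adj x y
    · exact ⟨b, hCb, fun x hx y hy _ _ hxy => hclq x hx y hy hxy⟩
    · push Not at hclq
      obtain ⟨x, hx, y, hy, hxy, hnxy⟩ := hclq
      by_cases hall : ∀ x, X x → ∀ c, C c → H.Adj x c
      · -- both `x`, `y` are in `C`
        have hxC : C x := by
          rcases (hS' x).1 hx with h | h
          · exact h
          · exfalso
            rcases (hS' y).1 hy with h2 | h2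
            · exact hnxy (hall x h y h2)
            · exact hnxy (hXclique x y h h2 hxy)
        obtain ⟨v, hv, hvx, hnv, hs⟩ := ih S' hcard x hx ⟨y, hy, hxy.symm, hnxy⟩
        refine ⟨v, ?_, hs⟩
        rcases (hS' v).1 hv with h | h
        · exact h
        · exact absurd (hall v h x hxC).symm hnv
      · push Not at hall
        obtain ⟨x, hx, c, hc, hnc⟩ := hall
        obtain ⟨v, hv, hvx, hnv, hs⟩ := ih S' hcard x ((hS' x).2 (Or.inr hx))
          ⟨c, (hS' c).2 (Or.inl hc), fun h => hx.2.1 (h ▸ hc), hnc⟩
        refine ⟨v, ?_, hs⟩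
        rcases (hS' v).1 hv with h | h
        · exact h
        · exact absurd (hXclique x v hx h hvx.symm) hnv

/-- **Dirac.** A chordal graph has a simplicial vertex outside any clique that is not everything. -/
theorem exists_simplicial {H : SimpleGraph V} (hH : IsChordal H) (S Q : Finset V) (hQS : Q ⊂ S)
    (hQ : ∀ x ∈ Q, ∀ y ∈ Q, x ≠ y → H.Adj x y) : ∃ v ∈ S, v ∉ Q ∧ Simplicial H S v := by
  classical
  obtain ⟨w, hw, hwQ⟩ := Finset.exists_of_ssubset hQS
  by_cases hclq : ∀ x ∈ S, ∀ y ∈ S, x ≠ y → H.Adj x y
  · exact ⟨w, hw, hwQ, fun x hx y hy _ _ hxy => hclq x hx y hy hxy⟩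
  · push Not at hclq
    obtain ⟨a, ha, b, hb, hab, hnab⟩ := hclq
    obtain ⟨v, hv, hva, hnv, hs⟩ := exists_simplicial_aux hH S.card S le_rfl a ha
      ⟨b, hb, hab.symm, hnab⟩
    by_cases hvQ : v ∈ Q
    · obtain ⟨v2, hv2, hv2a, hnv2, hs2⟩ := exists_simplicial_aux hH S.card S le_rfl v hv
        ⟨a, ha, hva.symm, fun h => hnv h.symm⟩
      exact ⟨v2, hv2, fun h => hnv2 (hQ v hvQ v2 h hv2a.symm), hs2⟩
    · exact ⟨v, hv, hvQ, hs⟩

end Pool.Agent.Chordal
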