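import Pool.Agent.Chordal.Dirac

/-!
# Upper bounds for the number of edges of a chordal graph
-/

namespace Pool.Agent.Chordal

open Finset SimpleGraph

variable {V : Type*} [DecidableEq V] {H : SimpleGraph V} [DecidableRel H.Adj]

/-- twice the number of edges inside `S` -/
def pairs (H : SimpleGraph V) [DecidableRel H.Adj] (S : Finset V) : ℕ :=
  ∑ v ∈ S, (S.filter (H.Adj v)).card

theorem pairs_erase {S : Finset V} {v : V} (hv : v ∈ S) :
    pairs H S = pairs H (S.erase v) + 2 * (S.filter (H.Adj v)).card := by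
  have h1 : ∀ u ∈ S.erase v, (S.filter (H.Adj u)).card =
      ((S.erase v).filter (H.Adj u)).card + if H.Adj u v then 1 else 0 := by
    intro u _
    rw [Finset.filter_erase]
    split_ifs with h
    · have h2 : v ∈ S.filter (H.Adj u) := Finset.mem_filter.2 ⟨hv, h⟩
      rw [Finset.card_erase_of_mem h2]
      have := Finset.card_pos.2 ⟨v, h2⟩
      omega
    · rw [Finset.erase_eq_of_notMem (fun h2 => h (Finset.mem_filter.1 h2).2), add_zero]
  have h3 : ∑ u ∈ S.erase v, (if H.Adj u v then 1 else 0) = (S.filter (H.Adj v)).card := by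
    rw [← Finset.card_filter]
    congr 1
    ext u
    simp only [Finset.mem_filter, Finset.mem_erase]
    constructor
    · rintro ⟨⟨_, h⟩, h2⟩
      exact ⟨h, h2.symm⟩
    · rintro ⟨h, h2⟩
      exact ⟨⟨h2.ne', h⟩, h2.symm⟩
  rw [pairs, ← Finset.add_sum_erase S _ hv, Finset.sum_congr rfl h1, Finset.sum_add_distrib, h3,
    pairs]
  ring

/-- perfect elimination with degree bounds `d` -/
theorem pairs_le (hH : IsChordal H) (d : V → ℕ)
    (hd : ∀ v (T : Finset V), (∀ x ∈ T, H.Adj v x) →
      (∀ x ∈ T, ∀ y ∈ T, x ≠ y → H.Adj x y) → T.card ≤ d v)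
    (Q : Finset V) (hQ : ∀ x ∈ Q, ∀ y ∈ Q, x ≠ y → H.Adj x y) :
    ∀ (s : ℕ) (S : Finset V), Q ⊆ S → (S \ Q).card = s →
      pairs H S ≤ Q.card * (Q.card - 1) + 2 * ∑ v ∈ S \ Q, d v := by
  intro s
  induction s with
  | zero =>
    intro S hQS hc
    have h1 : S \ Q = ∅ := Finset.card_eq_zero.1 hc
    have h2 : S = Q := Finset.Subset.antisymm (Finset.sdiff_eq_empty_iff_subset.1 h1) hQS
    subst h2
    have h3 : ∀ v ∈ S, (S.filter (H.Adj v)).card ≤ S.card - 1 := by
      intro v hv
      rw [← Finset.card_erase_of_mem hv]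
      refine Finset.card_le_card fun x hx => ?_
      rw [Finset.mem_filter] at hx
      exact Finset.mem_erase.2 ⟨hx.2.ne', hx.1⟩
    have h4 : pairs H S ≤ S.card * (S.card - 1) := by
      rw [pairs, ← smul_eq_mul]
      exact Finset.sum_le_card_nsmul _ _ _ h3
    omega
  | succ s ih =>
    intro S hQS hc
    have hss : Q ⊂ S := by
      refine Finset.ssubset_iff_subset_ne.2 ⟨hQS, fun h => ?_⟩
      subst h
      simp at hc
    obtain ⟨v, hv, hvQ, hs⟩ := exists_simplicial hH S Q hss hQ
    have h1 : Q ⊆ S.erase v := fun x hx => Finset.mem_erase.2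
      ⟨fun h => hvQ (h ▸ hx), hQS hx⟩
    have h2 : S.erase v \ Q = (S \ Q).erase v := by
      ext x
      simp only [Finset.mem_sdiff, Finset.mem_erase]
      tauto
    have hvm : v ∈ S \ Q := Finset.mem_sdiff.2 ⟨hv, hvQ⟩
    have h3 : (S.erase v \ Q).card = s := by
      rw [h2, Finset.card_erase_of_mem hvm, hc]
      rfl
    have h4 := ih (S.erase v) h1 h3
    have h5 : (S.filter (H.Adj v)).card ≤ d v := by
      refine hd v _ (fun x hx => (Finset.mem_filter.1 hx).2) ?_
      intro x hx y hy hxy
      rw [Finset.mem_filter] at hx hy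
      exact hs x hx.1 y hy.1 hx.2 hy.2 hxy
    rw [pairs_erase hv, ← Finset.add_sum_erase (S \ Q) _ hvm, ← h2]
    omega

variable [Fintype V]

omit [DecidableEq V] in
theorem pairs_univ : pairs H univ = 2 * H.edgeFinset.card := by
  rw [← H.sum_degrees_eq_twice_card_edges, pairs]
  refine Finset.sum_congr rfl fun v _ => ?_
  rw [← SimpleGraph.card_neighborFinset_eq_degree]
  congr 1
  ext x
  simp

/-- The bound for chordal graphs without `(k+2)`-cliques whose cliques through `I` are smaller. -/
theorem chordal_edges_le (hH : IsChordal H) {k : ℕ} (I : Finset V)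
    (hk : ∀ T : Finset V, (∀ x ∈ T, ∀ y ∈ T, x ≠ y → H.Adj x y) → T.card ≤ k + 1)
    (hI : ∀ T : Finset V, (∀ x ∈ T, ∀ y ∈ T, x ≠ y → H.Adj x y) → (∃ x ∈ T, x ∈ I) → T.card ≤ k)
    (hIk : I.card + k ≤ Fintype.card V) :
    2 * H.edgeFinset.card + 2 * I.card + (k + 1) * k ≤ 2 * (k * Fintype.card V) := by
  classical
  have hins : ∀ v (T : Finset V), (∀ x ∈ T, H.Adj v x) →
      (∀ x ∈ T, ∀ y ∈ T, x ≠ y → H.Adj x y) →
      (∀ x ∈ insert v T, ∀ y ∈ insert v T, x ≠ y → H.Adj x y) ∧
      (insert v T).card = T.card + 1 := by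
    intro v T h1 h2
    have hv : v ∉ T := fun h => (h1 v h).ne rfl
    refine ⟨?_, Finset.card_insert_of_notMem hv⟩
    intro x hx y hy hxy
    rw [Finset.mem_insert] at hx hy
    rcases hx with hx | hx <;> rcases hy with hy | hy
    · exact absurd (hx.trans hy.symm) hxy
    · rw [hx]
      exact h1 y hy
    · rw [hy]
      exact (h1 x hx).symm
    · exact h2 x hx y hy hxy
  set n := Fintype.card V with hn
  by_cases hex : ∃ Q : Finset V, (∀ x ∈ Q, ∀ y ∈ Q, x ≠ y → H.Adj x y) ∧ Q.card = k + 1
  · obtain ⟨Q, hQ, hQc⟩ := hex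
    have hQn : k + 1 ≤ n := by
      rw [← hQc]
      exact Finset.card_le_univ Q
    have hdisj : ∀ x ∈ Q, x ∉ I := by
      intro x hx hxI
      have := hI Q hQ ⟨x, hx, hxI⟩
      omega
    have h1 := pairs_le hH (fun v => if v ∈ I then k - 1 else k) (by
      intro v T h1 h2
      obtain ⟨h3, h4⟩ := hins v T h1 h2
      split_ifs with hv
      · have := hI _ h3 ⟨v, Finset.mem_insert_self _ _, hv⟩
        omega
      · have := hk _ h3
        omega) Q hQ _ univ (Finset.subset_univ _) rfl
    have h2 : ∑ v ∈ univ \ Q, (if v ∈ I then k - 1 else k) + I.card ≤ (n - (k + 1)) * k := by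
      have hIQ : I ⊆ univ \ Q := fun x hx => Finset.mem_sdiff.2
        ⟨Finset.mem_univ _, fun h => hdisj x h hx⟩
      have hc : (univ \ Q).card = n - (k + 1) := by
        rw [Finset.card_sdiff_of_subset (Finset.subset_univ _), hQc, Finset.card_univ]
      have h5 : (I.card : ℕ) = ∑ v ∈ univ \ Q, (if v ∈ I then 1 else 0) := by
        rw [← Finset.card_filter]
        congr 1
        ext x
        simp only [Finset.mem_filter]
        exact ⟨fun h => ⟨hIQ h, h⟩, fun h => h.2⟩
      rw [h5, ← Finset.sum_add_distrib, ← hc, ← smul_eq_mul]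
      refine Finset.sum_le_card_nsmul _ _ _ fun v hv => ?_
      split_ifs with hvI
      · have hk1 : 1 ≤ k := by
          have := hI {v} (by
            intro x hx y hy hxy
            rw [Finset.mem_singleton] at hx hy
            exact absurd (hx.trans hy.symm) hxy) ⟨v, Finset.mem_singleton_self _, hvI⟩
          simpa using this
        omega
      · omega
    rw [pairs_univ, hQc] at h1
    obtain ⟨m, hm⟩ := Nat.exists_eq_add_of_le hQn
    rw [show n - (k + 1) = m by omega] at h2
    rw [hm]
    simp only [Nat.add_sub_cancel] at h1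
    nlinarith
  · -- a maximum clique
    push Not at hex
    obtain ⟨Q, hQm, hQmax⟩ := Finset.exists_max_image
      ((univ : Finset (Finset V)).filter fun Q => ∀ x ∈ Q, ∀ y ∈ Q, x ≠ y → H.Adj x y)
      Finset.card ⟨∅, by simp⟩
    rw [Finset.mem_filter] at hQm
    have hQ := hQm.2
    have hQk : Q.card ≤ k := by
      have h1 := hk Q hQ
      have h2 := hex Q hQ
      omega
    have h1 := pairs_le hH (fun _ => Q.card - 1) (by
      intro v T h1 h2
      obtain ⟨h3, h4⟩ := hins v T h1 h2
      have h5 := hQmax _ (Finset.mem_filter.2 ⟨Finset.mem_univ _, h3⟩)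
      omega) Q hQ _ univ (Finset.subset_univ _) rfl
    have hc : (univ \ Q).card = n - Q.card := by
      rw [Finset.card_sdiff_of_subset (Finset.subset_univ _), Finset.card_univ]
    rw [pairs_univ, Finset.sum_const, hc, smul_eq_mul] at h1
    have hQn : Q.card ≤ n := Finset.card_le_univ Q
    have hQ0 : Q.card = 0 → n = 0 := by
      intro h0
      rw [hn, Fintype.card_eq_zero_iff]
      refine ⟨fun v => ?_⟩
      have h5 := hQmax {v} (Finset.mem_filter.2 ⟨Finset.mem_univ _, by
        intro x hx y hy hxy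
        rw [Finset.mem_singleton] at hx hy
        exact absurd (hx.trans hy.symm) hxy⟩)
      rw [Finset.card_singleton] at h5
      omega
    generalize Q.card = w at *
    obtain ⟨m, hm⟩ := Nat.exists_eq_add_of_le hQn
    obtain ⟨j, hj⟩ := Nat.exists_eq_add_of_le hQk
    rw [show n - w = m by omega] at h1
    rcases Nat.eq_zero_or_pos w with hw | hw
    · have hn0 := hQ0 hw
      rw [hn0] at hIk
      have hk0 : k = 0 := by omega
      have hI0 : I.card = 0 := by omega
      subst hw
      simp only [zero_add, Nat.zero_sub, mul_zero] at h1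
      have : H.edgeFinset.card = 0 := by omega
      rw [this, hI0, hk0]
      simp
    · obtain ⟨w', rfl⟩ := Nat.exists_eq_add_of_le hw
      simp only [Nat.add_sub_cancel_left] at h1
      rw [hm] at hIk ⊢
      rw [hj] at hIk ⊢
      nlinarith [Nat.mul_le_mul_left j hIk]

end Pool.Agent.Chordal
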