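import Pool.Agent.Chordal.Turan
import Pool.Agent.Chordal.Elim

/-!
# The upper bound: graphs all of whose chordal subgraphs are small
-/

open Finset

namespace Pool.Agent.Chordal

open SimpleGraph

section Join

variable {A B : Type*}

/-- the join of two graphs -/
def joinG (G : SimpleGraph A) (H : SimpleGraph B) : SimpleGraph (A ⊕ B) where
  Adj x y := match x, y with
    | .inl a, .inl a' => G.Adj a a'
    | .inr b, .inr b' => H.Adj b b'
    | .inl _, .inr _ => True
    | .inr _, .inl _ => True
  symm := ⟨fun x y h => by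
    rcases x with x | x <;> rcases y with y | y
    · exact (show G.Adj x y from h).symm
    · trivial
    · trivial
    · exact (show H.Adj x y from h).symm⟩
  loopless := ⟨fun x h => by
    rcases x with x | x
    · exact G.loopless.irrefl _ h
    · exact H.loopless.irrefl _ h⟩

variable {G : SimpleGraph A} {H : SimpleGraph B}

@[simp] theorem joinG_ll (a a' : A) : (joinG G H).Adj (.inl a) (.inl a') ↔ G.Adj a a' := Iff.rfl
@[simp] theorem joinG_rr (b b' : B) : (joinG G H).Adj (.inr b) (.inr b') ↔ H.Adj b b' := Iff.rfl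
@[simp] theorem joinG_lr (a : A) (b : B) : (joinG G H).Adj (.inl a) (.inr b) := trivial
@[simp] theorem joinG_rl (a : A) (b : B) : (joinG G H).Adj (.inr b) (.inl a) := trivial

open Classical in
theorem card_joinG [Fintype A] [Fintype B] :
    (joinG G H).edgeFinset.card =
      G.edgeFinset.card + Fintype.card A * Fintype.card B + H.edgeFinset.card := by
  have h := (joinG G H).sum_degrees_eq_twice_card_edges
  have h1 : ∀ a : A, (joinG G H).degree (.inl a) = G.degree a + Fintype.card B := by
    intro a
    rw [← card_neighborFinset_eq_degree, ← card_neighborFinset_eq_degree]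
    have : (joinG G H).neighborFinset (.inl a) = (G.neighborFinset a).disjSum univ := by
      ext x
      rcases x with x | x <;> simp
    rw [this, card_disjSum, card_univ]
  have h2 : ∀ b : B, (joinG G H).degree (.inr b) = Fintype.card A + H.degree b := by
    intro b
    rw [← card_neighborFinset_eq_degree, ← card_neighborFinset_eq_degree]
    have : (joinG G H).neighborFinset (.inr b) = (univ : Finset A).disjSum (H.neighborFinset b) := by
      ext x
      rcases x with x | x <;> simp
    rw [this, card_disjSum, card_univ]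
  rw [Fintype.sum_sum_type] at h
  simp only [h1, h2, sum_add_distrib, sum_const, card_univ, smul_eq_mul,
    G.sum_degrees_eq_twice_card_edges, H.sum_degrees_eq_twice_card_edges] at h
  nlinarith

open Classical in
theorem card_sumG [Fintype A] [Fintype B] :
    (SimpleGraph.sum G H).edgeFinset.card = G.edgeFinset.card + H.edgeFinset.card := by
  rw [edgeFinset_card, edgeFinset_card, edgeFinset_card, ← Fintype.card_sum]
  exact Fintype.card_congr edgeSetSumEquiv

theorem card_ef_bot (inst : Fintype (⊥ : SimpleGraph B).edgeSet) :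
    (@edgeFinset B ⊥ inst).card = 0 := by
  unfold edgeFinset
  rw [Finset.card_eq_zero]
  exact Set.toFinset_eq_empty.2 edgeSet_bot

open Classical in
theorem card_sum_bot [Fintype A] [Fintype B] :
    (SimpleGraph.sum G (⊥ : SimpleGraph B)).edgeFinset.card = G.edgeFinset.card := by
  rw [card_sumG, Nat.add_eq_left]
  exact card_ef_bot _

end Join

/-- pairwise adjacent -/
def Clq {V : Type*} (G : SimpleGraph V) (T : Finset V) : Prop :=
  ∀ x ∈ T, ∀ y ∈ T, x ≠ y → G.Adj x y

theorem clq_card_le {V : Type*} {G : SimpleGraph V} {r : ℕ} (h : G.CliqueFree (r + 1))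
    {T : Finset V} (hT : Clq G T) : T.card ≤ r := by
  by_contra hc
  obtain ⟨T', hT', hc'⟩ := exists_subset_card_eq (show r + 1 ≤ T.card by omega)
  refine h T' ⟨?_, hc'⟩
  intro x hx y hy hxy
  exact hT x (hT' hx) y (hT' hy) hxy

theorem cliqueFree_of {V : Type*} {G : SimpleGraph V} {r : ℕ}
    (h : ∀ T : Finset V, Clq G T → T.card ≤ r) : G.CliqueFree (r + 1) := by
  intro T hT
  have h1 := h T fun x hx y hy hxy => hT.1 hx hy hxy
  rw [hT.2] at h1
  omega

open Classical in
theorem edges_le_tn {V : Type*} [Fintype V] {G : SimpleGraph V} {k : ℕ} (hk : 0 < k)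
    (h : G.CliqueFree (k + 1)) : G.edgeFinset.card ≤ tn k (Fintype.card V) := by
  obtain ⟨H, _, maxH⟩ := exists_isTuranMaximal (V := V) hk
  have h1 := maxH.2 h
  have h2 := ((isTuranMaximal_iff_nonempty_iso_turanGraph hk).mp maxH).some.card_edgeFinset_eq
  rw [tn]
  convert h1 using 1
  rw [h2]

theorem card_ef_congr {V : Type*} {G G' : SimpleGraph V} (h : G = G') (i1 : Fintype G.edgeSet)
    (i2 : Fintype G'.edgeSet) : (@edgeFinset V G i1).card = (@edgeFinset V G' i2).card := by
  subst h
  rw [Subsingleton.elim i1 i2]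

section GTR

variable (a k r c : ℕ)

/-- the graph `T_{k-1}(a) ∨ (T_2(r) ∪ c K_1)` -/
def GTR : SimpleGraph (Fin a ⊕ (Fin r ⊕ Fin c)) :=
  joinG (turanGraph a (k - 1)) (SimpleGraph.sum (turanGraph r 2) ⊥)

open Classical in
theorem card_GTR : (GTR a k r c).edgeFinset.card = tn (k - 1) a + a * (r + c) + tn 2 r := by
  rw [GTR, card_joinG, card_sum_bot, Fintype.card_fin, Fintype.card_sum,
    Fintype.card_fin, Fintype.card_fin, tn, tn]
  exact congrArg₂ (· + ·) (congrArg (· + a * (r + c)) (card_ef_congr rfl _ _))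
    (card_ef_congr rfl _ _)

/-- the isolated vertices of the second part -/
def IV : Finset (Fin a ⊕ (Fin r ⊕ Fin c)) :=
  univ.map ⟨fun i => .inr (.inr i), fun _ _ h => Sum.inr_injective (Sum.inr_injective h)⟩

theorem card_IV : (IV a r c).card = c := by
  rw [IV, card_map, card_univ, Fintype.card_fin]

variable {a k r c}

theorem clq_left {T : Finset (Fin a ⊕ (Fin r ⊕ Fin c))} (hT : Clq (GTR a k r c) T) :
    Clq (turanGraph a (k - 1)) T.toLeft := by
  intro x hx y hy hxy
  exact hT (.inl x) (mem_toLeft.1 hx) (.inl y) (mem_toLeft.1 hy) (fun h => hxy (Sum.inl_injective h))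

theorem clq_right {T : Finset (Fin a ⊕ (Fin r ⊕ Fin c))} (hT : Clq (GTR a k r c) T) :
    Clq (SimpleGraph.sum (turanGraph r 2) (⊥ : SimpleGraph (Fin c))) T.toRight := by
  intro x hx y hy hxy
  exact hT (.inr x) (mem_toRight.1 hx) (.inr y) (mem_toRight.1 hy)
    (fun h => hxy (Sum.inr_injective h))

theorem card_toRight_of_mem {T : Finset (Fin r ⊕ Fin c)}
    (hT : Clq (SimpleGraph.sum (turanGraph r 2) (⊥ : SimpleGraph (Fin c))) T) {i : Fin c}
    (hi : (.inr i : Fin r ⊕ Fin c) ∈ T) : T.card ≤ 1 := by
  rw [card_le_one]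
  have h : ∀ x ∈ T, x = .inr i := by
    intro x hx
    by_contra hne
    have := hT x hx _ hi hne
    rcases x with x | x <;> simp at this
  intro x hx y hy
  rw [h x hx, h y hy]

theorem card_right_le {T : Finset (Fin r ⊕ Fin c)}
    (hT : Clq (SimpleGraph.sum (turanGraph r 2) (⊥ : SimpleGraph (Fin c))) T) : T.card ≤ 2 := by
  by_cases h : ∃ i : Fin c, (.inr i : Fin r ⊕ Fin c) ∈ T
  · obtain ⟨i, hi⟩ := h
    exact (card_toRight_of_mem hT hi).trans one_le_two
  · push Not at h
    have h1 : T.toRight = ∅ := by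
      ext x
      simp [h x]
    have h2 : Clq (turanGraph r 2) T.toLeft := by
      intro x hx y hy hxy
      exact hT (.inl x) (mem_toLeft.1 hx) (.inl y) (mem_toLeft.1 hy)
        (fun h => hxy (Sum.inl_injective h))
    have h3 := clq_card_le (turanGraph_cliqueFree (n := r) (r := 2) two_pos) h2
    have h4 := card_toLeft_add_card_toRight (u := T)
    rw [h1, card_empty] at h4
    omega

theorem clq_GTR_le (hk : 2 ≤ k) {T : Finset (Fin a ⊕ (Fin r ⊕ Fin c))}
    (hT : Clq (GTR a k r c) T) : T.card ≤ k + 1 := by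
  have h1 := clq_card_le (turanGraph_cliqueFree (n := a) (r := k - 1) (by omega)) (clq_left hT)
  have h2 := card_right_le (clq_right hT)
  have h4 := card_toLeft_add_card_toRight (u := T)
  omega

theorem clq_GTR_le' {T : Finset (Fin a ⊕ (Fin r ⊕ Fin c))}
    (hT : Clq (GTR a k r c) T) : T.card ≤ a + 2 := by
  have h1 : T.toLeft.card ≤ a := by
    have := card_le_univ T.toLeft
    rwa [Fintype.card_fin] at this
  have h2 := card_right_le (clq_right hT)
  have h4 := card_toLeft_add_card_toRight (u := T)
  omega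

theorem clq_GTR_I (hk : 2 ≤ k) {T : Finset (Fin a ⊕ (Fin r ⊕ Fin c))}
    (hT : Clq (GTR a k r c) T) (hI : ∃ x ∈ T, x ∈ IV a r c) : T.card ≤ k := by
  obtain ⟨x, hx, hxI⟩ := hI
  rw [IV, mem_map] at hxI
  obtain ⟨i, _, rfl⟩ := hxI
  have h1 := clq_card_le (turanGraph_cliqueFree (n := a) (r := k - 1) (by omega)) (clq_left hT)
  have h2 := card_toRight_of_mem (clq_right hT) (i := i) (mem_toRight.2 hx)
  have h4 := card_toLeft_add_card_toRight (u := T)
  omega

end GTR

theorem isChordal_comap {V W : Type*} {H : SimpleGraph W} (h : IsChordal H) (e : V ↪ W) :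
    IsChordal (H.comap e) := by
  intro n hn
  refine ⟨fun f => (h n hn).elim ?_⟩
  refine ⟨f.toEmbedding.trans e, ?_⟩
  intro x y
  exact f.map_rel_iff

/-- **upper bound**: a graph all of whose chordal subgraphs are small -/
theorem upper (k n m : ℕ) (hk : 2 ≤ k) (hm : tn k n < m) (hm2 : m ≤ tn (k + 1) n) :
    ∃ G : SimpleGraph (Fin n), G.edgeSet.ncard = m ∧ ∀ H : SimpleGraph (Fin n), H ≤ G →
      IsChordal H → (H.edgeSet.ncard : ℤ) ≤ (gk k n m : ℤ) - (k + 1).choose 2 := by
  classical
  -- an optimal pair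
  obtain ⟨t0, ht0, ht0'⟩ := exists_tn_succ k n hk
  have hkn : ∀ t, t ≤ n → t ≤ k * n := fun t ht => ht.trans (Nat.le_mul_of_pos_left n (by omega))
  have hmem0 : k * n ∈ gset k n m := ⟨t0, t0, ht0, hm2.trans ht0', by
    have := hkn t0 ht0
    omega⟩
  obtain ⟨t, r, htn, hm3, hg⟩ : gk k n m ∈ gset k n m := Nat.sInf_mem ⟨_, hmem0⟩
  have hgle : gk k n m ≤ k * n := Nat.sInf_le hmem0
  have htk := hkn t htn
  have hrt : r ≤ t := by omega
  set a := n - t with ha
  set c := t - r with hc
  set J := GTR a k r c with hJ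
  have hcard : Fintype.card (Fin a ⊕ (Fin r ⊕ Fin c)) = n := by
    simp only [Fintype.card_sum, Fintype.card_fin]
    omega
  have hJe : m ≤ J.edgeFinset.card := by
    rw [hJ, card_GTR, show r + c = t by omega, mul_comm a t]
    exact hm3
  -- numbers
  have hr2 : 2 ≤ r := by
    by_contra h
    have h1 : tn 2 r = 0 := by
      rw [tn, card_eq_zero]
      have h2 : turanGraph r 2 = ⊥ := by
        ext x y
        have hx := x.isLt
        have hy := y.isLt
        have hxy : x = y := by
          apply Fin.ext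
          omega
        subst hxy
        simp
      have h3 : (turanGraph r 2).edgeSet = ∅ := by
        rw [h2]
        simp
      rw [← coe_eq_empty, coe_edgeFinset, h3]
    have h2 := tn_add_le k n t hk htn
    rw [← ha] at h2
    omega
  have hak : k ≤ a + 1 := by
    by_contra h
    have h1 : J.CliqueFree (k + 1) := cliqueFree_of fun T hT => by
      have := clq_GTR_le' hT
      omega
    have h2 := edges_le_tn (by omega) h1
    rw [hcard] at h2
    omega
  -- a subgraph with `m` edges
  obtain ⟨F, hF, hFc⟩ := exists_subset_card_eq hJe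
  let G0 : SimpleGraph (Fin a ⊕ (Fin r ⊕ Fin c)) := SimpleGraph.fromEdgeSet (F : Set _)
  have hG0e : G0.edgeSet = F := by
    rw [edgeSet_fromEdgeSet]
    ext x
    simp only [Set.mem_sdiff, mem_coe]
    constructor
    · exact fun h => h.1
    · intro h
      refine ⟨h, ?_⟩
      exact J.not_isDiag_of_mem_edgeSet (mem_edgeFinset.1 (hF h))
  have hG0 : G0 ≤ J := by
    rw [← edgeSet_subset_edgeSet, hG0e]
    intro x hx
    exact mem_edgeFinset.1 (hF hx)
  let e : (Fin a ⊕ (Fin r ⊕ Fin c)) ≃ Fin n := Fintype.equivOfCardEq (by rw [hcard, Fintype.card_fin])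
  have hiso : ∀ H : SimpleGraph (Fin n), H.edgeSet.ncard = (H.comap e).edgeFinset.card := by
    intro H
    have h1 : (H.comap e).edgeFinset.card = H.edgeFinset.card :=
      (SimpleGraph.Iso.comap e H).card_edgeFinset_eq
    rw [h1, ← coe_edgeFinset, Set.ncard_coe_finset]
  refine ⟨G0.comap e.symm, ?_, ?_⟩
  · rw [hiso]
    have h1 : (G0.comap e.symm).comap e = G0 := by
      ext x y
      simp
    have h2 : ((G0.comap e.symm).comap e).edgeFinset.card = G0.edgeFinset.card :=
      card_ef_congr h1 _ _
    rw [h2, ← hFc, ← Set.ncard_coe_finset, coe_edgeFinset, hG0e, Set.ncard_coe_finset]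
  · intro H hH hHc
    have h1 : H.comap e ≤ J := by
      intro x y hxy
      apply hG0
      have := hH hxy
      simpa using this
    have h2 := chordal_edges_le (H := H.comap e) (isChordal_comap hHc e.toEmbedding) (k := k)
      (IV a r c)
      (fun T hT => clq_GTR_le hk fun x hx y hy hxy => h1 (hT x hx y hy hxy))
      (fun T hT hI => clq_GTR_I hk (fun x hx y hy hxy => h1 (hT x hx y hy hxy)) hI)
      (by rw [card_IV, hcard]; omega)
    rw [card_IV, hcard] at h2
    rw [hiso]
    have h3 : 2 * ((k + 1).choose 2) = (k + 1) * k := by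
      rw [Nat.choose_two_right, Nat.add_sub_cancel]
      exact Nat.two_mul_div_two_of_even (by rw [mul_comm]; exact Nat.even_mul_succ_self k)
    have h4 : (gk k n m : ℤ) = k * n - t + r := by
      rw [hg]
      push_cast [Nat.cast_sub htk]
      ring
    rw [h4]
    have h5 : (c : ℤ) = t - r := by
      rw [hc]
      push_cast [Nat.cast_sub hrt]
      ring
    zify at h2 h3
    rw [h5] at h2
    linarith

end Pool.Agent.Chordal
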