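import Pool.Agent.Chordal.Lower
import Pool.Agent.Chordal.Upper

open Finset

namespace Pool.Agent.Chordal

theorem IsChordal.of_embedding {V W : Type*} {H : SimpleGraph V} {H' : SimpleGraph W}
    (h : IsChordal H) (e : H' ↪g H) : IsChordal H' :=
  fun n hn => ⟨fun f => (h n hn).false (f.trans e)⟩

/-- Every vertex of a cycle has a neighbour. -/
theorem exists_cycle_adj {n : ℕ} (hn : 4 ≤ n) (i : Fin n) :
    ∃ j, (SimpleGraph.cycleGraph n).Adj i j := by
  obtain ⟨m, rfl⟩ : ∃ m, n = m + 4 := ⟨n - 4, by omega⟩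
  refine ⟨i + 1, ?_⟩
  rw [SimpleGraph.cycleGraph_adj]
  right
  open scoped Fin.CommRing in ring

theorem isChordal_spanningCoe {V : Type*} {G : SimpleGraph V} {H : G.Subgraph}
    (h : IsChordal H.coe) : IsChordal H.spanningCoe := by
  intro n hn
  refine ⟨fun f => (h n hn).false ?_⟩
  have hv : ∀ i, f i ∈ H.verts := by
    intro i
    obtain ⟨j, hj⟩ := exists_cycle_adj hn i
    have h1 : H.spanningCoe.Adj (f i) (f j) := f.map_rel_iff.2 hj
    exact H.edge_vert h1
  exact ⟨⟨fun i => ⟨f i, hv i⟩, fun i j hij => f.injective (congrArg Subtype.val hij)⟩,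
    fun {i j} => f.map_rel_iff⟩

theorem edgeSet_spanningCoe {V : Type*} {G : SimpleGraph V} (H : G.Subgraph) :
    H.spanningCoe.edgeSet = H.edgeSet := by
  ext e
  refine Sym2.ind (fun u v => ?_) e
  rfl

theorem edgeSet_toSubgraph {V : Type*} {G : SimpleGraph V} (H : SimpleGraph V) (h : H ≤ G) :
    (SimpleGraph.toSubgraph H h).edgeSet = H.edgeSet := by
  ext e
  refine Sym2.ind (fun u v => ?_) e
  rfl

theorem isChordal_toSubgraph {V : Type*} {G : SimpleGraph V} {H : SimpleGraph V} (h : H ≤ G)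
    (hc : IsChordal H) : IsChordal (SimpleGraph.toSubgraph H h).coe :=
  hc.of_embedding ⟨⟨Subtype.val, Subtype.val_injective⟩, Iff.rfl⟩

theorem result (k n m : ℕ) (hk : 3 ≤ k) (hm : tn k n + 1 ≤ m) (hm2 : m ≤ tn (k + 1) n) :
    IsGreatest {s : ℤ | Guar n m s} ((gk k n m : ℤ) - (k + 1).choose 2) := by
  constructor
  · intro G hG
    obtain ⟨H, hle, hc, hs⟩ := lower k n m (by omega) (by omega) hm2 G hG
    refine ⟨SimpleGraph.toSubgraph H hle, isChordal_toSubgraph hle hc, ?_⟩
    rw [edgeSet_toSubgraph]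
    exact hs
  · intro s hs
    obtain ⟨G, hG, hU⟩ := upper k n m (by omega) (by omega) hm2
    obtain ⟨H, hc, hsH⟩ := hs G hG
    have h1 := hU H.spanningCoe (SimpleGraph.Subgraph.spanningCoe_le H) (isChordal_spanningCoe hc)
    rw [edgeSet_spanningCoe] at h1
    exact hsH.trans h1

end Pool.Agent.Chordal
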