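import Pool.Agent.Chordal.Defs

open Finset

namespace Pool.Agent.Chordal

/-- periodicity of the Turan numbers -/
theorem tn_add_self (k n : ℕ) : tn k (n + k) = tn k n + n * (k - 1) + k.choose 2 :=
  SimpleGraph.card_edgeFinset_turanGraph_add

theorem tn_small {k r : ℕ} (h : k = 0 ∨ r ≤ k) : tn k r = r.choose 2 := by
  have h1 : SimpleGraph.turanGraph r k = ⊤ := SimpleGraph.turanGraph_eq_top.2 h
  have h2 := SimpleGraph.card_edgeFinset_top_eq_card_choose_two (V := Fin r)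
  rw [Fintype.card_fin] at h2
  unfold tn
  rw [← h2]
  congr 1
  ext e
  simp only [SimpleGraph.mem_edgeFinset, h1]

theorem two_choose (r : ℕ) : 2 * ((r.choose 2 : ℕ) : ℤ) = (r : ℤ) * (r - 1) := by
  induction r with
  | zero => simp
  | succ r ih =>
    rw [Nat.choose_succ_succ', Nat.choose_one_right]
    push_cast at ih ⊢
    linarith

theorem two_tn_aux (k q r : ℕ) (hk : 1 ≤ k) (hr : r ≤ k) :
    2 * (tn k (k * q + r) : ℤ) = (q : ℤ) ^ 2 * k * (k - 1) + 2 * q * r * (k - 1) + r * (r - 1) := by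
  induction q with
  | zero =>
    rw [Nat.mul_zero, Nat.zero_add, tn_small (Or.inr hr)]
    rw [two_choose]
    push_cast
    ring
  | succ q ih =>
    have e : k * (q + 1) + r = (k * q + r) + k := by ring
    rw [e, tn_add_self]
    push_cast [Nat.cast_sub hk]
    have h2 := two_choose k
    linear_combination ih + h2

/-- `n² = 2 t_k(n) + (2q+1) n - k q (q+1)` for `q = n / k`. -/
theorem two_tn (k n : ℕ) (hk : 1 ≤ k) : (n : ℤ) ^ 2 = 2 * (tn k n : ℤ) +
    ((2 * (n / k : ℕ) + 1) * n - k * (n / k : ℕ) * ((n / k : ℕ) + 1)) := by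
  have h1 := two_tn_aux k (n / k) (n % k) hk (Nat.mod_lt n hk).le
  rw [Nat.div_add_mod] at h1
  have h2 : (n : ℤ) = k * (n / k : ℕ) + (n % k : ℕ) := by
    exact_mod_cast (Nat.div_add_mod n k).symm
  rw [h1]
  generalize ((n / k : ℕ) : ℤ) = q at *
  generalize ((n % k : ℕ) : ℤ) = r at *
  rw [h2]
  ring

/-- the Turan numbers as a maximum -/
theorem two_mul_tn_ge (k n : ℕ) (b : Fin k → ℕ) (hb : ∑ i, b i = n) :
    n ^ 2 ≤ 2 * tn k n + ∑ i, b i ^ 2 := by
  rcases Nat.eq_zero_or_pos k with hk | hk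
  · subst hk
    simp only [univ_eq_empty, sum_empty] at hb
    subst hb
    simp
  have h1 := two_tn k n hk
  have h2 : ∀ i, (2 * ((n / k : ℕ) : ℤ) + 1) * b i - (n / k : ℕ) * ((n / k : ℕ) + 1) ≤
      (b i : ℤ) ^ 2 := by
    intro i
    have h3 : 0 ≤ ((b i : ℤ) - (n / k : ℕ)) * ((b i : ℤ) - ((n / k : ℕ) + 1)) := by
      rcases le_or_gt (b i : ℤ) ((n / k : ℕ) : ℤ) with h | h
      · exact mul_nonneg_of_nonpos_of_nonpos (by linarith) (by linarith)
      · exact mul_nonneg (by linarith) (by linarith)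
    linarith [h3, show ((b i : ℤ) - (n / k : ℕ)) * ((b i : ℤ) - ((n / k : ℕ) + 1)) =
      (b i : ℤ) ^ 2 - ((2 * ((n / k : ℕ) : ℤ) + 1) * b i - (n / k : ℕ) * ((n / k : ℕ) + 1)) by ring]
  have h4 := Finset.sum_le_sum fun i (_ : i ∈ (univ : Finset (Fin k))) => h2 i
  rw [Finset.sum_sub_distrib, ← Finset.mul_sum] at h4
  simp only [sum_const, card_univ, Fintype.card_fin, nsmul_eq_mul] at h4
  have h5 : (∑ i, (b i : ℤ)) = n := by exact_mod_cast hb
  rw [h5] at h4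
  have h6 : (n : ℤ) ^ 2 ≤ 2 * (tn k n : ℤ) + ∑ i, (b i : ℤ) ^ 2 := by
    linarith
  exact_mod_cast h6

theorem exists_two_mul_tn (k n : ℕ) (hk : 1 ≤ k) :
    ∃ b : Fin k → ℕ, ∑ i, b i = n ∧ n ^ 2 = 2 * tn k n + ∑ i, b i ^ 2 := by
  have hmod := Nat.mod_lt n hk
  have hsum1 : ∑ i : Fin k, (if (i : ℕ) < n % k then 1 else 0) = n % k := by
    rw [Fin.sum_univ_eq_sum_range (fun i => if i < n % k then 1 else 0) k, ← Finset.sum_filter]
    have : (range k).filter (fun i => i < n % k) = range (n % k) := by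
      ext i
      simp only [mem_filter, mem_range]
      omega
    rw [this]
    simp
  let b : Fin k → ℕ := fun i => n / k + if (i : ℕ) < n % k then 1 else 0
  have hb : ∑ i, b i = n := by
    simp only [b]
    rw [Finset.sum_add_distrib, hsum1]
    simp only [sum_const, card_univ, Fintype.card_fin, smul_eq_mul]
    exact Nat.div_add_mod n k
  refine ⟨b, hb, ?_⟩
  have h1 := two_tn k n hk
  have h2 : ∀ i, (b i : ℤ) ^ 2 =
      (2 * ((n / k : ℕ) : ℤ) + 1) * b i - (n / k : ℕ) * ((n / k : ℕ) + 1) := by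
    intro i
    simp only [b]
    by_cases h : (i : ℕ) < n % k
    · rw [if_pos h]; push_cast; ring
    · rw [if_neg h]; push_cast; ring
  have h4 : ∑ i, (b i : ℤ) ^ 2 =
      (2 * ((n / k : ℕ) : ℤ) + 1) * n - k * (n / k : ℕ) * ((n / k : ℕ) + 1) := by
    rw [Finset.sum_congr rfl fun i _ => h2 i, Finset.sum_sub_distrib, ← Finset.mul_sum]
    have h5 : (∑ i, (b i : ℤ)) = n := by exact_mod_cast hb
    rw [h5]
    simp only [sum_const, card_univ, Fintype.card_fin, nsmul_eq_mul]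
    ring
  have h6 : (n : ℤ) ^ 2 = 2 * (tn k n : ℤ) + ∑ i, (b i : ℤ) ^ 2 := by
    rw [h4]; exact h1
  exact_mod_cast h6

theorem tn_two (r : ℕ) : tn 2 r = r ^ 2 / 4 := by
  have h := two_tn 2 r (by norm_num)
  rcases Nat.even_or_odd' r with ⟨q, hq | hq⟩
  · have h1 : r / 2 = q := by omega
    rw [h1, hq] at h
    have h2 : (tn 2 r : ℤ) = (q : ℤ) ^ 2 := by
      rw [hq]
      push_cast at h
      linarith
    have h3 : tn 2 r = q ^ 2 := by exact_mod_cast h2
    rw [h3, hq]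
    rw [show (2 * q) ^ 2 = 4 * q ^ 2 by ring]
    omega
  · have h1 : r / 2 = q := by omega
    rw [h1, hq] at h
    have h2 : (tn 2 r : ℤ) = (q : ℤ) ^ 2 + q := by
      rw [hq]
      push_cast at h
      linarith
    have h3 : tn 2 r = q ^ 2 + q := by exact_mod_cast h2
    rw [h3, hq]
    rw [show (2 * q + 1) ^ 2 = 4 * (q ^ 2 + q) + 1 by ring]
    omega

theorem exists_tn_succ (k n : ℕ) (hk : 2 ≤ k) :
    ∃ t ≤ n, tn (k + 1) n ≤ tn (k - 1) (n - t) + t * (n - t) + tn 2 t := by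
  obtain ⟨m, rfl⟩ : ∃ m, k = m + 2 := ⟨k - 2, by omega⟩
  obtain ⟨b, hb, hb2⟩ := exists_two_mul_tn (m + 2 + 1) n (by omega)
  have e : m + 2 - 1 = m + 1 := by omega
  rw [e]
  rw [Fin.sum_univ_succ, Fin.sum_univ_succ] at hb hb2
  refine ⟨b 0 + b (Fin.succ 0), by omega, ?_⟩
  obtain ⟨s, hs⟩ : ∃ s, s = ∑ i : Fin (m + 1), b i.succ.succ := ⟨_, rfl⟩
  obtain ⟨u, hu⟩ : ∃ u, u = b 0 + b (Fin.succ 0) := ⟨_, rfl⟩
  have hn : n = u + s := by
    rw [hu, hs, ← hb]
    ring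
  have h1 := two_mul_tn_ge (m + 1) s (fun i => b i.succ.succ) hs.symm
  have h2 := two_mul_tn_ge 2 u ![b 0, b (Fin.succ 0)] (by simp [hu])
  rw [← hu]
  rw [show n - u = s by omega]
  simp only [Fin.sum_univ_two, Matrix.cons_val_zero, Matrix.cons_val_one] at h2
  have h3 : n ^ 2 = u ^ 2 + 2 * (u * s) + s ^ 2 := by rw [hn]; ring
  omega

theorem tn_add_le (k n t : ℕ) (hk : 2 ≤ k) (ht : t ≤ n) :
    tn (k - 1) (n - t) + t * (n - t) ≤ tn k n := by
  obtain ⟨m, rfl⟩ : ∃ m, k = m + 2 := ⟨k - 2, by omega⟩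
  have e : m + 2 - 1 = m + 1 := by omega
  rw [e]
  obtain ⟨s, rfl⟩ : ∃ s, n = t + s := ⟨n - t, by omega⟩
  rw [show t + s - t = s by omega]
  obtain ⟨b, hb, hb2⟩ := exists_two_mul_tn (m + 1) s (by omega)
  have h1 := two_mul_tn_ge (m + 2) (t + s) (Fin.cons t b) (by
    rw [Fin.sum_univ_succ]
    simp [hb])
  rw [Fin.sum_univ_succ] at h1
  simp only [Fin.cons_zero, Fin.cons_succ] at h1
  have h3 : (t + s) ^ 2 = t ^ 2 + 2 * (t * s) + s ^ 2 := by ring
  omega

end Pool.Agent.Chordal
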