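import Pool.Agent.Chordal.Bounds
import Pool.Agent.Chordal.Turan

open Finset

namespace Pool.Agent.Chordal

theorem exists_mid (c a : ℕ → ℕ) (j : ℕ) : ∀ n : ℕ, (∀ i < j, c i ≤ a i) →
    ∑ i ∈ range j, c i ≤ n → n ≤ ∑ i ∈ range j, a i →
    ∃ b : ℕ → ℕ, (∀ i < j, c i ≤ b i ∧ b i ≤ a i) ∧ ∑ i ∈ range j, b i = n := by
  induction j with
  | zero =>
    intro n _ _ h
    exact ⟨fun _ => 0, by simp, by simpa using h.antisymm' (Nat.zero_le _)⟩
  | succ j ih =>
    intro n h h1 h2
    rw [sum_range_succ] at h1 h2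
    have hj := h j (Nat.lt_succ_self j)
    have hs : ∑ i ∈ range j, c i ≤ ∑ i ∈ range j, a i :=
      sum_le_sum fun i hi => h i (Nat.lt_succ_of_lt (mem_range.1 hi))
    obtain ⟨m, hm1, hm2, hm3, hm4, hm5⟩ : ∃ m, c j ≤ m ∧ m ≤ a j ∧ m ≤ n ∧
        ∑ i ∈ range j, c i ≤ n - m ∧ n - m ≤ ∑ i ∈ range j, a i := by
      rcases Nat.le_total (a j) (n - ∑ i ∈ range j, c i) with h3 | h3
      · exact ⟨a j, hj, le_rfl, by omega, by omega, by omega⟩
      · exact ⟨n - ∑ i ∈ range j, c i, by omega, h3, by omega, by omega, by omega⟩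
    obtain ⟨b, hb, hb2⟩ := ih (n - m) (fun i hi => h i (Nat.lt_succ_of_lt hi)) hm4 hm5
    refine ⟨fun i => if i = j then m else b i, ?_, ?_⟩
    · intro i hi
      by_cases hij : i = j
      · subst hij
        simp [hm1, hm2]
      · simp only [hij, if_false]
        exact hb i (by omega)
    · rw [sum_range_succ, if_pos rfl]
      have : ∑ i ∈ range j, (if i = j then m else b i) = ∑ i ∈ range j, b i := by
        refine sum_congr rfl fun i hi => ?_
        rw [if_neg]
        have := mem_range.1 hi
        omega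
      rw [this, hb2]
      omega

variable {V : Type} [Fintype V] [DecidableEq V] (G : SimpleGraph V) [DecidableRel G.Adj]

/-- greedy sequences of length `j` -/
def Gr (v : ℕ → V) (j : ℕ) : Prop :=
  (∀ i < j, ∀ i' < j, i ≠ i' → G.Adj (v i) (v i')) ∧
  ∀ i < j, ∀ u, (∀ i' < i, G.Adj u (v i')) → G.degree u ≤ G.degree (v i)

theorem Gr.extend {v : ℕ → V} {j : ℕ} (h : Gr G v j)
    (hs : ∑ i ∈ range j, fn G (v i) < Fintype.card V) :
    ∃ v' : ℕ → V, (∀ i < j, v' i = v i) ∧ Gr G v' (j + 1) := by
  -- common neighbours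
  have hne : (univ.filter (fun u => ∀ i < j, G.Adj u (v i))).Nonempty := by
    by_contra hcon
    rw [not_nonempty_iff_eq_empty] at hcon
    have hcov : (univ : Finset V) ⊆ (range j).biUnion
        (fun i => univ.filter (fun z => ¬ G.Adj (v i) z)) := by
      intro u _
      have hu : u ∉ univ.filter (fun u => ∀ i < j, G.Adj u (v i)) := by rw [hcon]; simp
      simp only [mem_filter, mem_univ, true_and, not_forall] at hu
      obtain ⟨i, hi, h2⟩ := hu
      refine mem_biUnion.2 ⟨i, mem_range.2 hi, ?_⟩
      simp only [mem_filter, mem_univ, true_and]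
      rwa [G.adj_comm]
    have h2 := (card_le_card hcov).trans card_biUnion_le
    have h3 : ((∑ i ∈ range j, (univ.filter (fun z => ¬ G.Adj (v i) z)).card : ℕ) : ℤ) =
        ∑ i ∈ range j, fn G (v i) := by
      rw [Nat.cast_sum]
      exact sum_congr rfl fun i _ => (fn_eq _).symm
    rw [card_univ] at h2
    rw [← h3] at hs
    have : (Fintype.card V : ℤ) ≤
        ((∑ i ∈ range j, (univ.filter (fun z => ¬ G.Adj (v i) z)).card : ℕ) : ℤ) := by
      exact_mod_cast h2
    omega
  obtain ⟨z, hz, hmax⟩ := exists_max_image _ (fun u => G.degree u) hne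
  simp only [mem_filter, mem_univ, true_and] at hz hmax
  refine ⟨fun i => if i < j then v i else z, fun i hi => by simp [hi], ?_, ?_⟩
  · intro i hi i' hi' hne'
    by_cases h1 : i < j
    · by_cases h2 : i' < j
      · simp only [h1, h2, if_true]
        exact h.1 i h1 i' h2 hne'
      · simp only [h1, h2, if_true, if_false]
        exact (hz i h1).symm
    · by_cases h2 : i' < j
      · simp only [h1, h2, if_true, if_false]
        exact hz i' h2
      · omega
  · intro i hi u hu
    by_cases h1 : i < j
    · have e : (fun i => if i < j then v i else z) i = v i := if_pos h1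
      rw [e]
      refine h.2 i h1 u fun i' hi' => ?_
      have := hu i' hi'
      simpa only [hi'.trans h1, if_true] using this
    · have e : (fun i => if i < j then v i else z) i = z := if_neg h1
      rw [e]
      refine hmax u fun i' hi' => ?_
      have := hu i' (by omega)
      simpa only [hi', if_true] using this

omit [DecidableEq V] in
/-- a greedy sequence of length at most `k` with many non-neighbours forces few edges -/
theorem Gr.le_tn {v : ℕ → V} {j k : ℕ} (h : Gr G v j) (hj : 1 ≤ j) (hjk : j ≤ k)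
    (hs : (Fintype.card V : ℤ) ≤ ∑ i ∈ range j, fn G (v i)) :
    G.edgeFinset.card ≤ tn k (Fintype.card V) := by
  classical
  have hex : ∀ u : V, ∃ i, i = j ∨ ¬ G.Adj u (v i) := fun u => ⟨j, Or.inl rfl⟩
  let g : V → ℕ := fun u => Nat.find (hex u)
  have hgle : ∀ u, g u ≤ j := fun u => Nat.find_min' (hex u) (Or.inl rfl)
  have hg1 : ∀ u, ∀ i < g u, G.Adj u (v i) := fun u i hi => by
    have := Nat.find_min (hex u) hi
    push Not at this
    exact this.2
  have hg2 : ∀ u, g u < j → ¬ G.Adj u (v (g u)) := fun u hu => by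
    rcases Nat.find_spec (hex u) with h1 | h1
    · exact absurd h1 (ne_of_lt hu)
    · exact h1
  let a : ℕ → ℕ := fun i => (univ.filter (fun z => ¬ G.Adj (v i) z)).card
  have ha : ∀ i, (a i : ℤ) = fn G (v i) := fun i => (fn_eq _).symm
  let c : ℕ → ℕ := fun i => (univ.filter (fun u => g u = i)).card
  have hca : ∀ i < j, c i ≤ a i := by
    intro i hi
    refine card_le_card fun u hu => ?_
    simp only [mem_filter, mem_univ, true_and] at hu ⊢
    rw [G.adj_comm]
    have := hg2 u (by omega)
    rwa [hu] at this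
  have hcsum : ∑ i ∈ range (j + 1), c i = Fintype.card V := by
    have := card_eq_sum_card_fiberwise (s := (univ : Finset V)) (t := range (j + 1)) (f := g)
      (fun u _ => by simpa using Nat.lt_succ_of_le (hgle u))
    rw [card_univ] at this
    exact this.symm
  rw [sum_range_succ] at hcsum
  have hsN : Fintype.card V ≤ ∑ i ∈ range j, a i := by
    have : ((∑ i ∈ range j, a i : ℕ) : ℤ) = ∑ i ∈ range j, fn G (v i) := by
      rw [Nat.cast_sum]
      exact sum_congr rfl fun i _ => ha i
    rw [← this] at hs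
    exact_mod_cast hs
  obtain ⟨b, hb, hbs⟩ := exists_mid c a j (Fintype.card V) hca (by omega) hsN
  -- degrees
  have hmono : ∀ i < j, fn G (v i) ≤ fn G (v (j - 1)) := by
    intro i hi
    have := h.2 i hi (v (j - 1)) (fun i' hi' => h.1 _ (by omega) _ (by omega) (by omega))
    unfold fn
    omega
  have hfle : ∀ u, g u < j → fn G (v (g u)) ≤ fn G u := by
    intro u hu
    have := h.2 (g u) hu u (hg1 u)
    unfold fn
    omega
  have hflast : ∀ u, g u = j → fn G (v (j - 1)) ≤ fn G u := by
    intro u hu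
    have := h.2 (j - 1) (by omega) u (fun i' hi' => hg1 u i' (by omega))
    unfold fn
    omega
  have hsumf : ∑ i ∈ range j, (b i : ℤ) ^ 2 ≤ ∑ u, fn G u := by
    have h1 : ∑ u, fn G u = ∑ i ∈ range (j + 1), ∑ u ∈ univ.filter (fun u => g u = i), fn G u := by
      rw [sum_fiberwise_of_maps_to (fun u _ => mem_range.2 (Nat.lt_succ_of_le (hgle u)))]
    rw [h1, sum_range_succ]
    have h2 : ∀ i ∈ range j, (c i : ℤ) * a i ≤ ∑ u ∈ univ.filter (fun u => g u = i), fn G u := by
      intro i hi
      rw [mem_range] at hi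
      have : ∑ u ∈ univ.filter (fun u => g u = i), fn G (v i) ≤
          ∑ u ∈ univ.filter (fun u => g u = i), fn G u := by
        refine sum_le_sum fun u hu => ?_
        simp only [mem_filter, mem_univ, true_and] at hu
        have h3 := hfle u (by omega)
        rwa [hu] at h3
      rw [sum_const, nsmul_eq_mul, ← ha] at this
      exact this
    have h3 : (c j : ℤ) * a (j - 1) ≤ ∑ u ∈ univ.filter (fun u => g u = j), fn G u := by
      have : ∑ u ∈ univ.filter (fun u => g u = j), fn G (v (j - 1)) ≤
          ∑ u ∈ univ.filter (fun u => g u = j), fn G u := by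
        refine sum_le_sum fun u hu => ?_
        simp only [mem_filter, mem_univ, true_and] at hu
        exact hflast u hu
      rw [sum_const, nsmul_eq_mul, ← ha] at this
      exact this
    have h4 : (c j : ℤ) = ∑ i ∈ range j, ((b i : ℤ) - c i) := by
      rw [sum_sub_distrib]
      have : ((∑ i ∈ range j, b i : ℕ) : ℤ) = (∑ i ∈ range j, c i : ℕ) + c j := by
        rw [hbs, ← hcsum]
        push_cast
        rfl
      push_cast at this
      linarith
    have h5 : ∑ i ∈ range j, ((b i : ℤ) - c i) * a i ≤ c j * a (j - 1) := by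
      rw [h4, sum_mul]
      refine sum_le_sum fun i hi => ?_
      rw [mem_range] at hi
      have h6 := (hb i hi).1
      have h7 := hmono i hi
      rw [← ha, ← ha] at h7
      have h8 : (0 : ℤ) ≤ (b i : ℤ) - c i := by omega
      exact mul_le_mul_of_nonneg_left h7 h8
    calc ∑ i ∈ range j, (b i : ℤ) ^ 2 ≤ ∑ i ∈ range j, (b i : ℤ) * a i := by
          refine sum_le_sum fun i hi => ?_
          have h6 := (hb i (mem_range.1 hi)).2
          have h7 : (b i : ℤ) ≤ a i := by exact_mod_cast h6
          have h8 : (0 : ℤ) ≤ b i := by positivity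
          nlinarith
      _ = ∑ i ∈ range j, (c i : ℤ) * a i + ∑ i ∈ range j, ((b i : ℤ) - c i) * a i := by
          rw [← sum_add_distrib]
          exact sum_congr rfl fun i _ => by ring
      _ ≤ _ := add_le_add (sum_le_sum h2) (h5.trans h3)
  rw [Setup.sum_fn] at hsumf
  -- Turan numbers
  have htn := two_mul_tn_ge k (Fintype.card V) (fun i : Fin k => if (i : ℕ) < j then b i else 0) (by
    rw [Fin.sum_univ_eq_sum_range (fun i => if i < j then b i else 0) k, ← hbs]
    symm
    rw [← sum_filter]
    refine sum_congr ?_ fun _ _ => rfl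
    ext i
    simp only [mem_filter, mem_range]
    omega)
  have h9 : ∑ i : Fin k, (if (i : ℕ) < j then b i else 0) ^ 2 = ∑ i ∈ range j, b i ^ 2 := by
    rw [Fin.sum_univ_eq_sum_range (fun i => (if i < j then b i else 0) ^ 2) k]
    have : ∀ i, (if i < j then b i else 0) ^ 2 = if i < j then b i ^ 2 else 0 := by
      intro i
      split_ifs <;> simp
    simp_rw [this]
    rw [← sum_filter]
    refine sum_congr ?_ fun _ _ => rfl
    ext i
    simp only [mem_filter, mem_range]
    omega
  rw [h9] at htn
  have h10 : ((Fintype.card V : ℤ)) ^ 2 ≤ 2 * tn k (Fintype.card V) +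
      ∑ i ∈ range j, (b i : ℤ) ^ 2 := by exact_mod_cast htn
  have h11 : (G.edgeFinset.card : ℤ) ≤ tn k (Fintype.card V) := by linarith
  exact_mod_cast h11

/-- existence of the greedy clique -/
theorem exists_setup (k : ℕ) (h : tn k (Fintype.card V) < G.edgeFinset.card) :
    Nonempty (Setup G k) := by
  have hn : 0 < Fintype.card V := by
    rw [Fintype.card_pos_iff]
    obtain ⟨e, he⟩ := card_pos.1 (by omega : 0 < G.edgeFinset.card)
    induction e with
    | h x y => exact ⟨x⟩
  obtain ⟨x0⟩ := Fintype.card_pos_iff.1 hn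
  have key : ∀ j ≤ k, ∃ v : ℕ → V, Gr G v j ∧ ∑ i ∈ range j, fn G (v i) < Fintype.card V := by
    intro j
    induction j with
    | zero =>
      intro _
      exact ⟨fun _ => x0, ⟨by simp, by simp⟩, by simpa using hn⟩
    | succ j ih =>
      intro hj
      obtain ⟨v, hv, hv2⟩ := ih (by omega)
      obtain ⟨v', _, hv'⟩ := hv.extend G hv2
      refine ⟨v', hv', ?_⟩
      by_contra hcon
      have := hv'.le_tn G (by omega) hj (not_lt.1 hcon)
      omega
  obtain ⟨v, hv, hv2⟩ := key k le_rfl
  obtain ⟨v', hvv, hv'⟩ := hv.extend G hv2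
  refine ⟨⟨fun i => v' i, ?_, ?_, ?_⟩⟩
  · intro i j hij
    exact hv'.1 i i.2 j j.2 fun h => hij (Fin.ext h)
  · intro i u hu
    refine hv'.2 i i.2 u fun i' hi' => ?_
    exact hu ⟨i', hi'.trans i.2⟩ hi'
  · have : ∑ i : Fin k, fn G (v' (i.castSucc : ℕ)) = ∑ i ∈ range k, fn G (v i) := by
      rw [← Fin.sum_univ_eq_sum_range (fun i => fn G (v i)) k]
      refine sum_congr rfl fun i _ => ?_
      rw [Fin.val_castSucc, hvv i i.2]
    rw [this]
    exact hv2

end Pool.Agent.Chordal
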