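import Pool.Agent.Chordal.Combine
import Pool.Agent.Chordal.Greedy
import Pool.Agent.Chordal.Turan

open Finset

namespace Pool.Agent.Chordal

/-- `two_mul_tn_ge` over the integers -/
theorem two_mul_tn_ge' (k : ℕ) (n : ℤ) (b : Fin k → ℤ) (hb0 : ∀ i, 0 ≤ b i)
    (hb : ∑ i, b i = n) : n ^ 2 ≤ 2 * (tn k n.toNat : ℤ) + ∑ i, b i ^ 2 := by
  have hn : 0 ≤ n := by
    rw [← hb]
    exact sum_nonneg fun i _ => hb0 i
  have h := two_mul_tn_ge k n.toNat (fun i => (b i).toNat) (by
    have : ((∑ i, (b i).toNat : ℕ) : ℤ) = n := by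
      rw [Nat.cast_sum, ← hb]
      exact sum_congr rfl fun i _ => Int.toNat_of_nonneg (hb0 i)
    omega)
  have h2 : ((n.toNat : ℕ) : ℤ) ^ 2 ≤ 2 * (tn k n.toNat : ℤ) + ∑ i, (((b i).toNat : ℕ) : ℤ) ^ 2 := by
    exact_mod_cast h
  rw [Int.toNat_of_nonneg hn] at h2
  have h3 : ∑ i, (((b i).toNat : ℕ) : ℤ) ^ 2 = ∑ i, b i ^ 2 :=
    sum_congr rfl fun i _ => by rw [Int.toNat_of_nonneg (hb0 i)]
  rwa [h3] at h2

/-- **lower bound** for one graph -/
theorem lower (k n m : ℕ) (hk : 2 ≤ k) (hm : tn k n < m) (hm2 : m ≤ tn (k + 1) n)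
    (G : SimpleGraph (Fin n)) (hG : G.edgeSet.ncard = m) :
    ∃ H : SimpleGraph (Fin n), H ≤ G ∧ IsChordal H ∧
      (gk k n m : ℤ) - (k + 1).choose 2 ≤ (H.edgeSet.ncard : ℤ) := by
  classical
  have hG2 : G.edgeFinset.card = m := by
    rw [← hG, ← SimpleGraph.coe_edgeFinset, Set.ncard_coe_finset]
  have hcard : Fintype.card (Fin n) = n := Fintype.card_fin n
  obtain ⟨S⟩ := exists_setup G k (by rw [hcard, hG2]; exact hm)
  obtain ⟨H, hHG, hH, hmain⟩ := S.exists_H
  refine ⟨H, hHG, hH, ?_⟩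
  set e : ℤ := (H.edgeSet.ncard : ℤ) with he
  rw [S.sum_R, hcard, hG2] at hmain
  -- the waste
  obtain ⟨w, hw⟩ : ∃ w : ℤ, w = k * n - (k + 1).choose 2 - e := ⟨_, rfl⟩
  have hEw : e + (k + 1).choose 2 + S.w - k * n = S.w - w := by rw [hw]; ring
  rw [hEw] at hmain
  rcases le_or_gt w 0 with hw0 | hw0
  · obtain ⟨t, ht, ht2⟩ := exists_tn_succ k n hk
    have h1 : gk k n m ≤ k * n := Nat.sInf_le ⟨t, t, ht, hm2.trans ht2, by
      have : t ≤ k * n := ht.trans (Nat.le_mul_of_pos_left n (by omega))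
      omega⟩
    have h2 : (gk k n m : ℤ) ≤ k * n := by exact_mod_cast h1
    linarith
  · obtain ⟨l, rfl⟩ : ∃ l, k = l + 1 := ⟨k - 1, by omega⟩
    have hs := S.one_le_s
    have hA := S.A_eq
    obtain ⟨c, hc⟩ : ∃ c : ℤ, c = S.a (Fin.last l).castSucc := ⟨_, rfl⟩
    have hc1 : 1 ≤ c := hc ▸ S.one_le_a _
    have hsum : ∑ i : Fin l, S.a i.castSucc.castSucc + c + S.s = n := by
      have : S.s = (Fintype.card (Fin n) : ℤ) - ∑ i : Fin (l + 1), S.a i.castSucc := rfl
      rw [Fin.sum_univ_castSucc, ← hc, hcard] at this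
      linarith
    have hsq : ∑ i, S.a i ^ 2 = ∑ i : Fin l, S.a i.castSucc.castSucc ^ 2 + c ^ 2 + S.A ^ 2 := by
      rw [Fin.sum_univ_castSucc, Fin.sum_univ_castSucc, ← hc]
      rfl
    rw [hsq, hA] at hmain
    have hb0 : ∀ i : Fin l, 0 ≤ S.a i.castSucc.castSucc := fun i => by
      have := S.one_le_a i.castSucc.castSucc
      omega
    -- MAIN
    have hMAIN : 2 * (m : ℤ) ≤ (n : ℤ) ^ 2 - ∑ i : Fin l, S.a i.castSucc.castSucc ^ 2 - c ^ 2
        - S.s ^ 2 - 2 * S.s * w := by nlinarith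
    rcases le_or_gt c w with hcw | hcw
    · exfalso
      have h1 := two_mul_tn_ge' (l + 1) n
        (Fin.snoc (fun i : Fin l => S.a i.castSucc.castSucc) (c + S.s) : Fin (l + 1) → ℤ)
        (by
          intro i
          refine Fin.lastCases ?_ (fun i => ?_) i
          · rw [Fin.snoc_last]; omega
          · rw [Fin.snoc_castSucc]; exact hb0 i)
        (by
          rw [Fin.sum_univ_castSucc]
          simp only [Fin.snoc_last, Fin.snoc_castSucc]
          linarith)
      rw [Fin.sum_univ_castSucc] at h1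
      simp only [Fin.snoc_last, Fin.snoc_castSucc, Int.toNat_natCast] at h1
      have h2 : (m : ℤ) ≤ tn (l + 1) n := by nlinarith
      have h3 : m ≤ tn (l + 1) n := by exact_mod_cast h2
      omega
    · -- `t = c + s`, `r = t - w`
      have ht0 : 0 ≤ c + S.s := by omega
      have hr0 : 0 ≤ c + S.s - w := by omega
      have hnt : 0 ≤ ∑ i : Fin l, S.a i.castSucc.castSucc := sum_nonneg fun i _ => hb0 i
      have h1 := two_mul_tn_ge' l (∑ i : Fin l, S.a i.castSucc.castSucc) _ hb0 rfl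
      have h2 := two_mul_tn_ge' 2 (c + S.s - w) ![c - w, S.s] (by
        intro i
        fin_cases i
        · show 0 ≤ c - w; omega
        · show 0 ≤ S.s; omega) (by
        simp only [Fin.sum_univ_two, Matrix.cons_val_zero, Matrix.cons_val_one]
        ring)
      simp only [Fin.sum_univ_two, Matrix.cons_val_zero, Matrix.cons_val_one] at h2
      obtain ⟨t, ht⟩ : ∃ t : ℕ, (t : ℤ) = c + S.s := ⟨_, Int.toNat_of_nonneg ht0⟩
      obtain ⟨r, hr⟩ : ∃ r : ℕ, (r : ℤ) = c + S.s - w := ⟨_, Int.toNat_of_nonneg hr0⟩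
      have htn : t ≤ n := by
        have : (t : ℤ) ≤ n := by linarith
        exact_mod_cast this
      have hd : (∑ i : Fin l, S.a i.castSucc.castSucc).toNat = n - t := by omega
      have hd2 : (c + S.s - w).toNat = r := by omega
      have hdz : ((n - t : ℕ) : ℤ) = ∑ i : Fin l, S.a i.castSucc.castSucc := by omega
      rw [hd] at h1
      rw [hd2] at h2
      have h3 : (m : ℤ) ≤ tn l (n - t) + t * ((n - t : ℕ) : ℤ) + tn 2 r := by
        rw [hdz, ht]
        have hn : (n : ℤ) = ∑ i : Fin l, S.a i.castSucc.castSucc + c + S.s := hsum.symm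
        rw [hn] at hMAIN
        nlinarith
      have h4 : gk (l + 1) n m ≤ (l + 1) * n - t + r := Nat.sInf_le ⟨t, r, htn, by
        rw [Nat.add_sub_cancel]
        exact_mod_cast h3, rfl⟩
      have h5 : ((gk (l + 1) n m : ℕ) : ℤ) ≤ (((l + 1) * n - t + r : ℕ) : ℤ) := by exact_mod_cast h4
      have h6 : (((l + 1) * n - t + r : ℕ) : ℤ) = (l + 1) * n - t + r := by
        have : t ≤ (l + 1) * n := htn.trans (Nat.le_mul_of_pos_left n (by omega))
        push_cast [Nat.cast_sub this]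
        ring
      rw [h6] at h5
      push_cast at hw h5 ⊢
      linarith

end Pool.Agent.Chordal
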