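import Mathlib

/-!
# Chordal graphs built by successive attachments to cliques
-/

namespace Pool.Agent.Chordal

open Finset
open scoped Fin.CommRing

/-- A graph is chordal if it has no induced cycle of length at least `4`. -/
def IsChordal {V : Type*} (H : SimpleGraph V) : Prop :=
  ∀ n ≥ 4, IsEmpty (SimpleGraph.cycleGraph n ↪g H)

/-- the graph with edges `u v`, `v ∈ C u` -/
def attachGraph {V : Type*} (C : V → Finset V) (r : V → ℕ)
    (hr : ∀ u, ∀ v ∈ C u, r v < r u) : SimpleGraph V where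
  Adj u v := u ∈ C v ∨ v ∈ C u
  symm := ⟨fun _ _ h => h.symm⟩
  loopless := ⟨fun u h => by
    rcases h with h | h <;> exact lt_irrefl _ (hr u u h)⟩

theorem attachGraph_isChordal {V : Type*} (C : V → Finset V) (r : V → ℕ)
    (hr : ∀ u, ∀ v ∈ C u, r v < r u)
    (hnest : ∀ u, ∀ p ∈ C u, ∀ q ∈ C u, p ≠ q → p ∈ C q ∨ q ∈ C p) :
    IsChordal (attachGraph C r hr) := by
  intro n hn
  obtain ⟨m, rfl⟩ : ∃ m, n = m + 4 := ⟨n - 4, by omega⟩
  refine ⟨fun f => ?_⟩
  obtain ⟨i, -, hi⟩ := Finset.exists_max_image (univ : Finset (Fin (m + 4))) (fun i => r (f i))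
    ⟨0, mem_univ _⟩
  have key : ∀ j, (SimpleGraph.cycleGraph (m + 4)).Adj i j → f j ∈ C (f i) := by
    intro j hj
    rcases f.map_rel_iff.2 hj with h | h
    · exact absurd (hr _ _ h) (not_lt.2 (hi j (mem_univ _)))
    · exact h
  have h1 : (SimpleGraph.cycleGraph (m + 4)).Adj i (i + 1) := by
    rw [SimpleGraph.cycleGraph_adj]
    right
    ring
  have h2 : (SimpleGraph.cycleGraph (m + 4)).Adj i (i - 1) := by
    rw [SimpleGraph.cycleGraph_adj]
    left
    ring
  have h2' : (2 : Fin (m + 4)) ≠ 0 := by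
    intro h
    have h' := congrArg Fin.val h
    have h3 : ((2 : Fin (m + 4)) : ℕ) = 2 := by
      show 2 % (m + 4) = 2
      exact Nat.mod_eq_of_lt (by omega)
    rw [h3] at h'
    simp at h'
  have h12 : f (i + 1) ≠ f (i - 1) := by
    intro h
    have h3 := f.injective h
    apply h2'
    calc (2 : Fin (m + 4)) = (i + 1) - (i - 1) := by ring
      _ = 0 := by rw [h3]; ring
  have h3 : (attachGraph C r hr).Adj (f (i + 1)) (f (i - 1)) := hnest _ _ (key _ h1) _ (key _ h2) h12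
  have h4 : (SimpleGraph.cycleGraph (m + 4)).Adj (i + 1) (i - 1) := f.map_rel_iff.1 h3
  rw [SimpleGraph.cycleGraph_adj] at h4
  rcases h4 with h4 | h4
  · have h5 : (2 : Fin (m + 4)) = 1 := by
      rw [← h4]; ring
    have h6 := congrArg Fin.val h5
    have h7 : ((2 : Fin (m + 4)) : ℕ) = 2 := by
      show 2 % (m + 4) = 2
      exact Nat.mod_eq_of_lt (by omega)
    have h8 : ((1 : Fin (m + 4)) : ℕ) = 1 := by
      show 1 % (m + 4) = 1
      exact Nat.mod_eq_of_lt (by omega)
    rw [h7, h8] at h6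
    simp at h6
  · have h5 : (3 : Fin (m + 4)) = 0 := by
      calc (3 : Fin (m + 4)) = 1 - ((i - 1) - (i + 1)) := by ring
        _ = 0 := by rw [h4]; ring
    have h6 := congrArg Fin.val h5
    have h7 : ((3 : Fin (m + 4)) : ℕ) = 3 := by
      show 3 % (m + 4) = 3
      exact Nat.mod_eq_of_lt (by omega)
    rw [h7] at h6
    simp at h6

theorem attachGraph_card {V : Type*} [Fintype V] (C : V → Finset V) (r : V → ℕ)
    (hr : ∀ u, ∀ v ∈ C u, r v < r u) :
    (attachGraph C r hr).edgeSet.ncard = ∑ u, (C u).card := by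
  classical
  rw [← Finset.card_sigma, ← Set.ncard_coe_finset]
  symm
  refine Set.ncard_congr (fun a _ => s(a.1, a.2)) ?_ ?_ ?_
  · rintro ⟨u, v⟩ h
    rw [Finset.mem_coe, Finset.mem_sigma] at h
    show (attachGraph C r hr).Adj u v
    exact Or.inr h.2
  · rintro ⟨u, v⟩ ⟨u', v'⟩ h h' he
    rw [Finset.mem_coe, Finset.mem_sigma] at h h'
    simp only at h h' he
    rcases Sym2.eq_iff.1 he with ⟨rfl, rfl⟩ | ⟨rfl, rfl⟩
    · rfl
    · exact absurd (hr _ _ h.2) (not_lt.2 (hr _ _ h'.2).le)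
  · intro e
    refine Sym2.ind (fun u v => ?_) e
    intro h
    rcases (h : (attachGraph C r hr).Adj u v) with h | h
    · exact ⟨⟨v, u⟩, by simpa using h, Sym2.eq_swap⟩
    · exact ⟨⟨u, v⟩, by simpa using h, rfl⟩

/-- A family of attachments gives a chordal subgraph. -/
theorem exists_chordal {V : Type*} [Fintype V] (G : SimpleGraph V) (C : V → Finset V) (r : V → ℕ)
    (hadj : ∀ u, ∀ v ∈ C u, G.Adj u v) (hr : ∀ u, ∀ v ∈ C u, r v < r u)
    (hnest : ∀ u, ∀ p ∈ C u, ∀ q ∈ C u, p ≠ q → p ∈ C q ∨ q ∈ C p) :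
    ∃ H ≤ G, IsChordal H ∧ H.edgeSet.ncard = ∑ u, (C u).card := by
  refine ⟨attachGraph C r hr, ?_, attachGraph_isChordal C r hr hnest, attachGraph_card C r hr⟩
  intro u v h
  rcases h with h | h
  · exact (hadj v u h).symm
  · exact hadj u v h

end Pool.Agent.Chordal
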