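import Pool.Agent.Chordal.Defs

open Finset

namespace Pool.Agent.Chordal

variable {V : Type} [Fintype V] [DecidableEq V] {G : SimpleGraph V} [DecidableRel G.Adj] {k : ℕ}

/-- number of non-neighbours of `u` (with `u` itself) -/
def fn (G : SimpleGraph V) [DecidableRel G.Adj] (u : V) : ℤ :=
  (Fintype.card V : ℤ) - G.degree u

/-- A greedy clique `v 0, ..., v k` with `n > a_0 + ... + a_{k-1}`. -/
structure Setup (G : SimpleGraph V) [DecidableRel G.Adj] (k : ℕ) where
  v : Fin (k + 1) → V
  adj : ∀ i j, i ≠ j → G.Adj (v i) (v j)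
  greedy : ∀ i u, (∀ j, j < i → G.Adj u (v j)) → G.degree u ≤ G.degree (v i)
  pos : ∑ i : Fin k, fn G (v i.castSucc) < Fintype.card V

namespace Setup

variable (S : Setup G k)

def a (i : Fin (k + 1)) : ℤ := fn G (S.v i)

/-- `a_{k+1}` -/
def A : ℤ := S.a (Fin.last k)

/-- `s_0 = n - a_1 - ... - a_k` -/
def s : ℤ := (Fintype.card V : ℤ) - ∑ i : Fin k, S.a i.castSucc

/-- `w' = a_{k+1} - s_0` -/
def w : ℤ := S.A - S.s

/-- indices of the vertices of the clique not adjacent to `u` -/
def M (u : V) : Finset (Fin (k + 1)) := univ.filter (fun i => ¬ G.Adj u (S.v i))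

def x (u : V) : ℤ := ((S.M u).card : ℤ) - 1

/-- `cost(u) - x_u w'`, that is `2 s_0 rho(u)` -/
def R (u : V) : ℤ := ∑ i ∈ S.M u, S.a i - fn G u - S.x u * S.w

/-- the clique as a finset -/
def K : Finset V := univ.image S.v

/-- neighbours of `u` in the clique -/
def Kn (u : V) : Finset V := S.K.filter (G.Adj u)

/-- the vertices with `x_u ≥ 1` -/
def W : Finset V := univ.filter (fun u => 2 ≤ (S.M u).card)

/-- the vertices adjacent to all of the clique -/
def Q : Finset V := univ.filter (fun u => S.M u = ∅)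

def P : Finset V := univ.filter (fun u => (S.M u).card = 1 ∧ S.A + S.s < fn G u)

/-- `N(u) ∩ N(S)`, `S` = neighbours of `u` in the clique -/
def N (u : V) : Finset V := univ.filter (fun z => G.Adj u z ∧ S.M z ⊆ S.M u)

/-- adjacent with the same trace on the clique -/
def T : SimpleGraph V where
  Adj u z := G.Adj u z ∧ S.M u = S.M z
  symm := ⟨fun _ _ h => ⟨h.1.symm, h.2.symm⟩⟩
  loopless := ⟨fun _ h => G.loopless.irrefl _ h.1⟩

/-- the component of `u` has an entry neighbour -/
def Mixed (u : V) : Prop :=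
  ∃ u', S.T.Reachable u u' ∧ ∃ z, z ∉ S.K ∧ G.Adj u' z ∧ S.M z ⊂ S.M u'

open scoped Classical in
/-- `B = {u in mixed components, x_u ≥ 3, rho(u) > 1}` -/
noncomputable def B : Finset V :=
  univ.filter (fun u => 4 ≤ (S.M u).card ∧ S.Mixed u ∧ 2 * S.s < S.R u)

end Setup

end Pool.Agent.Chordal
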